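import Pool.Agent.ECU.N1

/-!
[ECU-A1] the cubes contribute little if `n + k d ≤ k³`.

For `i < k`, `n + i d = cub k (n + i d) x³` (`cub_mul_cube`), `x³ ≤ k³`, so `x ≤ k`, and
`log x = ∑_{m ∣ x} Λ(m)` (`ArithmeticFunction.vonMangoldt_sum`). If `m ∣ x` then `m³ ∣ n + i d`,
`gcd (m, d) = 1`, `m ≤ k`. Summing over `i < k`: the number of `i < k` with `m³ ∣ n + i d` is `≤ k/m³ + 1`.
So the total is `≤ 3 ∑_{m ≤ k} Λ(m) (k/m³ + 1) ≤ 3 k ∑ log m / m³ + 3 ψ(k) ≤ C k`
(`Λ(m) ≤ log m ≤ m`, `∑ 1/m²` converges; `Chebyshev.psi_le…` in Mathlib gives `ψ(k) ≤ C k`).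
-/

set_option autoImplicit false

namespace ECU

open Finset

theorem a1_count {n d k q : ℕ} (hqd : Nat.Coprime q d) :
    ((range k).filter (fun i => q ∣ n + i * d)).card ≤ k / q + 1 := by
  have h := Finset.card_le_card_of_injOn (s := (range k).filter (fun i => q ∣ n + i * d))
    (t := range (k / q + 1)) (fun i => i / q) ?_ ?_
  · rwa [Finset.card_range] at h
  · intro i hi
    rw [Finset.mem_coe, Finset.mem_filter, Finset.mem_range] at hi
    rw [Finset.mem_coe, Finset.mem_range]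
    exact Nat.lt_succ_of_le (Nat.div_le_div_right hi.1.le)
  · intro i hi j hj hij
    rw [Finset.mem_coe, Finset.mem_filter] at hi hj
    simp only at hij
    have h1 : (n + i * d) ≡ (n + j * d) [MOD q] :=
      ((Nat.modEq_zero_iff_dvd).2 hi.2).trans ((Nat.modEq_zero_iff_dvd).2 hj.2).symm
    have h2 : i * d ≡ j * d [MOD q] := Nat.ModEq.add_left_cancel' n h1
    have h3 : i ≡ j [MOD q] := Nat.ModEq.cancel_right_of_coprime hqd h2
    have h4 : i % q = j % q := h3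
    rw [← Nat.div_add_mod i q, ← Nat.div_add_mod j q, h4, hij]

theorem a1_term {n d k i : ℕ} (h : Sol n d k) (hi : i < k) (hnk : n + k * d ≤ k ^ 3) :
    Real.log ((n + i * d : ℕ) : ℝ) - Real.log (cub k (n + i * d)) ≤
      3 * ∑ m ∈ (Icc 1 k).filter (fun m => Nat.Coprime m d),
        (if m ^ 3 ∣ n + i * d then ArithmeticFunction.vonMangoldt m else 0) := by
  obtain ⟨x, hx0, hx⟩ := cub_mul_cube h hi
  have hs0 := cub_pos k (n + i * d)
  have h1 : Real.log ((n + i * d : ℕ) : ℝ) =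
      Real.log (cub k (n + i * d)) + 3 * Real.log x := by
    have e1 : ((n + i * d : ℕ) : ℝ) = (cub k (n + i * d) : ℝ) * (x : ℝ) ^ 3 := by
      exact_mod_cast congrArg (Nat.cast : ℕ → ℝ) hx
    have hsR : (cub k (n + i * d) : ℝ) ≠ 0 := by exact_mod_cast hs0.ne'
    have hxR : (x : ℝ) ≠ 0 := by exact_mod_cast hx0.ne'
    rw [e1, Real.log_mul hsR (pow_ne_zero 3 hxR), Real.log_pow]
    norm_num
  have hdvd : x ^ 3 ∣ n + i * d := Dvd.intro_left _ hx.symm
  have hle : x ≤ k := by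
    have h3 : x ^ 3 ≤ k ^ 3 := by
      refine (Nat.le_of_dvd (by have := h.n0; omega) hdvd).trans ?_
      exact (Nat.add_le_add_left (Nat.mul_le_mul_right d hi.le) n).trans hnk
    exact (Nat.pow_le_pow_iff_left (by norm_num)).1 h3
  have hcop : Nat.Coprime x d :=
    Nat.Coprime.coprime_dvd_left ((dvd_pow_self x (by norm_num)).trans hdvd)
      (coprime_term h.cop i)
  have h2 : Real.log x ≤ ∑ m ∈ (Icc 1 k).filter (fun m => Nat.Coprime m d),
        (if m ^ 3 ∣ n + i * d then ArithmeticFunction.vonMangoldt m else 0) := by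
    rw [← ArithmeticFunction.vonMangoldt_sum, ← Finset.sum_filter]
    refine Finset.sum_le_sum_of_subset_of_nonneg ?_
      fun _ _ _ => ArithmeticFunction.vonMangoldt_nonneg
    intro m hm
    have hmx := (Nat.mem_divisors.1 hm).1
    have hm0 : 0 < m := Nat.pos_of_dvd_of_pos hmx hx0
    rw [Finset.mem_filter, Finset.mem_filter, Finset.mem_Icc]
    exact ⟨⟨⟨hm0, (Nat.le_of_dvd hx0 hmx).trans hle⟩, Nat.Coprime.coprime_dvd_left hmx hcop⟩,
      (pow_dvd_pow_of_dvd hmx 3).trans hdvd⟩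
  rw [h1]
  linarith

theorem xpart : ∃ C : ℝ, 0 ≤ C ∧ ∀ n d k : ℕ, Sol n d k → 1 ≤ k → n + k * d ≤ k ^ 3 →
    ∑ i ∈ range k, (Real.log ((n + i * d : ℕ) : ℝ) - Real.log (cub k (n + i * d))) ≤ C * k := by
  have hs : Summable (fun m : ℕ => 1 / (m : ℝ) ^ 2) := Real.summable_one_div_nat_pow.2 (by norm_num)
  refine ⟨3 * (∑' m : ℕ, 1 / (m : ℝ) ^ 2) + 3 * (Real.log 4 + 4), ?_, ?_⟩
  · have h0 : (0 : ℝ) ≤ ∑' m : ℕ, 1 / (m : ℝ) ^ 2 := tsum_nonneg fun m => by positivity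
    have h1 : (0 : ℝ) ≤ Real.log 4 := Real.log_nonneg (by norm_num)
    positivity
  intro n d k h hk hnk
  set T := (Icc 1 k).filter (fun m => Nat.Coprime m d) with hT
  have h1 : ∑ i ∈ range k, (Real.log ((n + i * d : ℕ) : ℝ) - Real.log (cub k (n + i * d))) ≤
      ∑ i ∈ range k, 3 * ∑ m ∈ T,
        (if m ^ 3 ∣ n + i * d then ArithmeticFunction.vonMangoldt m else 0) :=
    Finset.sum_le_sum fun i hi => a1_term h (Finset.mem_range.1 hi) hnk
  have h2 : ∑ i ∈ range k, 3 * ∑ m ∈ T,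
        (if m ^ 3 ∣ n + i * d then ArithmeticFunction.vonMangoldt m else 0) =
      3 * ∑ m ∈ T, (((range k).filter (fun i => m ^ 3 ∣ n + i * d)).card : ℝ) *
        ArithmeticFunction.vonMangoldt m := by
    rw [← Finset.mul_sum, Finset.sum_comm]
    congr 1
    refine Finset.sum_congr rfl fun m _ => ?_
    rw [← Finset.sum_filter, Finset.sum_const, nsmul_eq_mul]
  have h3 : ∀ m ∈ T, (((range k).filter (fun i => m ^ 3 ∣ n + i * d)).card : ℝ) *
        ArithmeticFunction.vonMangoldt m ≤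
      k * (1 / (m : ℝ) ^ 2) + ArithmeticFunction.vonMangoldt m := by
    intro m hm
    rw [hT, Finset.mem_filter, Finset.mem_Icc] at hm
    have hc := a1_count (n := n) (k := k) (Nat.Coprime.pow_left 3 hm.2)
    have hm1 : (1 : ℝ) ≤ m := by exact_mod_cast hm.1.1
    have hc' : (((range k).filter (fun i => m ^ 3 ∣ n + i * d)).card : ℝ) ≤
        (k : ℝ) / (m : ℝ) ^ 3 + 1 := by
      have e1 : ((k / m ^ 3 : ℕ) : ℝ) ≤ (k : ℝ) / (m : ℝ) ^ 3 := by
        have e2 := @Nat.cast_div_le ℝ _ _ _ k (m ^ 3)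
        rwa [Nat.cast_pow] at e2
      have e3 : (((range k).filter (fun i => m ^ 3 ∣ n + i * d)).card : ℝ) ≤
          ((k / m ^ 3 : ℕ) : ℝ) + 1 := by exact_mod_cast hc
      linarith
    have hL : ArithmeticFunction.vonMangoldt m ≤ (m : ℝ) :=
      ArithmeticFunction.vonMangoldt_le_log.trans (Real.log_le_self (by linarith))
    have hL2 : (k : ℝ) / (m : ℝ) ^ 3 * ArithmeticFunction.vonMangoldt m ≤ k * (1 / (m : ℝ) ^ 2) := by
      have e4 : (k : ℝ) / (m : ℝ) ^ 3 * ArithmeticFunction.vonMangoldt m ≤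
          (k : ℝ) / (m : ℝ) ^ 3 * m := mul_le_mul_of_nonneg_left hL (by positivity)
      refine e4.trans (le_of_eq ?_)
      have hm0 : (m : ℝ) ≠ 0 := by positivity
      field_simp
    calc _ ≤ ((k : ℝ) / (m : ℝ) ^ 3 + 1) * ArithmeticFunction.vonMangoldt m :=
          mul_le_mul_of_nonneg_right hc' ArithmeticFunction.vonMangoldt_nonneg
      _ = (k : ℝ) / (m : ℝ) ^ 3 * ArithmeticFunction.vonMangoldt m +
          ArithmeticFunction.vonMangoldt m := by ring
      _ ≤ _ := by linarith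
  have h4 : ∑ m ∈ T, (((range k).filter (fun i => m ^ 3 ∣ n + i * d)).card : ℝ) *
        ArithmeticFunction.vonMangoldt m ≤
      k * (∑ m ∈ T, 1 / (m : ℝ) ^ 2) + ∑ m ∈ T, ArithmeticFunction.vonMangoldt m := by
    rw [Finset.mul_sum, ← Finset.sum_add_distrib]
    exact Finset.sum_le_sum h3
  have h5 : ∑ m ∈ T, ArithmeticFunction.vonMangoldt m ≤ (Real.log 4 + 4) * k := by
    refine le_trans ?_ (Chebyshev.psi_le_const_mul_self (Nat.cast_nonneg k))
    unfold Chebyshev.psi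
    rw [Nat.floor_natCast]
    refine Finset.sum_le_sum_of_subset_of_nonneg ?_
      fun _ _ _ => ArithmeticFunction.vonMangoldt_nonneg
    intro m hm
    rw [hT, Finset.mem_filter, Finset.mem_Icc] at hm
    exact Finset.mem_Ioc.2 ⟨hm.1.1, hm.1.2⟩
  have h6 : ∑ m ∈ T, 1 / (m : ℝ) ^ 2 ≤ ∑' m : ℕ, 1 / (m : ℝ) ^ 2 :=
    hs.sum_le_tsum T fun m _ => by positivity
  have h7 : (k : ℝ) * (∑ m ∈ T, 1 / (m : ℝ) ^ 2) ≤ k * ∑' m : ℕ, 1 / (m : ℝ) ^ 2 :=
    mul_le_mul_of_nonneg_left h6 (Nat.cast_nonneg k)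
  rw [h2] at h1
  linarith

end ECU
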