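import Pool.Agent.ECU.N2
import Pool.Agent.ECU.A1

/-!
[ECU-A2] `n + k d ≤ k³` implies `n + k d ≤ C k`.

`N = n + k d`. `energy` and `xpart`: `∑_{i<k} log (n + i d) ≤ k log k + C1 k`. Lower bound: `n + i d ≥ i N / k`
(`k (n + i d) ≥ i (n + k d)`), so
`∑_{i<k} log (n + i d) ≥ ∑_{i=1}^{k-1} log (i N / k) = log (k-1)! + (k-1) (log N - log k)`
and `log (k-1)! ≥ k log k - k - log k` (`log k! ≥ k log k - k`: `Real`-Stirling bounds or
`Nat.factorial_lt…`; `EAP.A4`, `EAP.E3` contain such bounds). So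
`(k - 1) (log N - log k) ≤ (C1 + 1) k + log k`, and for `k ≥ 2`: `k ≤ 2 (k - 1)`, so
`log (N / k) ≤ 2 (C1 + 2)`. (`k = 1` is impossible: `n + d ≥ 2 > 1`.) Take `C = ⌈exp (2 (C1 + 2))⌉`.
-/

set_option autoImplicit false

namespace ECU

open Finset

theorem a2_fact (k : ℕ) : k * Real.log k - k ≤ Real.log (k.factorial : ℝ) := by
  induction k with
  | zero => simp
  | succ k ih =>
    have hk1 : (0 : ℝ) < (k : ℝ) + 1 := by positivity
    have hf : (0 : ℝ) < (k.factorial : ℝ) := by exact_mod_cast k.factorial_pos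
    have h1 : Real.log ((k + 1).factorial : ℝ) = Real.log ((k : ℝ) + 1) + Real.log (k.factorial : ℝ) := by
      rw [Nat.factorial_succ, Nat.cast_mul, Real.log_mul (by exact_mod_cast (Nat.succ_ne_zero k)) hf.ne']
      push_cast
      rfl
    have h5 : (k : ℝ) * (Real.log ((k : ℝ) + 1) - Real.log k) ≤ 1 := by
      rcases Nat.eq_zero_or_pos k with h0 | hpos
      · subst h0
        simp
      · have hk0 : (0 : ℝ) < k := by exact_mod_cast hpos
        have h2 : Real.log (((k : ℝ) + 1) / k) ≤ ((k : ℝ) + 1) / k - 1 :=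
          Real.log_le_sub_one_of_pos (div_pos hk1 hk0)
        rw [Real.log_div hk1.ne' hk0.ne'] at h2
        have h4 := mul_le_mul_of_nonneg_left h2 hk0.le
        have h3 : (k : ℝ) * (((k : ℝ) + 1) / k - 1) = 1 := by
          field_simp
          ring
        rw [h3] at h4
        exact h4
    push_cast
    rw [h1]
    linarith

theorem a2_low {n d k : ℕ} (hn : 0 < n) (hk : 1 ≤ k) :
    k * Real.log k - k - Real.log k +
      ((k : ℝ) - 1) * (Real.log ((n + k * d : ℕ) : ℝ) - Real.log k) ≤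
      ∑ i ∈ range k, Real.log ((n + i * d : ℕ) : ℝ) := by
  obtain ⟨m, rfl⟩ : ∃ m, k = m + 1 := ⟨k - 1, by omega⟩
  rw [Finset.sum_range_succ']
  have h0 : 0 ≤ Real.log ((n + 0 * d : ℕ) : ℝ) := by
    apply Real.log_nonneg
    exact_mod_cast (show 1 ≤ n + 0 * d by omega)
  have hN : (0 : ℝ) < ((n + (m + 1) * d : ℕ) : ℝ) := by
    exact_mod_cast (show 0 < n + (m + 1) * d by omega)
  have hm1 : (0 : ℝ) < ((m + 1 : ℕ) : ℝ) := by positivity
  have h1 : ∀ i ∈ range m, Real.log ((i : ℝ) + 1) +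
      (Real.log ((n + (m + 1) * d : ℕ) : ℝ) - Real.log ((m + 1 : ℕ) : ℝ)) ≤
      Real.log ((n + (i + 1) * d : ℕ) : ℝ) := by
    intro i hi
    rw [mem_range] at hi
    have hi1 : (0 : ℝ) < (i : ℝ) + 1 := by positivity
    rw [← Real.log_div hN.ne' hm1.ne', ← Real.log_mul hi1.ne' (div_pos hN hm1).ne']
    apply Real.log_le_log (mul_pos hi1 (div_pos hN hm1))
    rw [← mul_div_assoc, div_le_iff₀ hm1]
    have h2 : (i + 1) * (n + (m + 1) * d) ≤ (n + (i + 1) * d) * (m + 1) := by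
      have h3 : (i + 1) * n ≤ n * (m + 1) := by
        rw [Nat.mul_comm]
        exact Nat.mul_le_mul_left n (by omega)
      calc (i + 1) * (n + (m + 1) * d) = (i + 1) * n + (i + 1) * (m + 1) * d := by ring
        _ ≤ n * (m + 1) + (i + 1) * (m + 1) * d := Nat.add_le_add_right h3 _
        _ = (n + (i + 1) * d) * (m + 1) := by ring
    exact_mod_cast h2
  have h2 := Finset.sum_le_sum h1
  rw [Finset.sum_add_distrib, Finset.sum_const, card_range, nsmul_eq_mul] at h2
  have h3 : ∑ i ∈ range m, Real.log ((i : ℝ) + 1) = Real.log (m.factorial : ℝ) := by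
    rw [← Finset.prod_range_add_one_eq_factorial]
    push_cast
    rw [Real.log_prod]
    intro i _
    positivity
  have h4 := a2_fact (m + 1)
  rw [Nat.factorial_succ] at h4
  have h5 : (m.factorial : ℝ) ≠ 0 := by exact_mod_cast m.factorial_ne_zero
  rw [Nat.cast_mul, Real.log_mul hm1.ne' h5] at h4
  rw [h3] at h2
  have h6 : (((m + 1 : ℕ) : ℝ) - 1) = m := by
    push_cast
    ring
  rw [h6]
  linarith

theorem caseA : ∃ C : ℕ, ∀ n d k : ℕ, Sol n d k → 1 ≤ k → n + k * d ≤ k ^ 3 →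
    n + k * d ≤ C * k := by
  obtain ⟨C1, hC1, h1⟩ := energy
  obtain ⟨C2, hC2, h2⟩ := xpart
  refine ⟨⌈Real.exp (2 * (C1 + C2 + 2))⌉₊, ?_⟩
  intro n d k hS hk hle
  have hn := hS.n0
  have hd := hS.d0
  have hk2 : 2 ≤ k := by
    by_contra hcon
    have : k = 1 := by omega
    subst this
    omega
  have e1 := h1 n d k hS hk
  have e2 := h2 n d k hS hk hle
  rw [Finset.sum_sub_distrib] at e2
  have e3 := a2_low (d := d) hn hk
  have hkR : (2 : ℝ) ≤ k := by exact_mod_cast hk2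
  have e4 : Real.log k ≤ k := (Real.log_le_sub_one_of_pos (by linarith)).trans (by linarith)
  have hN : (0 : ℝ) < ((n + k * d : ℕ) : ℝ) := by
    exact_mod_cast (show 0 < n + k * d by omega)
  set D : ℝ := Real.log ((n + k * d : ℕ) : ℝ) - Real.log k with hD
  have e5 : ((k : ℝ) - 1) * D ≤ (C1 + C2 + 2) * k := by linarith
  have e6 : D ≤ 2 * (C1 + C2 + 2) := by
    by_contra hcon
    push Not at hcon
    have e7 : ((k : ℝ) - 1) * (2 * (C1 + C2 + 2)) < ((k : ℝ) - 1) * D :=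
      mul_lt_mul_of_pos_left hcon (by linarith)
    have e8 : (C1 + C2 + 2) * k ≤ ((k : ℝ) - 1) * (2 * (C1 + C2 + 2)) := by nlinarith
    linarith
  have e9 : ((n + k * d : ℕ) : ℝ) ≤ Real.exp (2 * (C1 + C2 + 2)) * k := by
    rw [hD, ← Real.log_div hN.ne' (by linarith)] at e6
    have e10 := (Real.log_le_iff_le_exp (div_pos hN (by linarith))).1 e6
    rwa [div_le_iff₀ (by linarith)] at e10
  have e11 : Real.exp (2 * (C1 + C2 + 2)) * k ≤
      (⌈Real.exp (2 * (C1 + C2 + 2))⌉₊ : ℝ) * k :=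
    mul_le_mul_of_nonneg_right (Nat.le_ceil _) (by linarith)
  exact_mod_cast e9.trans e11

end ECU
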