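import Pool.Agent.ECU.Defs

/-!
[ECU-A3] a prime in `(k/2, k]`.

`Nat.exists_prime_lt_and_le_two_mul` (Bertrand) with `⌊k/2⌋`: a prime `p` with `k/2 < p ≤ k` (for `k` odd,
`k = 2 m + 1`: a prime in `(m, 2m]`, and `2 p ≥ 2 m + 2 > k`). Let `k ≥ 4 C + 4`. `d ≤ C` (as `k d ≤ C k`), `C < p`, so `p ∤ d`; `p ∤ b` since
`2 p > k`; `p² > k²/4 ≥ C k ≥ n + i d`, so `v_p (n + i d) ≤ 1`. The number of `i < k` with
`p ∣ n + i d` is `1` or `2`: these `i` form one residue class modulo `p` and `p ≤ k < 2 p`. So
`v_p (∏) ∈ {1, 2}`, but `v_p (b y^l) = l v_p (y)` is divisible by `3`.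
(`Pool/Agent/EAP/E4.lean` is similar.)
-/

set_option autoImplicit false

namespace ECU

open Finset

theorem a3_res {p d : ℕ} (hp : p.Prime) (hd : Nat.Coprime p d) (n : ℕ) :
    ∃ i0, i0 < p ∧ p ∣ n + i0 * d := by
  have : Fact p.Prime := ⟨hp⟩
  have hd0 : (d : ZMod p) ≠ 0 := by
    rw [Ne, ZMod.natCast_eq_zero_iff]
    intro h
    exact hp.one_lt.ne' (Nat.dvd_one.1 (hd ▸ Nat.dvd_gcd dvd_rfl h))
  refine ⟨(-(n : ZMod p) / d).val, ZMod.val_lt _, ?_⟩
  rw [← ZMod.natCast_eq_zero_iff]
  push_cast
  rw [ZMod.natCast_zmod_val, div_mul_cancel₀ _ hd0]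
  ring

theorem bertrand (C : ℕ) : ∃ k2 : ℕ, ∀ n d k b y l : ℕ, k2 ≤ k → 0 < n → 0 < d → 0 < b → 0 < y →
    Nat.Coprime n d → 3 ∣ l → (∀ p : ℕ, p.Prime → p ∣ b → 2 * p ≤ k) → n + k * d ≤ C * k →
    ∏ i ∈ range k, (n + i * d) ≠ b * y ^ l := by
  refine ⟨4 * C + 4, ?_⟩
  intro n d k b y l hk hn hd hb hy hcop hl hbp hle heq
  have hm1 : k / 2 ≠ 0 := by omega
  obtain ⟨p, hp, hmp, hp2⟩ := Nat.exists_prime_lt_and_le_two_mul (k / 2) hm1
  have h2p : k < 2 * p := by omega
  have hpk : p ≤ k := by omega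
  have hdC : d ≤ C := by
    have h1 : k * d ≤ k * C := by
      calc k * d ≤ n + k * d := Nat.le_add_left _ _
        _ ≤ C * k := hle
        _ = k * C := Nat.mul_comm _ _
    exact Nat.le_of_mul_le_mul_left h1 (by omega)
  have hpd : Nat.Coprime p d := by
    rw [hp.coprime_iff_not_dvd]
    intro h
    have := Nat.le_of_dvd hd h
    omega
  have hsq : C * k < p * p := by
    have h1 : k * k < (2 * p) * (2 * p) := Nat.mul_lt_mul'' h2p h2p
    have h2 : (4 * C + 4) * k ≤ k * k := Nat.mul_le_mul_right k hk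
    nlinarith
  obtain ⟨i0, hi0, hpi0⟩ := a3_res hp hpd n
  have hpos : ∀ i, n + i * d ≠ 0 := fun i => by omega
  have hv : ∀ i ∈ range k, (n + i * d).factorization p = if p ∣ n + i * d then 1 else 0 := by
    intro i hi
    rw [mem_range] at hi
    split_ifs with hdv
    · have h1 : 1 ≤ (n + i * d).factorization p :=
        (hp.dvd_iff_one_le_factorization (hpos i)).1 hdv
      have h2 : ¬ 2 ≤ (n + i * d).factorization p := by
        intro h2
        have h3 : p ^ 2 ∣ n + i * d := (hp.pow_dvd_iff_le_factorization (hpos i)).2 h2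
        have h4 := Nat.le_of_dvd (Nat.pos_of_ne_zero (hpos i)) h3
        have h5 : i * d ≤ k * d := Nat.mul_le_mul_right d hi.le
        have h6 : p ^ 2 = p * p := by ring
        omega
      omega
    · exact Nat.factorization_eq_zero_of_not_dvd hdv
  have hprod : (∏ i ∈ range k, (n + i * d)).factorization p =
      ((range k).filter (fun i => p ∣ n + i * d)).card := by
    rw [Nat.factorization_prod (fun i _ => hpos i), Finsupp.finsetSum_apply,
      Finset.sum_congr rfl hv, Finset.card_filter]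
  have hright : (b * y ^ l).factorization p = l * y.factorization p := by
    rw [Nat.factorization_mul hb.ne' (pow_pos hy l).ne', Nat.factorization_pow]
    have : b.factorization p = 0 := by
      apply Nat.factorization_eq_zero_of_not_dvd
      intro h
      have := hbp p hp h
      omega
    simp [this]
  rw [heq, hright] at hprod
  have hge : 1 ≤ ((range k).filter (fun i => p ∣ n + i * d)).card := by
    rw [Nat.one_le_iff_ne_zero, Finset.card_ne_zero]
    exact ⟨i0, by rw [mem_filter, mem_range]; exact ⟨by omega, hpi0⟩⟩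
  have hsub : (range k).filter (fun i => p ∣ n + i * d) ⊆ {i0, i0 + p} := by
    intro i hi
    rw [mem_filter, mem_range] at hi
    obtain ⟨hik, hdi⟩ := hi
    rw [mem_insert, mem_singleton]
    rcases le_total i0 i with h | h
    · have h1 : p ∣ (i - i0) * d := by
        have h2 : (n + i * d) - (n + i0 * d) = (i - i0) * d := by
          rw [Nat.sub_mul]
          have : i0 * d ≤ i * d := Nat.mul_le_mul_right d h
          omega
        rw [← h2]
        exact Nat.dvd_sub hdi hpi0
      have h3 : p ∣ i - i0 := hpd.dvd_of_dvd_mul_right h1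
      obtain ⟨c, hc⟩ := h3
      have hc2 : c < 2 := by
        by_contra hcon
        have : p * 2 ≤ p * c := Nat.mul_le_mul_left p (by omega)
        omega
      interval_cases c <;> omega
    · have h1 : p ∣ (i0 - i) * d := by
        have h2 : (n + i0 * d) - (n + i * d) = (i0 - i) * d := by
          rw [Nat.sub_mul]
          have : i * d ≤ i0 * d := Nat.mul_le_mul_right d h
          omega
        rw [← h2]
        exact Nat.dvd_sub hpi0 hdi
      have h3 : p ∣ i0 - i := hpd.dvd_of_dvd_mul_right h1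
      have h4 : i0 - i = 0 := Nat.eq_zero_of_dvd_of_lt h3 (by omega)
      omega
  have hle2 : ((range k).filter (fun i => p ∣ n + i * d)).card ≤ 2 :=
    (card_le_card hsub).trans card_le_two
  obtain ⟨c, hc⟩ := hl
  rw [← hprod, hc] at hge hle2
  have : 3 * (c * y.factorization p) = 3 * c * y.factorization p := by ring
  omega

end ECU
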