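import Mathlib

/-!
# [ECU] MP_651b89_nt, project CubeExponents: definitions

`n + i d = a_i x_i ^ 3`, `a_i = cub k (n + i d) = ∏_{p ≤ k} p ^ (v_p mod 3)`.
-/

set_option autoImplicit false

namespace ECU

open Finset

/-- the cube-free part of `m`, with respect to the primes `≤ k` -/
def cub (k m : ℕ) : ℕ := ∏ p ∈ Nat.primesLE k, p ^ (m.factorization p % 3)

/-- the terms `n + i d`, `i < k`, of a coprime progression are cubes times numbers composed of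
primes `≤ k` -/
structure Sol (n d k : ℕ) : Prop where
  n0 : 0 < n
  d0 : 0 < d
  cop : Nat.Coprime n d
  th : ∀ i < k, ∀ p : ℕ, p.Prime → k < p → 3 ∣ (n + i * d).factorization p

/-- the number of indices with `a_i = c` -/
def S (n d k c : ℕ) : ℕ := ((range k).filter (fun i => cub k (n + i * d) = c)).card

/-- the number `c` is rich: three indices with `a_i = c p`, `p ≤ M` -/
def Rich (n d k B M c : ℕ) : Prop :=
  0 < c ∧ c ≤ B * k ∧ k ≤ M * c ∧ ∃ i1 i2 i3 p1 p2 p3 : ℕ, i1 < i2 ∧ i2 < i3 ∧ i3 < k ∧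
    k ≤ 16 * i1 ∧ (0 < p1 ∧ p1 ≤ M) ∧ (0 < p2 ∧ p2 ≤ M) ∧ (0 < p3 ∧ p3 ≤ M) ∧
    cub k (n + i1 * d) = c * p1 ∧ cub k (n + i2 * d) = c * p2 ∧ cub k (n + i3 * d) = c * p3

/-- a pattern: `w = p1 x1 ^ 3`, `w + t2 d = p2 x2 ^ 3`, `w + t3 d = p3 x3 ^ 3` -/
structure Pat where
  t2 : ℕ
  t3 : ℕ
  p1 : ℕ
  p2 : ℕ
  p3 : ℕ

/-- an admissible pattern -/
structure Pat.Ok (P : Pat) : Prop where
  t2 : 0 < P.t2
  t3 : P.t2 < P.t3
  p1 : 0 < P.p1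
  p2 : 0 < P.p2
  p3 : 0 < P.p3

/-- `w` and `x1, x2, x3` realise the pattern with difference `d` -/
structure Tri (P : Pat) (d w x1 x2 x3 : ℕ) : Prop where
  w0 : 0 < w
  d0 : 0 < d
  cop : Nat.Coprime w d
  e1 : w = P.p1 * x1 ^ 3
  e2 : w + P.t2 * d = P.p2 * x2 ^ 3
  e3 : w + P.t3 * d = P.p3 * x3 ^ 3

/-- `τ = t2 t3 p2 p3` -/
def Pat.tau (P : Pat) : ℕ := P.t2 * P.t3 * P.p2 * P.p3

/-- the curve of the pattern is `y ^ 2 = x ^ 3 + P.c`, `c = 16 (t3 - t2) ^ 2 p1 ^ 2 τ ^ 2` -/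
def Pat.c (P : Pat) : ℤ := 16 * ((P.t3 : ℤ) - P.t2) ^ 2 * P.p1 ^ 2 * P.tau ^ 2

/-- the `x`-coordinate of the point of `x1, x2, x3` -/
noncomputable def X (P : Pat) (x1 x2 x3 : ℕ) : ℚ := 4 * P.tau * (x2 * x3) / x1 ^ 2

/-- the `y`-coordinate of the point of `w` -/
noncomputable def Y (P : Pat) (d w : ℕ) : ℚ :=
  4 * P.tau * P.p1 * ((P.t2 : ℚ) + P.t3 + 2 * P.t2 * P.t3 * d / w)

/-- the `x`-coordinate of `(x, y) - (x', y')` on `y ^ 2 = x ^ 3 + c` -/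
noncomputable def xd (x y x' y' : ℚ) : ℚ := ((y + y') / (x - x')) ^ 2 - x - x'

/-- `w` is in the set counted by `few` -/
def In (P : Pat) (E k N d w : ℕ) : Prop :=
  w + P.t3 * d ≤ N ∧ N ≤ E * k * w ∧ ∃ x1 x2 x3 : ℕ, Tri P d w x1 x2 x3

end ECU
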