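import Pool.Agent.MP_c1dca2_ag.SC2.E6
import Pool.Agent.MP_c1dca2_ag.SC2.H3
import Pool.Agent.ECU.Defs

/-!
[ECU-E1] the naive height on `y² = (x - e 0)(x - e 1)(x - e 2)` over a number field `K`.

This is `Pool/Agent/EAP/D1.lean` and `Pool/Agent/EAP/D2.lean` (which do `K = ℚ`) with `ℚ` replaced by a
number field `K : Type`; copy these two files (the `SC2` lemmas are stated for every field, and
`Height.abs_logHeight_sym2_sub_le`, `WeierstrassCurve.abs_logHeight_addSubMap_sub_two_mul_logHeight_le`,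
`NumberField.finite_setOfPred_logHeight₁_le` hold for number fields).
-/

set_option autoImplicit false

namespace ECU

open SC2

/-- the naive height -/
noncomputable def hgt {K : Type} [Field K] [NumberField K] {e : Fin 3 → K} (P : Pt e) : ℝ :=
  Height.logHeight (xco P)

theorem hgt_nonneg {K : Type} [Field K] [NumberField K] {e : Fin 3 → K} (P : Pt e) :
    0 ≤ hgt P := by
  unfold hgt
  positivity

theorem hgt_aff {K : Type} [Field K] [NumberField K] {e : Fin 3 → K} (hc : Cv e) (x y : K)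
    (h : OnC e x y) : hgt (aff hc x y h) = Height.logHeight₁ x := by
  rw [hgt, xco_aff, Height.logHeight₁_eq_logHeight]

theorem e1_vec {K : Type} (u : Fin 2 → K) : ![u 0, u 1] = u := by
  ext i
  fin_cases i <;> rfl

theorem e1_ne {K : Type} [Field K] {e : Fin 3 → K} (P : Pt e) : xco P ≠ 0 := by
  unfold xco
  exact WeierstrassCurve.Affine.Point.xRep_ne_zero _

theorem e1_sym2 (K : Type) [Field K] [NumberField K] : ∃ C : ℝ, ∀ {e : Fin 3 → K} (P Q : Pt e),
    |Height.logHeight (sym2 (xco P) (xco Q)) - (hgt P + hgt Q)| ≤ C := by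
  obtain ⟨C, h⟩ := Height.abs_logHeight_sym2_sub_le K
  refine ⟨C, fun P Q => ?_⟩
  have h1 := h (a := xco P 0) (b := xco P 1) (c := xco Q 0) (d := xco Q 1)
    (by rw [e1_vec]; exact e1_ne P) (by rw [e1_vec]; exact e1_ne Q)
  rw [e1_vec, e1_vec] at h1
  exact h1

theorem hgt_par {K : Type} [Field K] [NumberField K] {e : Fin 3 → K} (hc : Cv e) :
    ∃ C : ℝ, ∀ P Q : Pt e, |hgt (P + Q) + hgt (P - Q) - 2 * (hgt P + hgt Q)| ≤ C := by
  have hell : WeierstrassCurve.IsElliptic (EC e) := ⟨(SC2.delta_ne_zero hc).isUnit⟩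
  obtain ⟨C₁, h₁⟩ := e1_sym2 K
  obtain ⟨C₂, h₂⟩ :=
    WeierstrassCurve.abs_logHeight_addSubMap_sub_two_mul_logHeight_le (EC e)
  refine ⟨C₁ + C₂ + 2 * C₁, fun P Q => ?_⟩
  obtain ⟨c, hc0, hcc⟩ := addSub_pt hc P Q
  have h3 := h₁ P Q
  have h4 := h₁ (P + Q) (P - Q)
  have h5 : |Height.logHeight (addSub e (sym2 (xco P) (xco Q))) -
      2 * Height.logHeight (sym2 (xco P) (xco Q))| ≤ C₂ := h₂ _
  have h6 : addSub e (sym2 (xco P) (xco Q)) = c • sym2 (xco (P + Q)) (xco (P - Q)) := by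
    funext i
    exact hcc i
  rw [h6, Height.logHeight_smul_eq_logHeight _ hc0] at h5
  rw [abs_le] at h3 h4 h5 ⊢
  constructor <;> linarith [h3.1, h3.2, h4.1, h4.2, h5.1, h5.2]

theorem e1_eq {K : Type} [Field K] {e : Fin 3 → K} {P Q : Pt e} (h : xco P = xco Q) :
    Q = P ∨ Q = -P :=
  WeierstrassCurve.Affine.Point.eq_or_eq_neg_of_xRep_eq_xRep (W := EC e) h.symm

theorem e1_fibre {K : Type} [Field K] {e : Fin 3 → K} (u : Fin 2 → K) :
    {P : Pt e | xco P = u}.Finite := by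
  by_cases hne : ∃ P : Pt e, xco P = u
  · obtain ⟨P, hP⟩ := hne
    refine (Set.toFinite ({P, -P} : Set (Pt e))).subset ?_
    intro Q hQ
    have hQ' : xco Q = u := hQ
    rcases e1_eq (hP.trans hQ'.symm) with h | h
    · exact Or.inl h
    · exact Or.inr h
  · refine Set.finite_empty.subset ?_
    intro Q hQ
    exact hne ⟨Q, hQ⟩

theorem hgt_northcott {K : Type} [Field K] [NumberField K] {e : Fin 3 → K} (hc : Cv e) :
    Northcott (hgt (K := K) (e := e)) := by
  refine ⟨fun B => ?_⟩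
  have h1 : ({x : K | Height.logHeight₁ x ≤ B}).Finite :=
    NumberField.finite_setOfPred_logHeight₁_le K B
  have h2 : (insert (![1, 0] : Fin 2 → K)
      ((fun x : K => (![x, 1] : Fin 2 → K)) '' {x : K | Height.logHeight₁ x ≤ B})).Finite :=
    (h1.image _).insert _
  refine (h2.biUnion fun u _ => e1_fibre (e := e) u).subset ?_
  intro P hP
  have hP' : hgt P ≤ B := hP
  rw [Set.mem_iUnion₂]
  rcases pt_cases hc P with rfl | ⟨x, y, h, rfl⟩
  · exact ⟨![1, 0], Set.mem_insert _ _, xco_zero⟩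
  · rw [hgt_aff] at hP'
    exact ⟨![x, 1], Set.mem_insert_of_mem _ ⟨x, hP', rfl⟩, xco_aff hc x y h⟩

end ECU
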