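import Pool.Agent.ECU.E2j

/-!
[ECU-E2a] finiteness of the square classes with even valuation outside a finite set (number field).

Let `D ≠ 0` in `𝓞 K`. Call `x : K`, `x ≠ 0`, good if `v.valuation K x` is a square in `ℤᵐ⁰` (even
exponent) for every `v : HeightOneSpectrum (𝓞 K)` with `D ∉ v.asIdeal`. The good `x` form finitely many
classes modulo squares.

Proof. Only finitely many `v` have `D ∈ v.asIdeal` (`Ideal.finite_factors`: `v.asIdeal ∣ span {D}`).
Label 1: the set of those `v` at which `v.valuation K x` is not a square. The quotient of two non-squares of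
`ℤᵐ⁰ \ {0}`, and the product, are squares (odd + odd = even; `WithZero (Multiplicative ℤ)`, or: `ℤᵐ⁰` modulo squares).
For each value of label 1 that occurs for a good `x` fix such an `x₀`. If `x` is good with the label of `x₀`, then
`x x₀` has a square valuation at EVERY `v`. The label of `x` is (label 1, `lab (x x₀)`) with `lab` from
`even_finite` (a finite type; transfer to some `Fin N`). If good `x, y` have the same label, then
`(x x₀)(y x₀) = s²`, so `x y = (s / x₀)²`.
-/

set_option autoImplicit false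

namespace ECU

open NumberField IsDedekindDomain

/-- in `ℤᵐ⁰`: the product of two nonzero elements that are both squares or both non-squares is a square -/
theorem e2a_sq_mul (a b : WithZero (Multiplicative ℤ)) (ha : a ≠ 0) (hb : b ≠ 0)
    (h : IsSquare a ↔ IsSquare b) : IsSquare (a * b) := by
  have key : ∀ c : WithZero (Multiplicative ℤ), c ≠ 0 → ∃ m : ℤ,
      c = ((Multiplicative.ofAdd m : Multiplicative ℤ) : WithZero (Multiplicative ℤ)) := by
    intro c hc
    obtain ⟨m, hm⟩ := WithZero.ne_zero_iff_exists.mp hc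
    exact ⟨Multiplicative.toAdd m, by rw [← hm, ofAdd_toAdd]⟩
  have ev : ∀ m : ℤ, IsSquare ((Multiplicative.ofAdd m : Multiplicative ℤ) :
      WithZero (Multiplicative ℤ)) ↔ Even m := by
    intro m
    constructor
    · rintro ⟨r, hr⟩
      have hr0 : r ≠ 0 := by
        intro h0
        rw [h0, mul_zero] at hr
        exact WithZero.coe_ne_zero hr
      obtain ⟨n, hn⟩ := key r hr0
      rw [hn, ← WithZero.coe_mul, WithZero.coe_inj, ← ofAdd_add] at hr
      have := Multiplicative.ofAdd.injective hr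
      exact ⟨n, this⟩
    · rintro ⟨n, hn⟩
      refine ⟨((Multiplicative.ofAdd n : Multiplicative ℤ) : WithZero (Multiplicative ℤ)), ?_⟩
      rw [← WithZero.coe_mul, ← ofAdd_add, hn]
  obtain ⟨m, hm⟩ := key a ha
  obtain ⟨n, hn⟩ := key b hb
  subst hm
  subst hn
  rw [ev, ev] at h
  rw [← WithZero.coe_mul, ← ofAdd_add, ev]
  rcases Int.even_or_odd m with hm | hm
  · exact hm.add (h.mp hm)
  · have : Odd n := by
      rcases Int.even_or_odd n with hn | hn
      · exact absurd (h.mpr hn) (Int.not_even_iff_odd.mpr hm)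
      · exact hn
    exact hm.add_odd this

theorem sel_finite {K : Type} [Field K] [NumberField K] (D : 𝓞 K) (hD : D ≠ 0) :
    ∃ (N : ℕ) (lab : K → Fin N), ∀ x y : K, x ≠ 0 → y ≠ 0 →
      (∀ v : HeightOneSpectrum (𝓞 K), D ∉ v.asIdeal → IsSquare (v.valuation K x)) →
      (∀ v : HeightOneSpectrum (𝓞 K), D ∉ v.asIdeal → IsSquare (v.valuation K y)) →
      lab x = lab y → ∃ s : K, s ≠ 0 ∧ x * y = s ^ 2 := by
  classical
  obtain ⟨N, lab, hlab⟩ := even_finite K
  have hfin : {v : HeightOneSpectrum (𝓞 K) | D ∈ v.asIdeal}.Finite := by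
    have h1 : (Ideal.span {D} : Ideal (𝓞 K)) ≠ 0 := by
      intro h0
      exact hD (Ideal.span_singleton_eq_bot.mp h0)
    refine (Ideal.finite_factors h1).subset ?_
    intro v hv
    exact Ideal.dvd_iff_le.mpr ((Ideal.span_singleton_le_iff_mem _).mpr hv)
  have : Finite {v : HeightOneSpectrum (𝓞 K) // D ∈ v.asIdeal} := hfin
  set l1 : K → Set {v : HeightOneSpectrum (𝓞 K) // D ∈ v.asIdeal} :=
    fun x => {v | ¬ IsSquare (v.1.valuation K x)} with hl1
  set good : K → Prop := fun x => x ≠ 0 ∧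
    ∀ v : HeightOneSpectrum (𝓞 K), D ∉ v.asIdeal → IsSquare (v.valuation K x) with hgood
  set x0 : Set {v : HeightOneSpectrum (𝓞 K) // D ∈ v.asIdeal} → K :=
    fun A => if h : ∃ x, good x ∧ l1 x = A then h.choose else 1 with hx0
  have hx0s : ∀ A, (∃ x, good x ∧ l1 x = A) → good (x0 A) ∧ l1 (x0 A) = A := by
    intro A h
    have : x0 A = h.choose := by simp only [hx0]; exact dif_pos h
    rw [this]
    exact h.choose_spec
  have heven : ∀ x, good x → ∀ v : HeightOneSpectrum (𝓞 K),
      IsSquare (v.valuation K (x * x0 (l1 x))) := by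
    intro x hx v
    obtain ⟨hg, hl⟩ := hx0s (l1 x) ⟨x, hx, rfl⟩
    rw [map_mul]
    by_cases hv : D ∈ v.asIdeal
    · refine e2a_sq_mul _ _ ((Valuation.ne_zero_iff _).mpr hx.1)
        ((Valuation.ne_zero_iff _).mpr hg.1) ?_
      have h1 : (⟨v, hv⟩ : {v : HeightOneSpectrum (𝓞 K) // D ∈ v.asIdeal}) ∈ l1 (x0 (l1 x)) ↔
          (⟨v, hv⟩ : {v : HeightOneSpectrum (𝓞 K) // D ∈ v.asIdeal}) ∈ l1 x := by rw [hl]
      have h2 : (¬ IsSquare (v.valuation K (x0 (l1 x)))) ↔ ¬ IsSquare (v.valuation K x) := h1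
      exact (not_iff_not.mp h2).symm
    · exact (hx.2 v hv).mul (hg.2 v hv)
  set T := Set {v : HeightOneSpectrum (𝓞 K) // D ∈ v.asIdeal} × Fin N with hT
  have : Finite T := by rw [hT]; infer_instance
  refine ⟨Nat.card T, fun x => Finite.equivFin T (l1 x, lab (x * x0 (l1 x))), ?_⟩
  intro x y hx hy hgx hgy hxy
  have h1 : (l1 x, lab (x * x0 (l1 x))) = (l1 y, lab (y * x0 (l1 y))) :=
    (Finite.equivFin T).injective hxy
  rw [Prod.mk.injEq] at h1
  obtain ⟨ha, hb⟩ := h1
  have gx : good x := ⟨hx, hgx⟩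
  have gy : good y := ⟨hy, hgy⟩
  obtain ⟨hg, -⟩ := hx0s (l1 x) ⟨x, gx, rfl⟩
  have hy1 := heven y gy
  rw [← ha] at hb hy1
  obtain ⟨s, hs, hxs⟩ := hlab (x * x0 (l1 x)) (y * x0 (l1 x)) (mul_ne_zero hx hg.1)
    (mul_ne_zero hy hg.1) (heven x gx) hy1 hb
  refine ⟨s / x0 (l1 x), div_ne_zero hs hg.1, ?_⟩
  have hne := hg.1
  field_simp
  rw [← hxs]
  ring

end ECU
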