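import Mathlib

/-!
[ECU-E2b] valuations of the three factors of a square.

`y² = (x - a 0)(x - a 1)(x - a 2)`, `y ≠ 0`, `D = (a 0 - a 1)(a 1 - a 2)(a 2 - a 0) ∉ v`. Write `|·|` for
`v.valuation K` (values in `ℤᵐ⁰ = WithZero (Multiplicative ℤ)`, multiplicative, `|s + t| ≤ max |s| |t|` with
equality if `|s| ≠ |t|`; `|a| ≤ 1` for `a : 𝓞 K` (`v.valuation_le_one`), `|a| = 1` if moreover `a ∉ v.asIdeal`).
If some `|x - a i| > 1` then all three `|x - a j|` are equal (they differ by elements of absolute value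
`≤ 1`), so `|x - a i|³ = |y|²` and `|x - a i| = (|y| / |x - a i|)²`. Otherwise all are `≤ 1`, and at most
one is `< 1`, since `|a i - a j| = 1` for `i ≠ j` (`D ∉ v.asIdeal`, prime ideal; `|a i - a j| ≤ 1` and
`|D| = 1`): so two of the three are `= 1` and the third is `|y|²`.
(`Pool/Agent/EAP/D3.lean` is the analogue over `ℚ`.)
-/

set_option autoImplicit false

namespace ECU

open NumberField IsDedekindDomain

theorem val_square {K : Type} [Field K] [NumberField K] (a : Fin 3 → 𝓞 K) (x y : K) (hy : y ≠ 0)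
    (h : y ^ 2 = (x - a 0) * (x - a 1) * (x - a 2)) (v : HeightOneSpectrum (𝓞 K))
    (hv : (a 0 - a 1) * (a 1 - a 2) * (a 2 - a 0) ∉ v.asIdeal) (i : Fin 3) :
    IsSquare (v.valuation K (x - a i)) := by
  have hle : ∀ b : 𝓞 K, v.valuation K (b : K) ≤ 1 := fun b => v.valuation_le_one b
  have hone : ∀ b : 𝓞 K, b ∉ v.asIdeal → v.valuation K (b : K) = 1 := by
    intro b hb
    refine le_antisymm (hle b) (not_lt.1 fun hlt => hb ?_)
    exact (v.valuation_lt_one_iff_mem b).1 hlt
  have h01 : a 0 - a 1 ∉ v.asIdeal := fun hh => hv (v.asIdeal.mul_mem_right _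
    (v.asIdeal.mul_mem_right _ hh))
  have h12 : a 1 - a 2 ∉ v.asIdeal := fun hh => hv (v.asIdeal.mul_mem_right _
    (v.asIdeal.mul_mem_left _ hh))
  have h20 : a 2 - a 0 ∉ v.asIdeal := fun hh => hv (v.asIdeal.mul_mem_left _ hh)
  have hdiff : ∀ j l : Fin 3, j ≠ l → v.valuation K ((a j : K) - (a l : K)) = 1 := by
    have hc : ∀ j l : Fin 3, j ≠ l → (j = 0 ∧ l = 1) ∨ (j = 1 ∧ l = 0) ∨ (j = 1 ∧ l = 2) ∨
        (j = 2 ∧ l = 1) ∨ (j = 2 ∧ l = 0) ∨ (j = 0 ∧ l = 2) := by decide
    have e01 := hone _ h01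
    have e12 := hone _ h12
    have e20 := hone _ h20
    push_cast at e01 e12 e20
    intro j l hjl
    rcases hc j l hjl with ⟨rfl, rfl⟩ | ⟨rfl, rfl⟩ | ⟨rfl, rfl⟩ | ⟨rfl, rfl⟩ | ⟨rfl, rfl⟩ | ⟨rfl, rfl⟩
    · exact e01
    · rw [Valuation.map_sub_swap]; exact e01
    · exact e12
    · rw [Valuation.map_sub_swap]; exact e12
    · exact e20
    · rw [Valuation.map_sub_swap]; exact e20
  have hy2 : v.valuation K y ^ 2 = v.valuation K (x - a 0) * v.valuation K (x - a 1) *
      v.valuation K (x - a 2) := by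
    rw [← map_pow, h, map_mul, map_mul]
  have hy0 : v.valuation K y ≠ 0 := (Valuation.ne_zero_iff _).2 hy
  by_cases hbig : ∃ j, 1 < v.valuation K (x - a j)
  · obtain ⟨j, hj⟩ := hbig
    have hall : ∀ l, v.valuation K (x - a l) = v.valuation K (x - a j) := by
      intro l
      by_cases hl : j = l
      · rw [hl]
      · have e : x - (a l : K) = (x - a j) + ((a j : K) - a l) := by ring
        rw [e]
        exact Valuation.map_add_eq_of_lt_left _ (by rw [hdiff j l hl]; exact hj)
    rw [hall i]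
    rw [hall 0, hall 1, hall 2] at hy2
    generalize v.valuation K (x - a j) = A at hy2 hj
    generalize v.valuation K y = Y at hy2 hy0
    have hA : A ≠ 0 := fun h0 => by
      rw [h0] at hj
      exact absurd hj (by simp)
    refine ⟨Y / A, ?_⟩
    rw [div_mul_div_comm, ← pow_two, hy2]
    field_simp
  · push Not at hbig
    have hor : ∀ j l : Fin 3, j ≠ l → v.valuation K (x - a j) = 1 ∨
        v.valuation K (x - a l) = 1 := by
      intro j l hjl
      have h1 := Valuation.map_sub (v.valuation K) (x - a j) (x - a l)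
      have e : x - (a j : K) - (x - a l) = (a l : K) - a j := by ring
      rw [e, hdiff l j hjl.symm, le_max_iff] at h1
      rcases h1 with h1 | h1
      · exact Or.inl (le_antisymm (hbig j) h1)
      · exact Or.inr (le_antisymm (hbig l) h1)
    by_cases hi : v.valuation K (x - a i) = 1
    · rw [hi]
      exact IsSquare.one
    · have hoth : ∀ l, l ≠ i → v.valuation K (x - a l) = 1 := fun l hl =>
        (hor l i hl).resolve_right hi
      refine ⟨v.valuation K y, ?_⟩
      rw [← pow_two, hy2]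
      have hc : ∀ i : Fin 3, i = 0 ∨ i = 1 ∨ i = 2 := by decide
      rcases hc i with rfl | rfl | rfl
      · rw [hoth 1 (by decide), hoth 2 (by decide), mul_one, mul_one]
      · rw [hoth 0 (by decide), hoth 2 (by decide), one_mul, mul_one]
      · rw [hoth 0 (by decide), hoth 1 (by decide), one_mul, one_mul]

end ECU
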