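import Mathlib

/-!
[ECU-E2i] if all exponents of `x` are even then the fractional ideal `(x)` is a square (number field).

`v.valuation K x` is a square in `ℤᵐ⁰` means that the exponent of `v` in the fractional ideal `(x)` is
even. `FractionalIdeal.finprod_heightOneSpectrum_factorization…` (in
`Mathlib/RingTheory/DedekindDomain/Factorization.lean`: `FractionalIdeal.count`,
`FractionalIdeal.finprod_heightOneSpectrum_factorization_principal`, …) writes `(x) = ∏ᶠ v ^ count v`; with
`count v = 2 m v` put `J = ∏ᶠ v ^ m v`. The relation between `v.valuation K x` and the exponent: write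
`x = a / b` with `a, b ∈ 𝓞 K`; `v.valuation_of_algebraMap`, `HeightOneSpectrum.intValuation_def` /
`intValuation_if_neg`, `Associates.count`.
Alternative with integral ideals only: `x = a / b = (a b) / b²`; it is enough to treat the integral
`z = a b ≠ 0`: every prime ideal occurs an even number of times in the factorization of `span {z}`
(`normalizedFactors`), so `span {z} = J²` with `J` an ideal
(`UniqueFactorizationMonoid`; for a multiset `s` with all counts even, `s = t + t`), and then
`(x) = (J / b)²`.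
-/

set_option autoImplicit false

namespace ECU

open NumberField IsDedekindDomain nonZeroDivisors

/-- the valuation of `x` is `exp` of minus the exponent in the fractional ideal `(x)` -/
theorem e2i_val {K : Type} [Field K] [NumberField K] (x : K) (hx : x ≠ 0)
    (v : HeightOneSpectrum (𝓞 K)) :
    v.valuation K x =
      WithZero.exp (-(FractionalIdeal.count K v (FractionalIdeal.spanSingleton (𝓞 K)⁰ x))) := by
  obtain ⟨n, d, hd, hnd⟩ := IsFractionRing.div_surjective (A := 𝓞 K) x
  have hd0 : d ≠ 0 := nonZeroDivisors.ne_zero hd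
  have hn0 : n ≠ 0 := by
    rintro rfl
    apply hx
    rw [← hnd]
    simp
  have hI : FractionalIdeal.spanSingleton (𝓞 K)⁰ x ≠ 0 :=
    FractionalIdeal.spanSingleton_ne_zero_iff.2 hx
  have h1 : FractionalIdeal.spanSingleton (𝓞 K)⁰ x =
      FractionalIdeal.spanSingleton (𝓞 K)⁰ ((algebraMap (𝓞 K) K) d)⁻¹ *
      ((Ideal.span {n} : Ideal (𝓞 K)) : FractionalIdeal (𝓞 K)⁰ K) := by
    rw [FractionalIdeal.coeIdeal_span_singleton, FractionalIdeal.spanSingleton_mul_spanSingleton,
      ← hnd]
    congr 1
    rw [div_eq_mul_inv, mul_comm]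
  rw [FractionalIdeal.count_well_defined K v hI h1, ← hnd, map_div₀, v.valuation_of_algebraMap,
    v.valuation_of_algebraMap, v.intValuation_if_neg hn0, v.intValuation_if_neg hd0,
    ← WithZero.exp_sub]
  congr 1
  ring

theorem frac_sq {K : Type} [Field K] [NumberField K] (x : K) (hx : x ≠ 0)
    (h : ∀ v : HeightOneSpectrum (𝓞 K), IsSquare (v.valuation K x)) :
    ∃ J : (FractionalIdeal (𝓞 K)⁰ K)ˣ, toPrincipalIdeal (𝓞 K) K (Units.mk0 x hx) = J ^ 2 := by
  classical
  have hI : FractionalIdeal.spanSingleton (𝓞 K)⁰ x ≠ 0 :=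
    FractionalIdeal.spanSingleton_ne_zero_iff.2 hx
  have heven : ∀ v : HeightOneSpectrum (𝓞 K), ∃ m : ℤ,
      FractionalIdeal.count K v (FractionalIdeal.spanSingleton (𝓞 K)⁰ x) = m * 2 := by
    intro v
    obtain ⟨y, hy⟩ := h v
    rw [e2i_val x hx v] at hy
    have hy0 : y ≠ 0 := by
      rintro rfl
      rw [mul_zero] at hy
      exact WithZero.exp_ne_zero hy
    obtain ⟨k, rfl⟩ : ∃ k : ℤ, y = WithZero.exp k :=
      ⟨WithZero.log y, (WithZero.exp_log hy0).symm⟩
    rw [← WithZero.exp_add, WithZero.exp_inj] at hy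
    exact ⟨-k, by linarith⟩
  choose m hm using heven
  have hfin : Function.HasFiniteMulSupport fun v : HeightOneSpectrum (𝓞 K) =>
      (v.asIdeal : FractionalIdeal (𝓞 K)⁰ K) ^ m v := by
    have h1 := FractionalIdeal.finite_factors
      (FractionalIdeal.spanSingleton (𝓞 K)⁰ x : FractionalIdeal (𝓞 K)⁰ K)
    rw [Filter.eventually_cofinite] at h1
    refine Set.Finite.subset h1 ?_
    intro v hv
    simp only [Function.mem_mulSupport] at hv
    show ¬ FractionalIdeal.count K v (FractionalIdeal.spanSingleton (𝓞 K)⁰ x) = 0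
    intro h0
    apply hv
    rw [hm v] at h0
    have h2 : m v = 0 := by linarith
    rw [h2, zpow_zero]
  have hsq : (∏ᶠ v : HeightOneSpectrum (𝓞 K), (v.asIdeal : FractionalIdeal (𝓞 K)⁰ K) ^ m v) ^ 2 =
      FractionalIdeal.spanSingleton (𝓞 K)⁰ x := by
    rw [finprod_pow hfin, ← FractionalIdeal.finprod_heightOneSpectrum_factorization' K hI]
    apply finprod_congr
    intro v
    rw [hm v, zpow_mul]
    exact (zpow_natCast _ 2).symm
  have hJ0 : (∏ᶠ v : HeightOneSpectrum (𝓞 K), (v.asIdeal : FractionalIdeal (𝓞 K)⁰ K) ^ m v) ≠ 0 := by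
    intro h0
    rw [h0] at hsq
    apply hI
    rw [← hsq]
    simp
  refine ⟨Units.mk0 _ hJ0, ?_⟩
  rw [toPrincipalIdeal_eq_iff]
  show FractionalIdeal.spanSingleton (𝓞 K)⁰ x = _
  rw [Units.val_pow_eq_pow_val, Units.val_mk0, hsq]

end ECU
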