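import Pool.Agent.ECU.E2i

/-!
[ECU-E2j] finitely many square classes of `x` with all exponents even (number field).

`frac_sq` gives `J x` with `(x) = (J x)²`. Label 2: `ClassGroup.mk (J x)` in the finite group
`ClassGroup (𝓞 K)`. If `x, x'` have the same label 2 then `J x = (γ) J x'` (`ClassGroup.mk_eq_mk` or
`ClassGroup.mk_eq_one_iff` for the quotient), so `(x) = (γ² x')` and `x = u γ² x'` with a unit `u` of `𝓞 K`
(kernel of `toPrincipalIdeal`: `toPrincipalIdeal_eq_iff`, `FractionalIdeal.spanSingleton…`,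
or: `x / (γ² x')` and its inverse are in `𝓞 K`). Fix a representative `x'` for each value of label 2 that
occurs; label 3: the class of `u` in `(𝓞 K)ˣ` modulo squares, a finite group: `(𝓞 K)ˣ` is finitely generated
(`Mathlib/NumberTheory/NumberField/Units/DirichletTheorem.lean`), commutative, and every element of the
quotient by squares has order dividing `2` (`CommGroup.finite_of_fg_torsion`). If `x, y` have the same
labels 2 and 3: `x = u γ² x'`, `y = u₁ γ₁² x'`, `u u₁` is a square, so `x y = u u₁ (γ γ₁ x')²` is a square.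
-/

set_option autoImplicit false

namespace ECU

open NumberField IsDedekindDomain

theorem e2j_unit {K : Type} [Field K] [NumberField K] (z : Kˣ)
    (hz : toPrincipalIdeal (𝓞 K) K z = 1) : ∃ u : (𝓞 K)ˣ, ((u : 𝓞 K) : K) = (z : K) := by
  have key : ∀ z : Kˣ, toPrincipalIdeal (𝓞 K) K z = 1 → ∃ a : 𝓞 K, algebraMap (𝓞 K) K a = z := by
    intro z hz
    rw [toPrincipalIdeal_eq_iff] at hz
    have h1 := FractionalIdeal.mem_spanSingleton_self (nonZeroDivisors (𝓞 K)) (z : K)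
    rw [hz, Units.val_one, FractionalIdeal.mem_one_iff] at h1
    exact h1
  obtain ⟨a, ha⟩ := key z hz
  obtain ⟨b, hb⟩ := key z⁻¹ (by rw [map_inv, hz, inv_one])
  have hab : a * b = 1 := by
    apply RingOfIntegers.coe_injective
    rw [map_mul, ha, hb, map_one, ← Units.val_mul, mul_inv_cancel, Units.val_one]
  exact ⟨⟨a, b, hab, by rw [mul_comm, hab]⟩, ha⟩

theorem e2j_finite (K : Type) [Field K] [NumberField K] :
    Finite ((𝓞 K)ˣ ⧸ (powMonoidHom 2 : (𝓞 K)ˣ →* (𝓞 K)ˣ).range) := by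
  have hfg : Group.FG (𝓞 K)ˣ := Group.fg_iff_monoid_fg.2 inferInstance
  have hfg2 : Group.FG ((𝓞 K)ˣ ⧸ (powMonoidHom 2 : (𝓞 K)ˣ →* (𝓞 K)ˣ).range) := inferInstance
  apply CommGroup.finite_of_fg_isMulTorsion
  intro g
  rw [isOfFinOrder_iff_pow_eq_one]
  refine ⟨2, by norm_num, ?_⟩
  induction g using QuotientGroup.induction_on with
  | H u =>
    rw [← QuotientGroup.mk_pow]
    exact (QuotientGroup.eq_one_iff _).2 ⟨u, rfl⟩

theorem even_finite (K : Type) [Field K] [NumberField K] :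
    ∃ (N : ℕ) (lab : K → Fin N), ∀ x y : K, x ≠ 0 → y ≠ 0 →
      (∀ v : HeightOneSpectrum (𝓞 K), IsSquare (v.valuation K x)) →
      (∀ v : HeightOneSpectrum (𝓞 K), IsSquare (v.valuation K y)) →
      lab x = lab y → ∃ s : K, s ≠ 0 ∧ x * y = s ^ 2 := by
  classical
  have hf1 : Finite ((FractionalIdeal (nonZeroDivisors (𝓞 K)) K)ˣ ⧸
      (toPrincipalIdeal (𝓞 K) K).range) :=
    Finite.of_equiv (ClassGroup (𝓞 K)) (ClassGroup.equiv K).toEquiv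
  have hf2 := e2j_finite K
  -- representatives of the classes
  have key : ∀ c : (FractionalIdeal (nonZeroDivisors (𝓞 K)) K)ˣ ⧸
      (toPrincipalIdeal (𝓞 K) K).range, ∃ r : Kˣ, ∀ x : Kˣ,
      ∀ J : (FractionalIdeal (nonZeroDivisors (𝓞 K)) K)ˣ, toPrincipalIdeal (𝓞 K) K x = J ^ 2 →
      (QuotientGroup.mk J : (FractionalIdeal (nonZeroDivisors (𝓞 K)) K)ˣ ⧸
        (toPrincipalIdeal (𝓞 K) K).range) = c →
      ∃ (u : (𝓞 K)ˣ) (γ : Kˣ), (x : K) = ((u : 𝓞 K) : K) * (γ : K) ^ 2 * (r : K) := by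
    intro c
    by_cases h : ∃ (y : Kˣ) (J : (FractionalIdeal (nonZeroDivisors (𝓞 K)) K)ˣ),
        toPrincipalIdeal (𝓞 K) K y = J ^ 2 ∧
        (QuotientGroup.mk J : (FractionalIdeal (nonZeroDivisors (𝓞 K)) K)ˣ ⧸
          (toPrincipalIdeal (𝓞 K) K).range) = c
    · obtain ⟨r, J', hr, hJ'⟩ := h
      refine ⟨r, fun x J hx hJ => ?_⟩
      rw [← hJ'] at hJ
      obtain ⟨γ, hγ⟩ := QuotientGroup.eq.1 hJ.symm
      have h1 : toPrincipalIdeal (𝓞 K) K (x * (γ ^ 2)⁻¹ * r⁻¹) = 1 := by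
        rw [map_mul, map_mul, map_inv, map_inv, map_pow, hγ, hx, hr]
        rw [mul_pow, inv_pow, mul_inv, inv_inv]
        calc J ^ 2 * (J' ^ 2 * (J ^ 2)⁻¹) * (J' ^ 2)⁻¹
            = (J ^ 2 * (J ^ 2)⁻¹) * (J' ^ 2 * (J' ^ 2)⁻¹) := by
              rw [mul_comm (J' ^ 2) ((J ^ 2)⁻¹), ← mul_assoc, mul_assoc]
          _ = 1 := by rw [mul_inv_cancel, mul_inv_cancel, mul_one]
      obtain ⟨u, hu⟩ := e2j_unit _ h1
      refine ⟨u, γ, ?_⟩
      rw [hu]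
      have h2 : x = x * (γ ^ 2)⁻¹ * r⁻¹ * γ ^ 2 * r := by
        rw [mul_assoc (x * (γ ^ 2)⁻¹) r⁻¹ (γ ^ 2), mul_comm r⁻¹ (γ ^ 2), ← mul_assoc,
          inv_mul_cancel_right, inv_mul_cancel_right]
      nth_rewrite 1 [h2]
      push_cast
      rfl
    · refine ⟨1, fun x J hx hJ => ?_⟩
      exact absurd ⟨x, J, hx, hJ⟩ h
  choose r hr using key
  have hlab : ∀ x : K, ∃ l : ((FractionalIdeal (nonZeroDivisors (𝓞 K)) K)ˣ ⧸
      (toPrincipalIdeal (𝓞 K) K).range) ×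
      ((𝓞 K)ˣ ⧸ (powMonoidHom 2 : (𝓞 K)ˣ →* (𝓞 K)ˣ).range), x ≠ 0 →
      (∀ v : HeightOneSpectrum (𝓞 K), IsSquare (v.valuation K x)) →
      ∃ (u : (𝓞 K)ˣ) (γ : Kˣ), x = ((u : 𝓞 K) : K) * (γ : K) ^ 2 * (r l.1 : K) ∧
        l.2 = QuotientGroup.mk u := by
    intro x
    by_cases hx : x ≠ 0 ∧ (∀ v : HeightOneSpectrum (𝓞 K), IsSquare (v.valuation K x))
    · obtain ⟨J, hJ⟩ := frac_sq x hx.1 hx.2
      obtain ⟨u, γ, h1⟩ := hr (QuotientGroup.mk J) (Units.mk0 x hx.1) J hJ rfl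
      exact ⟨(QuotientGroup.mk J, QuotientGroup.mk u), fun _ _ => ⟨u, γ, h1, rfl⟩⟩
    · exact ⟨(1, 1), fun h1 h2 => absurd ⟨h1, h2⟩ hx⟩
  choose Lb hLb using hlab
  obtain ⟨n, ⟨e⟩⟩ := Finite.exists_equiv_fin (((FractionalIdeal (nonZeroDivisors (𝓞 K)) K)ˣ ⧸
      (toPrincipalIdeal (𝓞 K) K).range) ×
      ((𝓞 K)ˣ ⧸ (powMonoidHom 2 : (𝓞 K)ˣ →* (𝓞 K)ˣ).range))
  refine ⟨n, fun x => e (Lb x), fun x y hx hy h1 h2 hxy => ?_⟩
  have hl : Lb x = Lb y := e.injective hxy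
  obtain ⟨u, γ, hx', hu⟩ := hLb x hx h1
  obtain ⟨u1, γ1, hy', hu1⟩ := hLb y hy h2
  rw [hl] at hx' hu
  rw [hu] at hu1
  obtain ⟨w, hw⟩ := QuotientGroup.eq.1 hu1
  have hw' : w ^ 2 = u⁻¹ * u1 := hw
  have hu1' : u1 = u * w ^ 2 := by rw [hw', mul_inv_cancel_left]
  refine ⟨((u : 𝓞 K) : K) * ((w : 𝓞 K) : K) * γ * γ1 * (r (Lb y).1 : K), ?_, ?_⟩
  · have a1 : ((u : 𝓞 K) : K) ≠ 0 := by
      exact (RingOfIntegers.coe_ne_zero_iff).2 u.ne_zero
    have a2 : ((w : 𝓞 K) : K) ≠ 0 := by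
      exact (RingOfIntegers.coe_ne_zero_iff).2 w.ne_zero
    exact mul_ne_zero (mul_ne_zero (mul_ne_zero (mul_ne_zero a1 a2) γ.ne_zero) γ1.ne_zero)
      (r (Lb y).1).ne_zero
  · have h3 : ((u1 : 𝓞 K) : K) = ((u : 𝓞 K) : K) * ((w : 𝓞 K) : K) ^ 2 := by
      rw [hu1']
      push_cast
      rfl
    rw [h3] at hy'
    refine (congrArg₂ (fun a b : K => a * b) hx' hy').trans ?_
    ring

end ECU
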