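import Pool.Agent.ECU.E1
import Pool.Agent.ECU.E2a
import Pool.Agent.ECU.E2b
import Pool.Agent.EAP.D4
import Pool.Agent.MP_c1dca2_ag.SC2.E5

/-!
[ECU-E3] Mordell-Weil for `y² = (x - a 0)(x - a 1)(x - a 2)`, `a i` distinct algebraic integers of `K`.

Copy the structure of `Pool/Agent/EAP/D5.lean` (the case `K = ℚ`): `AddCommGroup.fg_of_descent'` with
`h = hgt`, `hgt_nonneg`, `hgt_par`, `hgt_northcott`, and finite index of the doubles by labels:
`Option (Fin 3) ⊕ (Fin 3 → Fin N)`, where for a point `(x, y)` with `y ≠ 0` the label is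
`fun i => lab (x - a i)` with `lab` from `sel_finite`, `D = (a 0 - a 1)(a 1 - a 2)(a 2 - a 0)`. Two such
points with the same label: `val_square` and `sel_finite` give `s i ≠ 0` with
`(x - a i)(x' - a i) = s i ^ 2`, then `EAP.sub_double` (in `EAP/D4.lean`, stated for every field).
(`sel_finite` is used for one `D`, so the same `lab` serves for the three indices.)
-/

set_option autoImplicit false

namespace ECU

open SC2 NumberField

theorem cv_int {K : Type} [Field K] [NumberField K] {a : Fin 3 → 𝓞 K}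
    (ha : Function.Injective a) : Cv (fun i => (a i : K)) where
  two := two_ne_zero
  inj := fun _ _ h => ha (RingOfIntegers.coe_injective h)

theorem e3_fin {G : Type} [AddCommGroup G] (H : AddSubgroup G) {T : Type} [Finite T] (cl : G → T)
    (h : ∀ P P' : G, cl P = cl P' → P - P' ∈ H) : H.FiniteIndex := by
  have : Finite (G ⧸ H) := by
    refine Finite.of_injective (fun q : G ⧸ H => cl (Quotient.out q)) ?_
    intro q q' hq
    have h1 := h _ _ hq.symm
    rw [← Quotient.out_eq q, ← Quotient.out_eq q']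
    refine QuotientAddGroup.eq.mpr ?_
    rw [neg_add_eq_sub]
    exact h1
  exact AddSubgroup.finiteIndex_of_finite_quotient

/-- the point `P` has label `t` -/
def e3_R {K : Type} [Field K] [NumberField K] (a : Fin 3 → 𝓞 K) (hc : Cv (fun i => (a i : K)))
    {N : ℕ} (lab : K → Fin N) (P : Pt (fun i => (a i : K))) :
    Option (Fin 3) ⊕ (Fin 3 → Fin N) → Prop
  | Sum.inl none => P = 0
  | Sum.inl (some i) => ∃ h : OnC (fun i => (a i : K)) (a i) 0, P = aff hc (a i) 0 h
  | Sum.inr δ => ∃ (x y : K) (h : OnC (fun i => (a i : K)) x y), P = aff hc x y h ∧ y ≠ 0 ∧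
      ∀ i, lab (x - a i) = δ i

theorem e3_lab {K : Type} [Field K] [NumberField K] {a : Fin 3 → 𝓞 K}
    (hc : Cv (fun i => (a i : K))) {N : ℕ} (lab : K → Fin N)
    (P : Pt (fun i => (a i : K))) : ∃ t, e3_R a hc lab P t := by
  rcases pt_cases hc P with h0 | ⟨x, y, h, rfl⟩
  · exact ⟨Sum.inl none, h0⟩
  · by_cases hy : y = 0
    · subst hy
      have h2 : aff hc x 0 h + aff hc x 0 h = 0 := (aff_two_zero hc x 0 h).mpr rfl
      rcases two_torsion hc _ h2 with h3 | ⟨i, h', h3⟩
      · exact absurd h3 (aff_ne_zero hc x 0 h)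
      · exact ⟨Sum.inl (some i), h', h3⟩
    · exact ⟨Sum.inr (fun i => lab (x - a i)), x, y, h, rfl, hy, fun _ => rfl⟩

theorem e3_same {K : Type} [Field K] [NumberField K] {a : Fin 3 → 𝓞 K}
    (hc : Cv (fun i => (a i : K))) {N : ℕ} (lab : K → Fin N)
    (hlab : ∀ x y : K, x ≠ 0 → y ≠ 0 →
      (∀ v : IsDedekindDomain.HeightOneSpectrum (𝓞 K),
        (a 0 - a 1) * (a 1 - a 2) * (a 2 - a 0) ∉ v.asIdeal → IsSquare (v.valuation K x)) →
      (∀ v : IsDedekindDomain.HeightOneSpectrum (𝓞 K),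
        (a 0 - a 1) * (a 1 - a 2) * (a 2 - a 0) ∉ v.asIdeal → IsSquare (v.valuation K y)) →
      lab x = lab y → ∃ s : K, s ≠ 0 ∧ x * y = s ^ 2)
    (P P' : Pt (fun i => (a i : K))) (t : Option (Fin 3) ⊕ (Fin 3 → Fin N))
    (h : e3_R a hc lab P t) (h' : e3_R a hc lab P' t) :
    ∃ R : Pt (fun i => (a i : K)), P - P' = R + R := by
  match t, h, h' with
  | Sum.inl none, h, h' =>
    have h1 : P = 0 := h
    have h2 : P' = 0 := h'
    exact ⟨0, by rw [h1, h2, sub_zero, add_zero]⟩
  | Sum.inl (some i), h, h' =>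
    obtain ⟨g, hg⟩ := h
    obtain ⟨g', hg'⟩ := h'
    exact ⟨0, by rw [hg, hg', sub_self, add_zero]⟩
  | Sum.inr δ, h, h' =>
    obtain ⟨x, y, g, hg, hy, hz⟩ := h
    obtain ⟨x', y', g', hg', hy', hz'⟩ := h'
    have key : ∀ x y : K, y ≠ 0 → OnC (fun i => (a i : K)) x y → ∀ i, x - (a i : K) ≠ 0 := by
      intro x y hy g i h0
      have g1 : y ^ 2 = (x - a 0) * (x - a 1) * (x - a 2) := g
      have h2 : (x - (a 0 : K)) * (x - a 1) * (x - a 2) = 0 := by
        fin_cases i
        · simp only [Fin.zero_eta] at h0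
          rw [h0, zero_mul, zero_mul]
        · simp only [Fin.mk_one] at h0
          rw [h0, mul_zero, zero_mul]
        · simp only [Fin.reduceFinMk] at h0
          rw [h0, mul_zero]
      rw [h2] at g1
      exact hy (pow_eq_zero_iff (two_ne_zero)|>.1 g1)
    have hs : ∀ i, ∃ s : K, s ≠ 0 ∧ (x - (a i : K)) * (x' - (a i : K)) = s ^ 2 := fun i =>
      hlab _ _ (key x y hy g i) (key x' y' hy' g' i)
        (fun v hv => val_square a x y hy g v hv i) (fun v hv => val_square a x' y' hy' g' v hv i)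
        (by rw [hz i, hz' i])
    choose s hs0 hs1 using hs
    rw [hg, hg']
    exact EAP.sub_double hc g g' s hs0 hs1

theorem fg_pt {K : Type} [Field K] [NumberField K] {a : Fin 3 → 𝓞 K}
    (ha : Function.Injective a) : AddGroup.FG (Pt (fun i => (a i : K))) := by
  have hc := cv_int ha
  obtain ⟨C, hC⟩ := hgt_par hc
  have hN : Northcott (hgt (K := K) (e := fun i => (a i : K))) := hgt_northcott hc
  refine AddCommGroup.fg_of_descent' (h := hgt) (C := C) ?_ hgt_nonneg hC
  have h01 : a 0 - a 1 ≠ 0 := sub_ne_zero.mpr (fun e => absurd (ha e) (by decide))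
  have h12 : a 1 - a 2 ≠ 0 := sub_ne_zero.mpr (fun e => absurd (ha e) (by decide))
  have h20 : a 2 - a 0 ≠ 0 := sub_ne_zero.mpr (fun e => absurd (ha e) (by decide))
  obtain ⟨N, lab, hlab⟩ := sel_finite ((a 0 - a 1) * (a 1 - a 2) * (a 2 - a 0))
    (mul_ne_zero (mul_ne_zero h01 h12) h20)
  choose cl hcl using e3_lab hc lab
  refine e3_fin _ cl (fun P P' hPP => ?_)
  obtain ⟨R, hR⟩ := e3_same hc lab hlab P P' (cl P) (hcl P) (by rw [hPP]; exact hcl P')
  rw [hR]
  exact ⟨R, by rw [nsmulAddMonoidHom_apply, two_nsmul]⟩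

end ECU
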