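import Mathlib

/-!
[ECU-E4] the splitting field of `x³ + c`.

`K = ((X ^ 3 + C c : ℚ[X])).SplittingField` (a number field: characteristic `0`, finite dimensional over
`ℚ`; the instance may have to be built by hand). The polynomial `X ^ 3 + c` splits over `K` with roots
`e 0, e 1, e 2`; they are integral over `ℤ` (root of the monic integer polynomial `X ^ 3 + c`), and
distinct because `X ^ 3 + c` is separable (`c ≠ 0`; two equal roots would satisfy `3 e² = 0`). Comparing
coefficients in `X ^ 3 + c = (X - e 0)(X - e 1)(X - e 2)` gives the three symmetric functions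
(`Cubic` has such lemmas; or by hand: `Multiset` of roots of card `3`).
-/

set_option autoImplicit false

namespace ECU

open NumberField

theorem e4_fin {K : Type} [Field K] [CharZero K] (A : Algebra ℚ K)
    (h : @Module.Finite ℚ K _ _ A.toModule) :
    @FiniteDimensional ℚ K _ _ (DivisionRing.toRatAlgebra : Algebra ℚ K).toModule := by
  have e : A = DivisionRing.toRatAlgebra := Subsingleton.elim _ _
  subst e
  exact h

theorem e4_nf (P : Polynomial ℚ) : NumberField P.SplittingField :=
  { to_charZero := inferInstance
    to_finiteDimensional := e4_fin _ (@Polynomial.IsSplittingField.finiteDimensional _ _ _ _ _ P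
      (Polynomial.IsSplittingField.splittingField P)) }

theorem e4_roots {K : Type} [Field K] [CharZero K] (c : ℤ)
    (hs : (Polynomial.X ^ 3 + Polynomial.C (c : K)).Splits) :
    ∃ x y z : K, x + y + z = 0 ∧ x * y + y * z + z * x = 0 ∧ x * y * z = -(c : K) := by
  have hdeg : (Polynomial.X ^ 3 + Polynomial.C (c : K)).natDegree = 3 := by
    rw [Polynomial.natDegree_X_pow_add_C]
  have hmon : (Polynomial.X ^ 3 + Polynomial.C (c : K)).Monic :=
    Polynomial.monic_X_pow_add_C (c : K) three_ne_zero
  have hr := hs.eq_prod_roots_of_monic hmon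
  have hcard := hs.natDegree_eq_card_roots
  rw [hdeg] at hcard
  obtain ⟨x, y, z, hxyz⟩ := Multiset.card_eq_three.1 hcard.symm
  rw [hxyz] at hr
  simp only [Multiset.insert_eq_cons, Multiset.map_cons, Multiset.map_singleton,
    Multiset.prod_cons, Multiset.prod_singleton] at hr
  have hr2 : (Polynomial.X ^ 3 + Polynomial.C (c : K)) = Polynomial.X ^ 3
      - Polynomial.C (x + y + z) * Polynomial.X ^ 2
      + Polynomial.C (x * y + y * z + z * x) * Polynomial.X - Polynomial.C (x * y * z) := by
    rw [hr]
    simp only [map_add, map_mul]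
    ring
  have c0 := congrArg (fun q => Polynomial.coeff q 0) hr2
  have c1 := congrArg (fun q => Polynomial.coeff q 1) hr2
  have c2 := congrArg (fun q => Polynomial.coeff q 2) hr2
  simp only [Polynomial.coeff_add, Polynomial.coeff_sub, Polynomial.coeff_C_mul,
    Polynomial.coeff_X_pow, Polynomial.coeff_C, Polynomial.coeff_X] at c0 c1 c2
  norm_num at c0 c1 c2
  refine ⟨x, y, z, ?_, ?_, ?_⟩
  · linear_combination c2
  · exact c1.symm
  · exact neg_eq_iff_eq_neg.1 c0.symm

theorem splitting (c : ℤ) (hc : c ≠ 0) :
    ∃ (K : Type) (_ : Field K) (_ : NumberField K) (a : Fin 3 → 𝓞 K), Function.Injective a ∧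
      (a 0 : K) + a 1 + a 2 = 0 ∧ (a 0 : K) * a 1 + (a 1 : K) * a 2 + (a 2 : K) * a 0 = 0 ∧
      (a 0 : K) * a 1 * a 2 = -(c : K) := by
  let P : Polynomial ℚ := Polynomial.X ^ 3 + Polynomial.C (c : ℚ)
  have hn : NumberField P.SplittingField := e4_nf P
  have hs : (Polynomial.X ^ 3 + Polynomial.C (c : P.SplittingField)).Splits := by
    have h := Polynomial.SplittingField.splits P
    have e : ∀ φ : ℚ →+* P.SplittingField, Polynomial.map φ P =
        Polynomial.X ^ 3 + Polynomial.C (c : P.SplittingField) := by
      intro φ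
      show Polynomial.map φ (Polynomial.X ^ 3 + Polynomial.C (c : ℚ)) = _
      rw [Polynomial.map_add, Polynomial.map_pow, Polynomial.map_X, Polynomial.map_C, map_intCast]
    rwa [e] at h
  obtain ⟨x, y, z, h1, h2, h3⟩ := e4_roots c hs
  have hi : ∀ t : P.SplittingField, t ^ 3 = -(c : P.SplittingField) → IsIntegral ℤ t := by
    intro t ht
    refine ⟨Polynomial.X ^ 3 + Polynomial.C c, Polynomial.monic_X_pow_add_C c three_ne_zero, ?_⟩
    rw [Polynomial.eval₂_add, Polynomial.eval₂_pow, Polynomial.eval₂_X, Polynomial.eval₂_C, ht,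
      eq_intCast, neg_add_cancel]
  have hx : x ^ 3 = -(c : P.SplittingField) := by
    linear_combination h3 + x ^ 2 * h1 - x * h2
  have hy : y ^ 3 = -(c : P.SplittingField) := by
    linear_combination h3 + y ^ 2 * h1 - y * h2
  have hz : z ^ 3 = -(c : P.SplittingField) := by
    linear_combination h3 + z ^ 2 * h1 - z * h2
  have hc' : (c : P.SplittingField) ≠ 0 := Int.cast_ne_zero.2 hc
  have key : ∀ s t u : P.SplittingField, s + t + u = 0 → s * t + t * u + u * s = 0 →
      s * t * u = -(c : P.SplittingField) → s ≠ t := by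
    intro s t u k1 k2 k3 hst
    subst hst
    have hu : u = -(2 * s) := by linear_combination k1
    have h4 : 3 * s ^ 2 = 0 := by
      rw [hu] at k2
      linear_combination -k2
    have h5 : s = 0 := by
      have h6 : s ^ 2 = 0 := by
        rcases mul_eq_zero.1 h4 with h | h
        · exact absurd h three_ne_zero
        · exact h
      exact pow_eq_zero_iff two_ne_zero |>.1 h6
    apply hc'
    rw [h5] at k3
    linear_combination k3
  have hxy : x ≠ y := key x y z h1 h2 h3
  have hyz : y ≠ z := key y z x (by linear_combination h1) (by linear_combination h2)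
    (by linear_combination h3)
  have hzx : z ≠ x := key z x y (by linear_combination h1) (by linear_combination h2)
    (by linear_combination h3)
  refine ⟨P.SplittingField, inferInstance, hn, ![⟨x, hi x hx⟩, ⟨y, hi y hy⟩, ⟨z, hi z hz⟩], ?_,
    h1, h2, h3⟩
  intro i j hij
  have hij' := congrArg (fun w : 𝓞 P.SplittingField => (w : P.SplittingField)) hij
  fin_cases i <;> fin_cases j
  · rfl
  · exact absurd hij' hxy
  · exact absurd hij' hzx.symm
  · exact absurd hij' hxy.symm
  · rfl
  · exact absurd hij' hyz
  · exact absurd hij' hzx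
  · exact absurd hij' hyz.symm
  · rfl

end ECU
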