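import Mathlib

/-!
[ECU-E5] the height of a rational number over a number field.

`Height.logHeight₁ (x : K) = [K : ℚ] * Height.logHeight₁ x`. Write `x = a / b`, `a = x.num`, `b = x.den`,
coprime integers. `mulHeight₁ (x : K) = mulHeight ![a, b]` over `K` (`Height.mulHeight₁_div_eq_mulHeight`), and
`NumberField.mulHeight_eq`: it is the product over the infinite places of `max(|a|, |b|) ^ mult`
(`v (n : K) = |n|` for an integer `n` and an infinite place `v`) times `∏ᶠ` over the finite places of
`max (v a) (v b)`, which is `1` by `NumberField.absNorm_mul_finprod_finitePlace_eq_one`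
(`Mathlib/NumberTheory/Height/NumberField.lean`) since the ideal of `𝓞 K` generated by `a` and `b` is the
unit ideal (Bezout in `ℤ`), or directly: each factor is `1`, as `v n ≤ 1` for integers and
`u a + w b = 1`. The sum of the multiplicities is `[K : ℚ]`
(`NumberField.InfinitePlace.sum_mult_eq`, or `NumberField.totalWeight_eq_finrank`). Over `ℚ`:
`Rat.mulHeight₁_eq_max`. Take logarithms.
-/

set_option autoImplicit false

namespace ECU

theorem e5_sup (f : Fin 2 → ℝ) : ⨆ i, f i = max (f 0) (f 1) := by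
  refine le_antisymm (ciSup_le fun i => ?_) (max_le ?_ ?_)
  · fin_cases i
    · exact le_max_left _ _
    · exact le_max_right _ _
  · exact le_ciSup (Set.finite_range f).bddAbove 0
  · exact le_ciSup (Set.finite_range f).bddAbove 1

theorem e5_inf {K : Type} [Field K] [NumberField K] (v : NumberField.InfinitePlace K) (n : ℤ) :
    v (n : K) = |(n : ℝ)| := by
  rw [← NumberField.InfinitePlace.norm_embedding_eq, map_intCast, Complex.norm_intCast]

open NumberField in
theorem e5_fin {K : Type} [Field K] [NumberField K] (a b : ℤ) (h : IsCoprime a b) :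
    ∏ᶠ v : FinitePlace K, ⨆ i, v ((![(a : K), (b : K)] : Fin 2 → K) i) = 1 := by
  have hne : (![(a : 𝓞 K), (b : 𝓞 K)] : Fin 2 → 𝓞 K) ≠ 0 := by
    intro h0
    have h1 := congrFun h0 0
    have h2 := congrFun h0 1
    have h3 : (a : 𝓞 K) = 0 := h1
    have h4 : (b : 𝓞 K) = 0 := h2
    obtain ⟨u, w, huw⟩ := h
    have h5 := congrArg (Int.cast : ℤ → 𝓞 K) huw
    push_cast at h5
    rw [h3, h4, mul_zero, mul_zero, add_zero] at h5
    exact zero_ne_one h5
  have h1 := absNorm_mul_finprod_finitePlace_eq_one hne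
  have h2 : Ideal.span (Set.range (![(a : 𝓞 K), (b : 𝓞 K)] : Fin 2 → 𝓞 K)) = ⊤ := by
    rw [Ideal.eq_top_iff_one]
    obtain ⟨u, w, huw⟩ := h
    have h5 := congrArg (Int.cast : ℤ → 𝓞 K) huw
    push_cast at h5
    rw [← h5]
    refine Ideal.add_mem _ (Ideal.mul_mem_left _ _ (Ideal.subset_span ⟨0, rfl⟩))
      (Ideal.mul_mem_left _ _ (Ideal.subset_span ⟨1, rfl⟩))
  rw [h2, Ideal.absNorm_top, Nat.cast_one, one_mul] at h1
  rw [← h1]
  refine finprod_congr fun v => ?_
  refine iSup_congr fun i => ?_
  fin_cases i <;> simp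

theorem hgt_rat {K : Type} [Field K] [NumberField K] (x : ℚ) :
    Height.logHeight₁ (x : K) = (Module.finrank ℚ K : ℝ) * Height.logHeight₁ x := by
  have hcop : IsCoprime x.num (x.den : ℤ) := Rat.isCoprime_num_den x
  have hden : ((x.den : ℤ) : K) ≠ 0 := by
    have := x.den_nz
    exact_mod_cast this
  have hne : (![(x.num : K), ((x.den : ℤ) : K)] : Fin 2 → K) ≠ 0 := by
    intro h0
    exact hden (congrFun h0 1)
  have h1 : Height.mulHeight₁ (x : K) = (max |(x.num : ℝ)| (x.den : ℝ)) ^ Module.finrank ℚ K := by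
    have h2 : (x : K) = (x.num : K) / ((x.den : ℤ) : K) := by
      rw [Rat.cast_def]
      push_cast
      rfl
    rw [h2, Height.mulHeight₁_div_eq_mulHeight, NumberField.mulHeight_eq hne, e5_fin _ _ hcop,
      mul_one, ← NumberField.InfinitePlace.sum_mult_eq (K := K), ← Finset.prod_pow_eq_pow_sum]
    refine Finset.prod_congr rfl fun v _ => ?_
    rw [e5_sup]
    congr 1
    show max (v (x.num : K)) (v ((x.den : ℤ) : K)) = _
    rw [e5_inf, e5_inf]
    congr 1
    simp
  have h3 : Height.mulHeight₁ x = max |(x.num : ℝ)| (x.den : ℝ) := by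
    rw [Rat.mulHeight₁_eq_max]
    push_cast
    rw [Nat.cast_natAbs, Int.cast_abs]
  rw [Height.logHeight₁_eq_log_mulHeight₁, Height.logHeight₁_eq_log_mulHeight₁, h1, h3,
    Real.log_pow]

end ECU
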