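import Pool.Agent.ECU.E3
import Pool.Agent.ECU.E4
import Pool.Agent.ECU.E5

/-!
[ECU-E6] a finitely generated group with a height containing the rational points of `y² = x³ + c`.

Take `K, a` from `splitting`, `G = Pt (fun i => (a i : K))`, `hc = cv_int`, `h P = hgt P / [K : ℚ]`,
`pt x y hxy = aff hc (x : K) (y : K) _`: the equation `(y : K) ^ 2 = (x : K) ^ 3 + c` equals `OnC`
after expanding with the three symmetric functions. `AddGroup.FG`: `fg_pt`. Nonnegative: `hgt_nonneg`.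
Parallelogram: `hgt_par`, divided by `[K : ℚ] > 0`. Northcott: `hgt_northcott` (scaled). Height of `pt`: `hgt_aff`,
`hgt_rat`. `pt` is injective: `SC2.aff_inj`, `Rat.cast_injective`. Difference: `P - Q = P + (-Q)`,
`SC2.neg_aff`, `SC2.add_aff_of_ne` with `l = ((y + y') / (x - x') : ℚ)` cast to `K` (as `y - (-y') = y + y'`),
`x₃ = l² + Σ e - x - x' = xd x y x' y'` cast to `K` (`Σ e = 0`); then `hgt_aff`, `hgt_rat`.
-/

set_option autoImplicit false

namespace ECU

open SC2 NumberField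

private theorem e6_onC {K : Type} [Field K] {a : Fin 3 → K} {c x y : K}
    (h1 : a 0 + a 1 + a 2 = 0) (h2 : a 0 * a 1 + a 1 * a 2 + a 2 * a 0 = 0)
    (h3 : a 0 * a 1 * a 2 = -c) (h : y ^ 2 = x ^ 3 + c) : OnC a x y := by
  rw [OnC]
  linear_combination h + x ^ 2 * h1 - x * h2 + h3

private theorem e6_par {r a b c d C : ℝ} (hr : 0 < r) (h : |a + b - 2 * (c + d)| ≤ C) :
    |a / r + b / r - 2 * (c / r + d / r)| ≤ C / r := by
  have h1 : a / r + b / r - 2 * (c / r + d / r) = (a + b - 2 * (c + d)) / r := by ring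
  rw [h1, abs_div, abs_of_pos hr]
  exact div_le_div_of_nonneg_right h hr.le

theorem grp (c : ℤ) (hc : c ≠ 0) :
    ∃ (G : Type) (_ : AddCommGroup G) (h : G → ℝ)
      (pt : (x y : ℚ) → y ^ 2 = x ^ 3 + (c : ℚ) → G),
      AddGroup.FG G ∧ (∀ P, 0 ≤ h P) ∧
      (∃ C : ℝ, ∀ P Q : G, |h (P + Q) + h (P - Q) - 2 * (h P + h Q)| ≤ C) ∧
      Northcott h ∧
      (∀ x y hxy, h (pt x y hxy) = Height.logHeight₁ x) ∧
      (∀ x y hxy x' y' hxy', pt x y hxy = pt x' y' hxy' → x = x' ∧ y = y') ∧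
      (∀ x y hxy x' y' hxy', x ≠ x' →
        h (pt x y hxy - pt x' y' hxy') = Height.logHeight₁ (xd x y x' y')) := by
  obtain ⟨K, iK, iN, a, ha, hs1, hs2, hs3⟩ := splitting c hc
  have hcv : Cv (fun i => (a i : K)) := cv_int ha
  have hr : (0 : ℝ) < (Module.finrank ℚ K : ℝ) := by
    exact_mod_cast Module.finrank_pos (R := ℚ) (M := K)
  have hon : ∀ x y : ℚ, y ^ 2 = x ^ 3 + (c : ℚ) →
      OnC (fun i => (a i : K)) (x : K) (y : K) := by
    intro x y h
    refine e6_onC (c := (c : K)) hs1 hs2 hs3 ?_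
    exact_mod_cast congrArg (fun t : ℚ => (t : K)) h
  refine ⟨Pt (fun i => (a i : K)), inferInstance, fun P => hgt P / (Module.finrank ℚ K : ℝ),
    fun x y h => aff hcv (x : K) (y : K) (hon x y h), fg_pt ha, fun P => div_nonneg (hgt_nonneg P)
      hr.le, ?_, ?_, ?_, ?_, ?_⟩
  · obtain ⟨C, hC⟩ := hgt_par hcv
    exact ⟨C / (Module.finrank ℚ K : ℝ), fun P Q => e6_par hr (hC P Q)⟩
  · have hN := hgt_northcott hcv
    refine ⟨fun b => ?_⟩
    refine (hN.finite_le (b * (Module.finrank ℚ K : ℝ))).subset fun P hP => ?_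
    exact (div_le_iff₀ hr).1 hP
  · intro x y h
    show hgt (aff hcv (x : K) (y : K) (hon x y h)) / (Module.finrank ℚ K : ℝ) = _
    rw [hgt_aff, hgt_rat]
    field_simp
  · intro x y h x' y' h' he
    obtain ⟨h1, h2⟩ := (aff_inj hcv _ _ _ _ _ _).1 he
    exact ⟨Rat.cast_injective h1, Rat.cast_injective h2⟩
  · intro x y h x' y' h' hne
    have hne' : (x : K) ≠ (x' : K) := fun e => hne (Rat.cast_injective e)
    have hsub : (x : K) - (x' : K) ≠ 0 := sub_ne_zero.2 hne'
    have hsq : (x : ℚ) - (x' : ℚ) ≠ 0 := sub_ne_zero.2 hne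
    have h5 : aff hcv (x : K) (y : K) (hon x y h) - aff hcv (x' : K) (y' : K) (hon x' y' h') =
        aff hcv (x : K) (y : K) (hon x y h) + aff hcv (x' : K) (-(y' : K))
          (onC_neg (hon x' y' h')) := by
      rw [sub_eq_add_neg, neg_aff]
    obtain ⟨h3, h4⟩ := add_aff_of_ne hcv (x : K) (y : K) (hon x y h) (x' : K) (-(y' : K))
      (onC_neg (hon x' y' h')) hne' (((y + y') / (x - x') : ℚ) : K) ((xd x y x' y' : ℚ) : K)
      ((-(y + (y + y') / (x - x') * (xd x y x' y' - x)) : ℚ) : K) (by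
        push_cast
        field_simp
        ring) (by
        rw [xd]
        push_cast
        linear_combination (-1 : K) * hs1) (by
        push_cast
        ring)
    show hgt (aff hcv (x : K) (y : K) (hon x y h) -
      aff hcv (x' : K) (y' : K) (hon x' y' h')) / (Module.finrank ℚ K : ℝ) = _
    rw [h5, h4, hgt_aff, hgt_rat]
    field_simp

end ECU
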