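import Pool.Agent.EAP.Q1
import Pool.Agent.EAP.Q4

/-!
[ECU-E7] counting points of bounded height in a finitely generated group.

`EAP.tate` gives `q` with the exact parallelogram law, `q ≥ 0`, `|q - h| ≤ C`; `EAP.embed` gives `r, v` with
`q (x - y) = ∑_{j < r} (v x j - v y j)²`. For `x ∈ s`: `q x = ∑_j (v x j - v 0 j)² ≤ R + C`, so
`|v x j - v 0 j| ≤ √(R + C)`. Put `x` in the cell `fun j => ⌊v x j - v 0 j⌋`, an integer vector with entries
in `[-√(R+C) - 1, √(R+C)]`: at most `(2 √(R+C) + 3) ^ r ≤ (C₁ R) ^ r` cells. Two points `x, y` of the same cell have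
`q (x - y) ≤ r`, so `h (x - y) ≤ r + C`: for a fixed `y` the number of such `x` is at most
`M = #{z | h z ≤ r + C}`, finite by `Northcott` (`x ↦ x - y` is injective). So `#s ≤ M (C₁ R) ^ r`.
(`Pool/Agent/EAP/Q5.lean` is similar.)
-/

set_option autoImplicit false

namespace ECU

theorem e7_floor {a κ : ℝ} {K : ℕ} (h : |a| ≤ κ) (hK : κ ≤ K) :
    ⌊a⌋ ∈ Finset.Icc (-(K : ℤ)) (K : ℤ) := by
  obtain ⟨h1, h2⟩ := abs_le.1 h
  rw [Finset.mem_Icc]
  constructor
  · rw [Int.le_floor]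
    push_cast
    linarith
  · have h3 : (⌊a⌋ : ℝ) ≤ (K : ℤ) := (Int.floor_le a).trans (by push_cast; linarith)
    exact_mod_cast h3

theorem count {G : Type} [AddCommGroup G] (hfg : AddGroup.FG G) (h : G → ℝ) (h0 : ∀ x, 0 ≤ h x)
    (C : ℝ) (hC : ∀ x y, |h (x + y) + h (x - y) - 2 * (h x + h y)| ≤ C) [Northcott h] :
    ∃ (A : ℝ) (r : ℕ), 0 ≤ A ∧ ∀ R : ℝ, 1 ≤ R → ∀ s : Finset G, (∀ x ∈ s, h x ≤ R) →
      (s.card : ℝ) ≤ A * R ^ r := by
  obtain ⟨q, hq, hq0, hqh⟩ := EAP.tate h h0 C hC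
  obtain ⟨r, v, hv⟩ := EAP.embed hfg q hq hq0
  have hC0 : 0 ≤ C := (abs_nonneg _).trans (hC 0 0)
  have hfin : {z : G | h z ≤ r + C}.Finite := Northcott.finite_le (r + C)
  set M : ℕ := hfin.toFinset.card with hM
  refine ⟨M * (2 * (C + 2) + 1) ^ r, r, by positivity, ?_⟩
  intro R hR s hs
  have hR0 : 0 ≤ R := by linarith
  set κ : ℝ := R + C with hκ
  set K : ℕ := ⌈κ⌉₊ with hK
  have hκK : κ ≤ K := Nat.le_ceil κ
  have hκ1 : 1 ≤ κ := by linarith
  have hKκ : (K : ℝ) ≤ κ + 1 := (Nat.ceil_lt_add_one (by linarith)).le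
  have hcoord : ∀ x ∈ s, ∀ j, |v x j - v 0 j| ≤ κ := by
    intro x hx j
    have h1 : q x = ∑ j, (v x j - v 0 j) ^ 2 := by
      have h2 := hv x 0
      rwa [sub_zero] at h2
    have h2 : (v x j - v 0 j) ^ 2 ≤ ∑ j, (v x j - v 0 j) ^ 2 :=
      Finset.single_le_sum (f := fun j => (v x j - v 0 j) ^ 2) (fun i _ => sq_nonneg _)
        (Finset.mem_univ j)
    have h3 := (abs_le.1 (hqh x)).2
    have h4 := hs x hx
    rw [← h1] at h2
    have h5 : (v x j - v 0 j) ^ 2 ≤ κ ^ 2 := by nlinarith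
    exact abs_le_of_sq_le_sq h5 (by linarith)
  have hmaps : ∀ x ∈ s, (fun j => ⌊v x j - v 0 j⌋ : Fin r → ℤ) ∈
      Fintype.piFinset fun _ : Fin r => Finset.Icc (-(K : ℤ)) (K : ℤ) := by
    intro x hx
    rw [Fintype.mem_piFinset]
    exact fun j => e7_floor (hcoord x hx j) hκK
  have hcard : (Fintype.piFinset fun _ : Fin r => Finset.Icc (-(K : ℤ)) (K : ℤ)).card =
      (2 * K + 1) ^ r := by
    rw [Fintype.card_piFinset_const, Int.card_Icc]
    congr 1
    omega
  have hfib : ∀ c ∈ (Fintype.piFinset fun _ : Fin r => Finset.Icc (-(K : ℤ)) (K : ℤ)),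
      (s.filter (fun x => (fun j => ⌊v x j - v 0 j⌋ : Fin r → ℤ) = c)).card ≤ M := by
    intro c _
    rcases (s.filter (fun x => (fun j => ⌊v x j - v 0 j⌋ : Fin r → ℤ) = c)).eq_empty_or_nonempty
      with h1 | ⟨y, hy⟩
    · rw [h1, Finset.card_empty]
      exact Nat.zero_le _
    · have hy' := (Finset.mem_filter.1 hy).2
      refine Finset.card_le_card_of_injOn (fun x => x - y) (fun x hx => ?_)
        (fun x _ x' _ hxx => sub_left_injective hxx)
      have hx' := (Finset.mem_filter.1 (Finset.mem_coe.1 hx)).2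
      rw [Finset.mem_coe, Set.Finite.mem_toFinset]
      show h (x - y) ≤ r + C
      have h2 : q (x - y) ≤ r := by
        rw [hv]
        calc ∑ j, (v x j - v y j) ^ 2 ≤ ∑ _j : Fin r, (1 : ℝ) := by
              refine Finset.sum_le_sum fun j _ => ?_
              have h2 : ⌊v x j - v 0 j⌋ = ⌊v y j - v 0 j⌋ :=
                (congrFun hx' j).trans (congrFun hy' j).symm
              have h3 := Int.abs_sub_lt_one_of_floor_eq_floor h2
              have h4 : v x j - v 0 j - (v y j - v 0 j) = v x j - v y j := by ring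
              rw [h4] at h3
              rw [← sq_abs]
              nlinarith [abs_nonneg (v x j - v y j)]
          _ = r := by
              rw [Finset.sum_const, Finset.card_univ, Fintype.card_fin, nsmul_eq_mul, mul_one]
      have h3 := (abs_le.1 (hqh (x - y))).1
      linarith
  have h1 := Finset.card_le_mul_card_image_of_maps_to hmaps M hfib
  rw [hcard] at h1
  have h2 : (s.card : ℝ) ≤ (M : ℝ) * (2 * K + 1) ^ r := by exact_mod_cast h1
  refine h2.trans ?_
  rw [mul_assoc, ← mul_pow]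
  refine mul_le_mul_of_nonneg_left ?_ (Nat.cast_nonneg _)
  refine pow_le_pow_left₀ (by positivity) ?_ r
  nlinarith

end ECU
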