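import Pool.Agent.MP_0f71ae_nt.R3Q.Final

/-!
[ECU-R4] `rothNumberNat N ≤ C N / (1 + log N)³`.

`R3.q_roth_bound` (check the namespace in `Pool/Agent/MP_0f71ae_nt/R3Q/Final.lean`) gives `c > 0`, `N₀` with
`rothNumberNat N ≤ N exp (-c L^(1/4) / (log L)^(11/4))`, `L = log N`, for `N ≥ N₀`. Since
`L^(1/4) / (log L)^(11/4)` grows faster than `log (1 + L)`, for `L ≥ L₀` the exponential is
`≤ (1 + L)^(-3)`: `c L^(1/4) ≥ 3 log (1 + L) (log L)^(11/4)` for `L ≥ L₀`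
(`isLittleO_log_rpow_rpow_atTop`, or `log (1+L) ≤ 2 log L`). For the finitely many smaller `N` use
`rothNumberNat N ≤ N` and `C ≥ (1 + log N)³`.
-/

set_option autoImplicit false

namespace ECU

theorem r4_exp {c : ℝ} (hc : 0 < c) : ∃ L₀ : ℝ, 0 ≤ L₀ ∧ ∀ L : ℝ, L₀ ≤ L →
    Real.exp (-c * L ^ (1 / 4 : ℝ) / Real.log L ^ (11 / 4 : ℝ)) ≤ 1 / (1 + L) ^ 3 := by
  have h := (isLittleO_log_rpow_rpow_atTop (15 / 4 : ℝ) (show (0 : ℝ) < 1 / 4 by norm_num)).bound
    (show (0 : ℝ) < c / 6 by positivity)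
  obtain ⟨L₁, hL₁⟩ := Filter.eventually_atTop.mp h
  refine ⟨max L₁ 3, le_trans (by norm_num) (le_max_right _ _), fun L hL => ?_⟩
  have hL3 : 3 ≤ L := le_trans (le_max_right _ _) hL
  have hLpos : 0 < L := by linarith
  have hlog : 1 ≤ Real.log L := by
    have he : Real.exp 1 ≤ L := by
      have := Real.exp_one_lt_d9
      linarith
    calc (1 : ℝ) = Real.log (Real.exp 1) := (Real.log_exp 1).symm
      _ ≤ Real.log L := Real.log_le_log (Real.exp_pos 1) he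
  have hlog0 : 0 < Real.log L := by linarith
  have h1 := hL₁ L (le_trans (le_max_left _ _) hL)
  have hA : 0 ≤ Real.log L ^ (15 / 4 : ℝ) := Real.rpow_nonneg hlog0.le _
  have hB : 0 ≤ L ^ (1 / 4 : ℝ) := Real.rpow_nonneg hLpos.le _
  rw [Real.norm_of_nonneg hA, Real.norm_of_nonneg hB] at h1
  have h2 : Real.log L ^ (15 / 4 : ℝ) = Real.log L * Real.log L ^ (11 / 4 : ℝ) := by
    rw [show (15 / 4 : ℝ) = 1 + 11 / 4 by norm_num, Real.rpow_add hlog0, Real.rpow_one]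
  have hC : 0 < Real.log L ^ (11 / 4 : ℝ) := Real.rpow_pos_of_pos hlog0 _
  have h3 : 6 * Real.log L ≤ c * L ^ (1 / 4 : ℝ) / Real.log L ^ (11 / 4 : ℝ) := by
    rw [le_div_iff₀ hC]
    rw [h2] at h1
    nlinarith
  have h4 : Real.log (1 + L) ≤ 2 * Real.log L := by
    rw [← Real.log_rpow hLpos 2 |>.trans (by norm_num : (2 : ℝ) * Real.log L = 2 * Real.log L)]
    apply Real.log_le_log (by linarith)
    rw [show (2 : ℝ) = ((2 : ℕ) : ℝ) by norm_num, Real.rpow_natCast]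
    nlinarith
  have h5 : -c * L ^ (1 / 4 : ℝ) / Real.log L ^ (11 / 4 : ℝ) ≤ -(3 * Real.log (1 + L)) := by
    have : -c * L ^ (1 / 4 : ℝ) / Real.log L ^ (11 / 4 : ℝ) =
        -(c * L ^ (1 / 4 : ℝ) / Real.log L ^ (11 / 4 : ℝ)) := by ring
    rw [this]
    linarith
  have hL1 : 0 < 1 + L := by linarith
  calc Real.exp (-c * L ^ (1 / 4 : ℝ) / Real.log L ^ (11 / 4 : ℝ))
      ≤ Real.exp (-(3 * Real.log (1 + L))) := Real.exp_le_exp.mpr h5
    _ = 1 / (1 + L) ^ 3 := by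
        rw [Real.exp_neg, show 3 * Real.log (1 + L) = Real.log ((1 + L) ^ 3) by
          rw [Real.log_pow]; norm_num, Real.exp_log (by positivity), one_div]

theorem roth_log : ∃ C : ℝ, 0 ≤ C ∧ ∀ N : ℕ, 1 ≤ N →
    (rothNumberNat N : ℝ) ≤ C * N / (1 + Real.log N) ^ 3 := by
  obtain ⟨c, hc, N₀, h⟩ := R3.q_roth_bound
  obtain ⟨L₀, hL₀, hexp⟩ := r4_exp hc
  set N₁ : ℕ := max (max N₀ 1) ⌈Real.exp L₀⌉₊ with hN₁
  have hN₁1 : 1 ≤ N₁ := le_trans (le_max_right _ _) (le_max_left _ _)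
  have hN₁0 : N₀ ≤ N₁ := le_trans (le_max_left _ _) (le_max_left _ _)
  have hN₁e : Real.exp L₀ ≤ N₁ := le_trans (Nat.le_ceil _) (by exact_mod_cast le_max_right _ _)
  have hlogN₁ : 0 ≤ Real.log N₁ := Real.log_nonneg (by exact_mod_cast hN₁1)
  refine ⟨1 + (1 + Real.log N₁) ^ 3, by positivity, fun N hN => ?_⟩
  have hN1 : (1 : ℝ) ≤ N := by exact_mod_cast hN
  have hlogN : 0 ≤ Real.log N := Real.log_nonneg hN1
  have hpos : (0 : ℝ) < (1 + Real.log N) ^ 3 := by positivity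
  rw [le_div_iff₀ hpos]
  by_cases hNN : N₁ ≤ N
  · have hNN' : (N₁ : ℝ) ≤ N := by exact_mod_cast hNN
    have hL : L₀ ≤ Real.log N := by
      rw [Real.le_log_iff_exp_le (by linarith)]
      exact hN₁e.trans hNN'
    have h1 := h N (hN₁0.trans hNN)
    have h2 := hexp _ hL
    have h3 : (rothNumberNat N : ℝ) ≤ N * (1 / (1 + Real.log N) ^ 3) :=
      h1.trans (mul_le_mul_of_nonneg_left h2 (by linarith))
    calc (rothNumberNat N : ℝ) * (1 + Real.log N) ^ 3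
        ≤ N * (1 / (1 + Real.log N) ^ 3) * (1 + Real.log N) ^ 3 :=
          mul_le_mul_of_nonneg_right h3 hpos.le
      _ = 1 * N := by field_simp
      _ ≤ (1 + (1 + Real.log N₁) ^ 3) * N := by
          apply mul_le_mul_of_nonneg_right _ (by linarith)
          have : 0 ≤ (1 + Real.log N₁) ^ 3 := by positivity
          linarith
  · have hNN' : (N : ℝ) ≤ N₁ := by exact_mod_cast (not_le.mp hNN).le
    have hlog : Real.log N ≤ Real.log N₁ := Real.log_le_log (by linarith) hNN'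
    have h1 : (rothNumberNat N : ℝ) ≤ N := by exact_mod_cast rothNumberNat_le N
    have h2 : (1 + Real.log N) ^ 3 ≤ (1 + Real.log N₁) ^ 3 :=
      pow_le_pow_left₀ (by linarith) (by linarith) 3
    calc (rothNumberNat N : ℝ) * (1 + Real.log N) ^ 3
        ≤ N * (1 + Real.log N₁) ^ 3 := mul_le_mul h1 h2 hpos.le (by linarith)
      _ ≤ (1 + (1 + Real.log N₁) ^ 3) * N := by nlinarith

end ECU
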