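import Mathlib

/-!
[ECU-R5] a convergent sum.

Telescoping with `g m = 1 / (1 + log (k / m))`: for `2 ≤ c ≤ k` the term `c` is at most
`2 k (g c - g (c - 1))`.
-/

set_option autoImplicit false

namespace ECU

open Finset

theorem r5_step {L δ r : ℝ} (hL : 0 ≤ L) (hδ0 : r ≤ δ) (hδ1 : δ ≤ 1) (hr : 0 < r) :
    r * L / (1 + L) ^ 3 ≤ 2 * (1 / (1 + L) - 1 / (1 + (L + δ))) := by
  have hδ : 0 < δ := hr.trans_le hδ0
  have h1 : 0 < 1 + L := by linarith
  have h2 : 0 < 1 + (L + δ) := by linarith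
  have e : 1 / (1 + L) - 1 / (1 + (L + δ)) = δ / ((1 + L) * (1 + (L + δ))) := by
    field_simp
    ring
  have h3 : δ / (2 * (1 + L) ^ 2) ≤ δ / ((1 + L) * (1 + (L + δ))) := by
    apply div_le_div_of_nonneg_left hδ.le (by positivity)
    nlinarith
  have h4 : r * L / (1 + L) ^ 3 ≤ r / (1 + L) ^ 2 := by
    rw [div_le_div_iff₀ (by positivity) (by positivity)]
    have h5 : r * L * (1 + L) ^ 2 ≤ r * (1 + L) * (1 + L) ^ 2 := by
      apply mul_le_mul_of_nonneg_right _ (by positivity)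
      nlinarith
    calc r * L * (1 + L) ^ 2 ≤ r * (1 + L) * (1 + L) ^ 2 := h5
      _ = r * (1 + L) ^ 3 := by ring
  have h5 : r / (1 + L) ^ 2 ≤ δ / (1 + L) ^ 2 := by
    apply div_le_div_of_nonneg_right hδ0 (by positivity)
  have h6 : δ / (1 + L) ^ 2 = 2 * (δ / (2 * (1 + L) ^ 2)) := by
    field_simp
  rw [e]
  linarith

theorem r5_sum {k : ℕ} (hk : 1 ≤ k) (m : ℕ) (hm : 1 ≤ m) (hmk : m ≤ k) :
    ∑ c ∈ Icc 1 m, ((k : ℝ) / c) * Real.log ((k : ℝ) / c) / (1 + Real.log ((k : ℝ) / c)) ^ 3 ≤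
      k * (1 + 2 * (1 / (1 + Real.log ((k : ℝ) / m)))) := by
  have hk0 : (0 : ℝ) < k := by exact_mod_cast hk
  have hL0 : ∀ c : ℕ, 1 ≤ c → c ≤ k → 0 ≤ Real.log ((k : ℝ) / c) := by
    intro c hc hck
    apply Real.log_nonneg
    have hc0 : (0 : ℝ) < c := by exact_mod_cast hc
    rw [le_div_iff₀ hc0, one_mul]
    exact_mod_cast hck
  induction m, hm using Nat.le_induction with
  | base =>
    rw [Icc_self, sum_singleton]
    have h0 := hL0 1 le_rfl hk
    generalize hL : Real.log ((k : ℝ) / (1 : ℕ)) = L at *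
    have h1 : 0 < 1 + L := by linarith
    have h2 : L / (1 + L) ^ 3 ≤ 1 := by
      rw [div_le_one (by positivity)]
      nlinarith [mul_nonneg h0 h0, mul_nonneg (mul_nonneg h0 h0) h0]
    have h3 : 0 ≤ 1 / (1 + L) := by positivity
    have e : (k : ℝ) / (1 : ℕ) * L / (1 + L) ^ 3 = k * (L / (1 + L) ^ 3) := by
      rw [Nat.cast_one, div_one, mul_div_assoc]
    rw [e]
    apply mul_le_mul_of_nonneg_left _ hk0.le
    linarith
  | succ m hm ih =>
    have ih' := ih (by omega)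
    rw [sum_Icc_succ_top (by omega)]
    have hm0 : (0 : ℝ) < m := by exact_mod_cast hm
    have hm1 : (0 : ℝ) < ((m + 1 : ℕ) : ℝ) := by positivity
    have h0 := hL0 (m + 1) (by omega) hmk
    have hδ : Real.log ((k : ℝ) / m) = Real.log ((k : ℝ) / ((m + 1 : ℕ) : ℝ)) +
        Real.log (((m + 1 : ℕ) : ℝ) / m) := by
      rw [← Real.log_mul (by positivity) (by positivity)]
      congr 1
      field_simp
    have hδ0 : 1 / ((m + 1 : ℕ) : ℝ) ≤ Real.log (((m + 1 : ℕ) : ℝ) / m) := by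
      have h1 := Real.one_sub_inv_le_log_of_pos (show (0 : ℝ) < ((m + 1 : ℕ) : ℝ) / m by positivity)
      have e : 1 - (((m + 1 : ℕ) : ℝ) / m)⁻¹ = 1 / ((m + 1 : ℕ) : ℝ) := by
        rw [inv_div]
        push_cast
        field_simp
        ring
      rwa [e] at h1
    have hδ1 : Real.log (((m + 1 : ℕ) : ℝ) / m) ≤ 1 := by
      have h1 := Real.log_le_sub_one_of_pos (show (0 : ℝ) < ((m + 1 : ℕ) : ℝ) / m by positivity)
      have e : ((m + 1 : ℕ) : ℝ) / m - 1 = 1 / m := by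
        push_cast
        field_simp
        ring
      rw [e] at h1
      have h2 : (1 : ℝ) / m ≤ 1 := by
        rw [div_le_one hm0]
        exact_mod_cast hm
      linarith
    have hst := r5_step h0 hδ0 hδ1 (by positivity)
    rw [← hδ] at hst
    have e2 : (k : ℝ) / ((m + 1 : ℕ) : ℝ) * Real.log ((k : ℝ) / ((m + 1 : ℕ) : ℝ)) /
        (1 + Real.log ((k : ℝ) / ((m + 1 : ℕ) : ℝ))) ^ 3 =
        k * (1 / ((m + 1 : ℕ) : ℝ) * Real.log ((k : ℝ) / ((m + 1 : ℕ) : ℝ)) /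
        (1 + Real.log ((k : ℝ) / ((m + 1 : ℕ) : ℝ))) ^ 3) := by ring
    rw [e2]
    have h3 := mul_le_mul_of_nonneg_left hst hk0.le
    linarith

theorem sum_conv : ∃ C : ℝ, 0 ≤ C ∧ ∀ k : ℕ, 1 ≤ k →
    ∑ c ∈ Icc 1 k, ((k : ℝ) / c) * Real.log ((k : ℝ) / c) / (1 + Real.log ((k : ℝ) / c)) ^ 3 ≤
      C * k := by
  refine ⟨3, by norm_num, fun k hk => ?_⟩
  refine (r5_sum hk k hk le_rfl).trans (le_of_eq ?_)
  have hk0 : (k : ℝ) ≠ 0 := by positivity
  rw [div_self hk0, Real.log_one]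
  ring

end ECU
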