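import Pool.Agent.ECU.R3
import Pool.Agent.ECU.R4
import Pool.Agent.ECU.R5

/-!
[ECU-R6] the small `a_i`: `∑_{i < k} log⁺ (k / a_i) ≤ C k`.

The terms with `a_i ≥ k` are `0`. Group the others by the value `c = a_i`, `1 ≤ c ≤ k`:
`∑_i log⁺ (k/a_i) = ∑_{c = 1}^{k} S(c) log (k/c)` (`Finset.sum_fiberwise…`/`card_eq_sum…`). `S_roth`, `roth_log` with
`M = k/c + 1` (natural number): `M ≤ 2 (k/c)` and `M ≥ k/c` (real quotient), so
`S(c) ≤ C M / (1 + log M)³ ≤ 2 C (k/c) / (1 + log (k/c))³`. `sum_conv`.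
-/

set_option autoImplicit false

namespace ECU

open Finset

theorem tail : ∃ C : ℝ, 0 ≤ C ∧ ∀ n d k : ℕ, Sol n d k → 1 ≤ k →
    ∑ i ∈ range k, max (Real.log ((k : ℝ) / cub k (n + i * d))) 0 ≤ C * k := by
  obtain ⟨C1, hC1, h1⟩ := roth_log
  obtain ⟨C2, hC2, h2⟩ := sum_conv
  refine ⟨2 * C1 * C2, by positivity, ?_⟩
  intro n d k hS hk
  set a : ℕ → ℕ := fun i => cub k (n + i * d) with ha
  set f : ℕ → ℝ := fun i => max (Real.log ((k : ℝ) / a i)) 0 with hf
  have hapos : ∀ i, 0 < a i := fun i => cub_pos k _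
  have hk0 : (0 : ℝ) < k := by exact_mod_cast hk
  have hsplit : ∑ i ∈ range k, f i = ∑ i ∈ (range k).filter (fun i => a i ≤ k), f i := by
    rw [← Finset.sum_filter_add_sum_filter_not (range k) (fun i => a i ≤ k) f]
    rw [add_eq_left]
    apply Finset.sum_eq_zero
    intro i hi
    rw [mem_filter, not_le] at hi
    rw [hf]
    apply max_eq_right
    apply Real.log_nonpos (by positivity)
    rw [div_le_one (by exact_mod_cast hapos i)]
    exact_mod_cast hi.2.le
  have hmaps : ∀ i ∈ (range k).filter (fun i => a i ≤ k), a i ∈ Icc 1 k := by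
    intro i hi
    rw [mem_filter] at hi
    exact mem_Icc.2 ⟨hapos i, hi.2⟩
  change ∑ i ∈ range k, f i ≤ _
  rw [hsplit, ← Finset.sum_fiberwise_of_maps_to hmaps]
  have hterm : ∀ c ∈ Icc 1 k,
      ∑ i ∈ ((range k).filter (fun i => a i ≤ k)).filter (fun i => a i = c), f i ≤
        2 * C1 * (((k : ℝ) / c) * Real.log ((k : ℝ) / c) / (1 + Real.log ((k : ℝ) / c)) ^ 3) := by
    intro c hc
    rw [mem_Icc] at hc
    have hc0 : (0 : ℝ) < c := by exact_mod_cast hc.1
    have hr1 : 1 ≤ (k : ℝ) / c := by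
      rw [le_div_iff₀ hc0, one_mul]
      exact_mod_cast hc.2
    have hlog : 0 ≤ Real.log ((k : ℝ) / c) := Real.log_nonneg hr1
    have hsum : ∑ i ∈ ((range k).filter (fun i => a i ≤ k)).filter (fun i => a i = c), f i =
        (S n d k c : ℝ) * Real.log ((k : ℝ) / c) := by
      have hfil : ((range k).filter (fun i => a i ≤ k)).filter (fun i => a i = c) =
          (range k).filter (fun i => a i = c) := by
        ext i
        simp only [mem_filter]
        constructor
        · rintro ⟨⟨h3, -⟩, h4⟩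
          exact ⟨h3, h4⟩
        · rintro ⟨h3, h4⟩
          exact ⟨⟨h3, by omega⟩, h4⟩
      rw [hfil, Finset.sum_congr rfl (g := fun _ => Real.log ((k : ℝ) / c)), Finset.sum_const,
        nsmul_eq_mul]
      · rfl
      · intro i hi
        rw [mem_filter] at hi
        rw [hf]
        simp only
        rw [hi.2]
        exact max_eq_left hlog
    rw [hsum]
    have hSM : (S n d k c : ℝ) ≤ C1 * ((k / c + 1 : ℕ) : ℝ) /
        (1 + Real.log ((k / c + 1 : ℕ) : ℝ)) ^ 3 := by
      refine le_trans ?_ (h1 (k / c + 1) (Nat.le_add_left 1 _))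
      exact_mod_cast S_roth hS hc.1
    have hM1 : (k : ℝ) / c ≤ ((k / c + 1 : ℕ) : ℝ) := by
      rw [div_le_iff₀ hc0]
      have h3 : k < (k / c + 1) * c := by
        have h4 := Nat.div_add_mod k c
        have h5 := Nat.mod_lt k hc.1
        nlinarith
      exact_mod_cast h3.le
    have hM2 : ((k / c + 1 : ℕ) : ℝ) ≤ 2 * ((k : ℝ) / c) := by
      have h3 : ((k / c : ℕ) : ℝ) ≤ (k : ℝ) / c := Nat.cast_div_le
      push_cast
      linarith
    have hlogM : Real.log ((k : ℝ) / c) ≤ Real.log ((k / c + 1 : ℕ) : ℝ) :=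
      Real.log_le_log (by positivity) hM1
    have hSr : (S n d k c : ℝ) ≤ 2 * C1 * ((k : ℝ) / c) / (1 + Real.log ((k : ℝ) / c)) ^ 3 := by
      refine hSM.trans ?_
      apply div_le_div₀ (by positivity) _ (by positivity) _
      · nlinarith
      · exact pow_le_pow_left₀ (by positivity) (by linarith) 3
    calc (S n d k c : ℝ) * Real.log ((k : ℝ) / c)
        ≤ 2 * C1 * ((k : ℝ) / c) / (1 + Real.log ((k : ℝ) / c)) ^ 3 * Real.log ((k : ℝ) / c) :=
          mul_le_mul_of_nonneg_right hSr hlog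
      _ = 2 * C1 * (((k : ℝ) / c) * Real.log ((k : ℝ) / c) /
          (1 + Real.log ((k : ℝ) / c)) ^ 3) := by ring
  refine (Finset.sum_le_sum hterm).trans ?_
  rw [← Finset.mul_sum]
  calc 2 * C1 * ∑ c ∈ Icc 1 k, (((k : ℝ) / c) * Real.log ((k : ℝ) / c) /
        (1 + Real.log ((k : ℝ) / c)) ^ 3) ≤ 2 * C1 * (C2 * k) :=
        mul_le_mul_of_nonneg_left (h2 k hk) (by positivity)
    _ = 2 * C1 * C2 * k := by ring

end ECU
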