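import Pool.Agent.ECU.N2
import Pool.Agent.ECU.R6

/-!
[ECU-F1] most `a_i` have size `k`, up to constants.

`energy`: `∑ log a_i ≤ k log k + C1 k`; `tail`: `∑ log⁺ (k/a_i) ≤ C2 k`. As
`log (a_i/k) = log⁺ (a_i/k) - log⁺ (k/a_i)`, `∑ log⁺ (a_i/k) ≤ (C1 + C2) k`. Markov: the number of `i` with
`a_i > B k` is `≤ (C1 + C2) k / log B ≤ k/16` if `log B ≥ 16 (C1 + C2)`, the number of `i` with `T a_i < k` is
`≤ C2 k / log T ≤ k/16` if `log T ≥ 16 C2` (and `B, T ≥ 2`). Total `≤ k/8`.
-/

set_option autoImplicit false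

namespace ECU

open Finset

theorem f1_markov (s : Finset ℕ) (p : ℕ → Prop) [DecidablePred p] (f : ℕ → ℝ)
    (hf : ∀ i ∈ s, 0 ≤ f i) (L : ℝ) (hL : ∀ i ∈ s, p i → L ≤ f i) :
    ((s.filter p).card : ℝ) * L ≤ ∑ i ∈ s, f i := by
  calc ((s.filter p).card : ℝ) * L = ∑ i ∈ s.filter p, L := by
        rw [Finset.sum_const, nsmul_eq_mul]
    _ ≤ ∑ i ∈ s.filter p, f i := by
        refine Finset.sum_le_sum fun i hi => ?_
        rw [Finset.mem_filter] at hi
        exact hL i hi.1 hi.2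
    _ ≤ ∑ i ∈ s, f i :=
        Finset.sum_le_sum_of_subset_of_nonneg (Finset.filter_subset _ _) fun i hi _ => hf i hi

/-- counting with the logarithm of a large constant -/
theorem f1_count {c k : ℕ} {C S L : ℝ} (hC : 0 ≤ C) (hL : 16 * C + 1 ≤ L) (h1 : (c : ℝ) * L ≤ S)
    (h2 : S ≤ C * k) : 16 * c ≤ k := by
  have hc : (0 : ℝ) ≤ c := Nat.cast_nonneg c
  have h3 : (c : ℝ) * (16 * C + 1) ≤ C * k :=
    (mul_le_mul_of_nonneg_left hL hc).trans (h1.trans h2)
  by_contra hcon
  push Not at hcon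
  have h4 : (k : ℝ) < 16 * c := by exact_mod_cast hcon
  have h5 : C * k ≤ C * (16 * c) := mul_le_mul_of_nonneg_left h4.le hC
  have h6 : (c : ℝ) ≤ 0 := by nlinarith
  have hk : (0 : ℝ) ≤ k := Nat.cast_nonneg k
  linarith

theorem good_idx : ∃ B T : ℕ, 1 ≤ B ∧ 1 ≤ T ∧ ∀ n d k : ℕ, Sol n d k → 1 ≤ k →
    8 * ((range k).filter (fun i => ¬ (k ≤ T * cub k (n + i * d) ∧
      cub k (n + i * d) ≤ B * k))).card ≤ k := by
  obtain ⟨C1, hC1, h1⟩ := energy
  obtain ⟨C2, hC2, h2⟩ := tail
  obtain ⟨B, hB⟩ := exists_nat_gt (Real.exp (16 * (C1 + C2) + 1))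
  obtain ⟨T, hT⟩ := exists_nat_gt (Real.exp (16 * C2 + 1))
  have hB0 : (0 : ℝ) < B := (Real.exp_pos _).trans hB
  have hT0 : (0 : ℝ) < T := (Real.exp_pos _).trans hT
  have hBl : 16 * (C1 + C2) + 1 ≤ Real.log B := (Real.le_log_iff_exp_le hB0).2 hB.le
  have hTl : 16 * C2 + 1 ≤ Real.log T := (Real.le_log_iff_exp_le hT0).2 hT.le
  refine ⟨B, T, by exact_mod_cast hB0, by exact_mod_cast hT0, fun n d k hs hk => ?_⟩
  have hk' : (0 : ℝ) < k := by exact_mod_cast hk
  have ha : ∀ i, (0 : ℝ) < cub k (n + i * d) := fun i => by exact_mod_cast cub_pos k (n + i * d)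
  have e1 := h1 n d k hs hk
  have e2 := h2 n d k hs hk
  have e3 : ∑ i ∈ range k, max (Real.log ((cub k (n + i * d) : ℝ) / k)) 0 ≤ (C1 + C2) * k := by
    have e4 : ∀ i ∈ range k, max (Real.log ((cub k (n + i * d) : ℝ) / k)) 0 =
        Real.log (cub k (n + i * d)) - Real.log k +
          max (Real.log ((k : ℝ) / cub k (n + i * d))) 0 := by
      intro i _
      rw [Real.log_div (ha i).ne' hk'.ne', Real.log_div hk'.ne' (ha i).ne']
      rcases le_total (Real.log (cub k (n + i * d))) (Real.log k) with h | h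
      · rw [max_eq_right (by linarith), max_eq_left (by linarith)]
        ring
      · rw [max_eq_left (by linarith), max_eq_right (by linarith)]
        ring
    rw [Finset.sum_congr rfl e4, Finset.sum_add_distrib, Finset.sum_sub_distrib,
      Finset.sum_const, Finset.card_range, nsmul_eq_mul]
    linarith
  have c1 : 16 * ((range k).filter (fun i => B * k < cub k (n + i * d))).card ≤ k := by
    refine f1_count (by linarith : (0 : ℝ) ≤ C1 + C2) hBl (f1_markov _ _
      (fun i => max (Real.log ((cub k (n + i * d) : ℝ) / k)) 0) (fun i _ => le_max_right _ _) _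
      ?_) e3
    intro i _ hi
    refine le_max_of_le_left ?_
    refine Real.log_le_log hB0 ?_
    rw [le_div_iff₀ hk']
    exact_mod_cast hi.le
  have c2 : 16 * ((range k).filter (fun i => T * cub k (n + i * d) < k)).card ≤ k := by
    refine f1_count hC2 hTl (f1_markov _ _
      (fun i => max (Real.log ((k : ℝ) / cub k (n + i * d))) 0) (fun i _ => le_max_right _ _) _
      ?_) e2
    intro i _ hi
    refine le_max_of_le_left ?_
    refine Real.log_le_log hT0 ?_
    rw [le_div_iff₀ (ha i)]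
    exact_mod_cast hi.le
  have hsub : (range k).filter (fun i => ¬ (k ≤ T * cub k (n + i * d) ∧
      cub k (n + i * d) ≤ B * k)) ⊆
      (range k).filter (fun i => B * k < cub k (n + i * d)) ∪
        (range k).filter (fun i => T * cub k (n + i * d) < k) := by
    intro i hi
    rw [Finset.mem_filter] at hi
    rw [Finset.mem_union, Finset.mem_filter, Finset.mem_filter]
    by_cases h : T * cub k (n + i * d) < k
    · exact Or.inr ⟨hi.1, h⟩
    · refine Or.inl ⟨hi.1, ?_⟩
      by_contra h'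
      exact hi.2 ⟨not_lt.1 h, not_lt.1 h'⟩
  have := (Finset.card_le_card hsub).trans (Finset.card_union_le _ _)
  omega

end ECU
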