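import Pool.Agent.ECU.F2a

/-!
[ECU-F2] a positive proportion of rich numbers.

Let `B, T1, T, k0` be from `many` and `G` the set of indices there, `#G ≥ k/2`. Pairs `(i, p)`, `i ∈ G`,
`p ≤ T` prime, `p ∣ a_i`: at least `8 B #G ≥ 4 B k`. Map `(i, p)` to `c = a_i / p`,
`1 ≤ c ≤ B k`. Two different pairs with the same `c` have different `i` (`i = i'` gives `c p = c p'`).
Let `R` be the set of `c ≤ B k` with at least `3` pairs. Each other `c` has at most `2` pairs, and each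
`c` has at most `T (T1 + 1)` pairs (for each `p ≤ T`, at most `k/(c p) + 1 ≤ T1 + 1` indices with `a_i = c p`: `S_le`,
`k ≤ T1 c p`). So `4 B k ≤ 2 B k + T (T1 + 1) #R`, `#R ≥ 2 B k / (T (T1 + 1))`. Each `c ∈ R` is `Rich` with
`M = T1 T + T`: three pairs, ordered by `i`: `i1 < i2 < i3 < k`, `k ≤ 16 i1`, `a_{i_j} = c p_j`,
`0 < p_j ≤ T ≤ M`, `k ≤ T1 a_i = T1 c p ≤ T1 T c ≤ M c`.
-/

set_option autoImplicit false

namespace ECU

open Finset

/-- the number of the pairs `(i, p)`, `a_i = c p` -/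
theorem f2_fiber {n d k T1 T c : ℕ} (h : Sol n d k) (hc : 0 < c) (G : Finset ℕ)
    (hG : ∀ i ∈ G, i < k ∧ k ≤ T1 * cub k (n + i * d)) :
    ((G ×ˢ Nat.primesLE T).filter (fun q => cub k (n + q.1 * d) = c * q.2)).card ≤
      T * (T1 + 1) := by
  classical
  set F := (G ×ˢ Nat.primesLE T).filter (fun q : ℕ × ℕ => cub k (n + q.1 * d) = c * q.2) with hF
  have h1 : F.card = ∑ p ∈ Nat.primesLE T, (F.filter (fun q => q.2 = p)).card :=
    Finset.card_eq_sum_card_fiberwise (fun q hq => by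
      have := Finset.mem_coe.1 hq
      rw [hF, mem_filter, mem_product] at this
      exact this.1.2)
  have h2 : ∀ p ∈ Nat.primesLE T, (F.filter (fun q => q.2 = p)).card ≤ T1 + 1 := by
    intro p hp
    have hp0 : 0 < p := (Nat.prime_of_mem_primesLE hp).pos
    rcases (F.filter (fun q => q.2 = p)).eq_empty_or_nonempty with he | ⟨q, hq⟩
    · rw [he]; simp
    · have hq' := hq
      rw [mem_filter, hF, mem_filter, mem_product] at hq'
      obtain ⟨⟨⟨hqG, -⟩, hqc⟩, hqp⟩ := hq'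
      have hk : k ≤ T1 * (c * p) := by
        have := (hG _ hqG).2
        rw [hqc, hqp] at this
        exact this
      have hcp : 0 < c * p := Nat.mul_pos hc hp0
      have h3 : (F.filter (fun q => q.2 = p)).card ≤ S n d k (c * p) := by
        unfold S
        refine Finset.card_le_card_of_injOn Prod.fst ?_ ?_
        · intro r hr
          have hr' := Finset.mem_coe.1 hr
          rw [mem_filter, hF, mem_filter, mem_product] at hr'
          obtain ⟨⟨⟨hrG, -⟩, hrc⟩, hrp⟩ := hr'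
          rw [Finset.mem_coe, mem_filter, mem_range]
          exact ⟨(hG _ hrG).1, by rw [hrc, hrp]⟩
        · intro r hr s hs hrs
          have hr' := Finset.mem_coe.1 hr
          have hs' := Finset.mem_coe.1 hs
          rw [mem_filter] at hr' hs'
          exact Prod.ext hrs (by rw [hr'.2, hs'.2])
      have h4 := S_le h hcp
      have h5 : k / (c * p) ≤ T1 := Nat.div_le_of_le_mul (by rw [Nat.mul_comm]; exact hk)
      omega
  have h6 : (Nat.primesLE T).card ≤ T := by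
    calc (Nat.primesLE T).card ≤ (Icc 1 T).card := by
          refine card_le_card fun p hp => ?_
          rw [mem_Icc]
          exact ⟨(Nat.prime_of_mem_primesLE hp).one_le, Nat.le_of_mem_primesLE hp⟩
      _ = T := by simp
  calc F.card = ∑ p ∈ Nat.primesLE T, (F.filter (fun q => q.2 = p)).card := h1
    _ ≤ ∑ _p ∈ Nat.primesLE T, (T1 + 1) := sum_le_sum h2
    _ = (Nat.primesLE T).card * (T1 + 1) := by rw [sum_const, smul_eq_mul]
    _ ≤ T * (T1 + 1) := Nat.mul_le_mul_right _ h6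

/-- three elements in order -/
theorem f2_three {s : Finset ℕ} (h : 3 ≤ s.card) :
    ∃ i1 ∈ s, ∃ i2 ∈ s, ∃ i3 ∈ s, i1 < i2 ∧ i2 < i3 := by
  obtain ⟨t, hts, ht⟩ := Finset.exists_subset_card_eq h
  have hm : ∀ j : Fin 3, t.orderEmbOfFin ht j ∈ s := fun j => hts (Finset.orderEmbOfFin_mem t ht j)
  refine ⟨_, hm 0, _, hm 1, _, hm 2, ?_, ?_⟩
  · exact (t.orderEmbOfFin ht).strictMono (by decide)
  · exact (t.orderEmbOfFin ht).strictMono (by decide)

/-- three pairs with the same quotient -/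
theorem f2_rich {n d k B T1 T c : ℕ} (hc : 0 < c) (hcB : c ≤ B * k) (G : Finset ℕ)
    (hG : ∀ i ∈ G, i < k ∧ k ≤ 16 * i ∧ k ≤ T1 * cub k (n + i * d))
    (h : 3 ≤ ((G ×ˢ Nat.primesLE T).filter (fun q => cub k (n + q.1 * d) = c * q.2)).card) :
    Rich n d k B (T1 * T + T) c := by
  classical
  set F := (G ×ˢ Nat.primesLE T).filter (fun q : ℕ × ℕ => cub k (n + q.1 * d) = c * q.2) with hF
  have hcard : 3 ≤ (F.image Prod.fst).card := by
    rw [card_image_of_injOn]
    · exact h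
    · intro r hr s hs hrs
      have hr' := Finset.mem_coe.1 hr
      have hs' := Finset.mem_coe.1 hs
      rw [hF, mem_filter] at hr' hs'
      have hrs' : r.1 = s.1 := hrs
      have h1 : c * r.2 = c * s.2 := by rw [← hr'.2, ← hs'.2, hrs']
      exact Prod.ext hrs (Nat.eq_of_mul_eq_mul_left hc h1)
  have hmem : ∀ i ∈ F.image Prod.fst, i < k ∧ k ≤ 16 * i ∧ k ≤ T1 * cub k (n + i * d) ∧
      ∃ p : ℕ, 0 < p ∧ p ≤ T ∧ cub k (n + i * d) = c * p := by
    intro i hi
    obtain ⟨q, hq, rfl⟩ := mem_image.1 hi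
    rw [hF, mem_filter, mem_product] at hq
    obtain ⟨h1, h2, h3⟩ := hG _ hq.1.1
    exact ⟨h1, h2, h3, q.2, (Nat.prime_of_mem_primesLE hq.1.2).pos,
      Nat.le_of_mem_primesLE hq.1.2, hq.2⟩
  obtain ⟨i1, h1, i2, h2, i3, h3, h12, h23⟩ := f2_three hcard
  obtain ⟨-, b1, c1, p1, d1, e1, f1⟩ := hmem i1 h1
  obtain ⟨-, -, -, p2, d2, e2, f2⟩ := hmem i2 h2
  obtain ⟨a3, -, -, p3, d3, e3, f3⟩ := hmem i3 h3
  refine ⟨hc, hcB, ?_, i1, i2, i3, p1, p2, p3, h12, h23, a3, b1, ⟨d1, by nlinarith [Nat.zero_le (T1 * T)]⟩,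
    ⟨d2, by nlinarith [Nat.zero_le (T1 * T)]⟩, ⟨d3, by nlinarith [Nat.zero_le (T1 * T)]⟩, f1, f2, f3⟩
  rw [f1] at c1
  calc k ≤ T1 * (c * p1) := c1
    _ ≤ T1 * (c * T) := Nat.mul_le_mul_left _ (Nat.mul_le_mul_left _ e1)
    _ = T1 * T * c := by ring
    _ ≤ (T1 * T + T) * c := Nat.mul_le_mul_right _ (Nat.le_add_right _ _)

theorem rich : ∃ (B M k0 : ℕ) (c0 : ℝ), 1 ≤ B ∧ 1 ≤ M ∧ 0 < c0 ∧ ∀ n d k : ℕ, Sol n d k → k0 ≤ k →
    ∃ R : Finset ℕ, c0 * k ≤ (R.card : ℝ) ∧ ∀ c ∈ R, Rich n d k B M c := by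
  classical
  obtain ⟨B, T1, T, k0, hB, hT1, hT, hmany⟩ := many
  have hT0 : (0 : ℝ) < T := by exact_mod_cast hT
  have hB0 : (0 : ℝ) < B := by exact_mod_cast hB
  refine ⟨B, T1 * T + T, k0, 2 * B / (T * (T1 + 1)), hB, by nlinarith [Nat.zero_le (T1 * T)],
    by positivity, fun n d k h hk => ?_⟩
  set G := (range k).filter (fun i => k ≤ 16 * i ∧ k ≤ T1 * cub k (n + i * d) ∧
      cub k (n + i * d) ≤ B * k ∧
      8 * B ≤ ((Nat.primesLE T).filter (fun p => p ∣ cub k (n + i * d))).card) with hG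
  have hkG : k ≤ 2 * G.card := hmany n d k h hk
  have hGm : ∀ i ∈ G, i < k ∧ k ≤ 16 * i ∧ k ≤ T1 * cub k (n + i * d) ∧ cub k (n + i * d) ≤ B * k ∧
      8 * B ≤ ((Nat.primesLE T).filter (fun p => p ∣ cub k (n + i * d))).card := by
    intro i hi
    rw [hG, mem_filter, mem_range] at hi
    exact hi
  set P := (G ×ˢ Nat.primesLE T).filter (fun q : ℕ × ℕ => q.2 ∣ cub k (n + q.1 * d)) with hP
  have hPc : 8 * B * G.card ≤ P.card := by
    have h1 : P.card = ∑ i ∈ G, (P.filter (fun q => q.1 = i)).card :=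
      Finset.card_eq_sum_card_fiberwise (fun q hq => by
        have := Finset.mem_coe.1 hq
        rw [hP, mem_filter, mem_product] at this
        exact this.1.1)
    rw [h1, Nat.mul_comm, ← smul_eq_mul, ← sum_const]
    refine sum_le_sum fun i hi => ?_
    refine (hGm i hi).2.2.2.2.trans ?_
    refine Finset.card_le_card_of_injOn (fun p => (i, p)) ?_ ?_
    · intro p hp
      have hp' := Finset.mem_coe.1 hp
      rw [mem_filter] at hp'
      rw [Finset.mem_coe, mem_filter, hP, mem_filter, mem_product]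
      exact ⟨⟨⟨hi, hp'.1⟩, hp'.2⟩, rfl⟩
    · intro p _ q _ hpq
      exact (Prod.mk.inj hpq).2
  have hfib : ∀ c, 0 < c → P.filter (fun q => cub k (n + q.1 * d) / q.2 = c) =
      (G ×ˢ Nat.primesLE T).filter (fun q => cub k (n + q.1 * d) = c * q.2) := by
    intro c hc
    ext q
    rw [mem_filter, hP, mem_filter, mem_filter]
    constructor
    · rintro ⟨⟨h1, h2⟩, h3⟩
      exact ⟨h1, by rw [← h3, Nat.div_mul_cancel h2]⟩
    · rintro ⟨h1, h2⟩
      have hq0 : 0 < q.2 := (Nat.prime_of_mem_primesLE (mem_product.1 h1).2).pos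
      exact ⟨⟨h1, by rw [h2]; exact Nat.dvd_mul_left _ _⟩, by rw [h2, Nat.mul_div_cancel _ hq0]⟩
  set f : ℕ → ℕ := fun c => ((G ×ˢ Nat.primesLE T).filter
    (fun q : ℕ × ℕ => cub k (n + q.1 * d) = c * q.2)).card with hf
  have hsum : P.card = ∑ c ∈ Icc 1 (B * k), f c := by
    rw [Finset.card_eq_sum_card_fiberwise (f := fun q : ℕ × ℕ => cub k (n + q.1 * d) / q.2)
      (t := Icc 1 (B * k))]
    · refine sum_congr rfl fun c hc => ?_
      rw [mem_Icc] at hc
      exact congrArg Finset.card (hfib c hc.1)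
    · intro q hq
      have hq' := Finset.mem_coe.1 hq
      rw [hP, mem_filter, mem_product] at hq'
      obtain ⟨⟨h1, h2⟩, h3⟩ := hq'
      rw [Finset.mem_coe, mem_Icc]
      have hq0 : 0 < q.2 := (Nat.prime_of_mem_primesLE h2).pos
      refine ⟨?_, (Nat.div_le_self _ _).trans (hGm _ h1).2.2.2.1⟩
      exact Nat.div_pos (Nat.le_of_dvd (cub_pos _ _) h3) hq0
  set R := (Icc 1 (B * k)).filter (fun c => 3 ≤ f c) with hR
  refine ⟨R, ?_, fun c hc => ?_⟩
  · have h1 : ∀ c ∈ Icc 1 (B * k), f c ≤ 2 + if 3 ≤ f c then T * (T1 + 1) else 0 := by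
      intro c hc
      rw [mem_Icc] at hc
      split_ifs with h3
      · have := f2_fiber (T := T) h hc.1 G (fun i hi => ⟨(hGm i hi).1, (hGm i hi).2.2.1⟩)
        exact this.trans (Nat.le_add_left _ _)
      · omega
    have h2 : P.card ≤ 2 * (B * k) + R.card * (T * (T1 + 1)) := by
      rw [hsum]
      refine (sum_le_sum h1).trans ?_
      rw [sum_add_distrib, sum_const, ← sum_filter, sum_const, Nat.card_Icc, smul_eq_mul, smul_eq_mul,
        ← hR, Nat.add_sub_cancel, Nat.mul_comm]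
    have h3 : 4 * B * k ≤ 2 * (B * k) + R.card * (T * (T1 + 1)) := by
      have : 4 * B * k ≤ 8 * B * G.card := by nlinarith
      exact this.trans (hPc.trans h2)
    have h4 : 2 * B * k ≤ R.card * (T * (T1 + 1)) := by nlinarith
    have h5 : (2 * B * k : ℝ) ≤ R.card * (T * (T1 + 1)) := by exact_mod_cast h4
    have h6 : (0 : ℝ) < T * (T1 + 1) := by positivity
    rw [div_mul_eq_mul_div, div_le_iff₀ h6]
    exact h5
  · rw [hR, mem_filter, mem_Icc] at hc
    exact f2_rich hc.1.1 hc.1.2 G (fun i hi => ⟨(hGm i hi).1, (hGm i hi).2.1, (hGm i hi).2.2.1⟩) hc.2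

end ECU
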