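import Mathlib

/-!
[ECU-T1] most integers have many prime factors below `T`.

Choose disjoint finite sets `B_1, …, B_K` of primes with `∏_{p ∈ B_j} (1 - 1/p) ≤ ε / (2 K)`: possible since
`∑ 1/p` diverges (`Nat.Primes.not_summable_one_div`), `1 - t ≤ exp (-t)` (take consecutive blocks of
primes). `T` = the largest prime used. If `a` has fewer than `K` prime divisors `≤ T` then for some `j`
no prime of `B_j` divides `a`, i.e. `a` is coprime to `P_j = ∏ B_j`. The number of `1 ≤ a ≤ N` coprime to
`P` is `≤ φ(P) (N / P + 1)` (`Nat.Ico_filter_coprime_le`), `≤ N ∏ (1 - 1/p) + P ≤ ε N / (2 K) + P`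
(`Nat.totient_eq_mul_prod_factors` or multiplicativity). Sum over `j ≤ K`: `≤ ε N / 2 + ∑ P_j ≤ ε N` for `N ≥ N₀`.
(`K = 0`: the filter is empty. Alternative: Turan's second moment.)
-/

set_option autoImplicit false

namespace ECU

open Finset

theorem t1_prod (T0 : ℕ) (δ : ℝ) (hδ : 0 < δ) : ∃ B : Finset ℕ, (∀ p ∈ B, p.Prime ∧ T0 < p) ∧
    ∏ p ∈ B, (1 - (1 : ℝ) / p) ≤ δ := by
  set f : ℕ → ℝ := Set.indicator {p | Nat.Prime p} (fun n : ℕ => (1 : ℝ) / n) with hf
  have hf0 : ∀ n, 0 ≤ f n := by
    intro n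
    rw [hf]
    apply Set.indicator_nonneg
    intro x _
    positivity
  have ht := (not_summable_iff_tendsto_nat_atTop_of_nonneg hf0).1
    not_summable_one_div_on_primes
  obtain ⟨n, hn⟩ := (ht.eventually_ge_atTop (-Real.log δ + ∑ i ∈ range (T0 + 1), f i)).exists
  refine ⟨(range n).filter (fun p => p.Prime ∧ T0 < p), ?_, ?_⟩
  · intro p hp
    exact (mem_filter.1 hp).2
  · have h1 : ∑ i ∈ range n, f i ≤ ∑ i ∈ range (T0 + 1), f i +
        ∑ p ∈ (range n).filter (fun p => p.Prime ∧ T0 < p), (1 : ℝ) / p := by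
      have h2 : ∑ p ∈ (range n).filter (fun p => p.Prime ∧ T0 < p), (1 : ℝ) / p =
          ∑ p ∈ (range n).filter (fun p => p.Prime ∧ T0 < p), f p := by
        apply Finset.sum_congr rfl
        intro p hp
        rw [hf, Set.indicator_of_mem]
        exact (mem_filter.1 hp).2.1
      rw [h2, ← Finset.sum_filter_add_sum_filter_not (range n) (fun p => p.Prime ∧ T0 < p) f,
        add_comm]
      apply add_le_add_left
      have h3 : ∑ p ∈ (range n).filter (fun p => ¬ (p.Prime ∧ T0 < p)), f p =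
          ∑ p ∈ ((range n).filter (fun p => ¬ (p.Prime ∧ T0 < p))).filter (fun p => p.Prime),
            f p := by
        rw [Finset.sum_filter (s := (range n).filter (fun p => ¬ (p.Prime ∧ T0 < p)))]
        apply Finset.sum_congr rfl
        intro p _
        split_ifs with h
        · rfl
        · rw [hf, Set.indicator_of_notMem]
          exact h
      rw [h3]
      apply Finset.sum_le_sum_of_subset_of_nonneg
      · intro p hp
        simp only [mem_filter, not_and, not_lt] at hp
        rw [mem_range]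
        have := hp.1.2 hp.2
        omega
      · intro i _ _
        exact hf0 i
    have h4 : -Real.log δ ≤ ∑ p ∈ (range n).filter (fun p => p.Prime ∧ T0 < p), (1 : ℝ) / p := by
      linarith
    calc ∏ p ∈ (range n).filter (fun p => p.Prime ∧ T0 < p), (1 - (1 : ℝ) / p)
        ≤ ∏ p ∈ (range n).filter (fun p => p.Prime ∧ T0 < p), Real.exp (-((1 : ℝ) / p)) := by
          apply Finset.prod_le_prod
          · intro p hp
            have h5 := (mem_filter.1 hp).2.1.one_lt
            have h6 : (1 : ℝ) / p ≤ 1 := by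
              rw [div_le_one (by exact_mod_cast (by omega : 0 < p))]
              exact_mod_cast h5.le
            linarith
          · intro p _
            have := Real.add_one_le_exp (-((1 : ℝ) / p))
            linarith
      _ = Real.exp (-∑ p ∈ (range n).filter (fun p => p.Prime ∧ T0 < p), (1 : ℝ) / p) := by
          rw [← Real.exp_sum, Finset.sum_neg_distrib]
      _ ≤ Real.exp (Real.log δ) := Real.exp_le_exp.2 (by linarith)
      _ = δ := Real.exp_log hδ

theorem t1_cop (B : Finset ℕ) (hB : ∀ p ∈ B, p.Prime) (N : ℕ) :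
    (((Icc 1 N).filter (fun a => ∀ p ∈ B, ¬ p ∣ a)).card : ℝ) ≤
      N * ∏ p ∈ B, (1 - (1 : ℝ) / p) + ((∏ p ∈ B, p : ℕ) : ℝ) := by
  set P := ∏ p ∈ B, p with hP
  have hP0 : 0 < P := Finset.prod_pos fun p hp => (hB p hp).pos
  have h1 : ((Icc 1 N).filter (fun a => ∀ p ∈ B, ¬ p ∣ a)).card ≤ P.totient * (N / P + 1) := by
    refine le_trans (Finset.card_le_card ?_) (Nat.Ico_filter_coprime_le 1 N hP0.ne')
    intro a ha
    rw [mem_filter, mem_Icc] at ha
    rw [mem_filter, mem_Ico]
    refine ⟨by omega, ?_⟩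
    rw [hP]
    apply Nat.Coprime.prod_left
    intro p hp
    exact (Nat.Prime.coprime_iff_not_dvd (hB p hp)).2 (ha.2 p hp)
  have h2 : (P.totient : ℝ) = P * ∏ p ∈ B, (1 - (1 : ℝ) / p) := by
    have h3 := Nat.totient_eq_mul_prod_factors P
    rw [hP, Nat.primeFactors_prod hB, ← hP] at h3
    have h4 : ((P.totient : ℚ) : ℝ) = ((P * ∏ p ∈ B, (1 - (p : ℚ)⁻¹) : ℚ) : ℝ) := by rw [h3]
    push_cast at h4
    simpa only [one_div] using h4
  have h5 : (P.totient : ℝ) ≤ P := by exact_mod_cast Nat.totient_le P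
  have h6 : ((N / P : ℕ) : ℝ) ≤ (N : ℝ) / P := Nat.cast_div_le
  have hPR : (0 : ℝ) < P := by exact_mod_cast hP0
  calc (((Icc 1 N).filter (fun a => ∀ p ∈ B, ¬ p ∣ a)).card : ℝ)
      ≤ ((P.totient * (N / P + 1) : ℕ) : ℝ) := by exact_mod_cast h1
    _ = P.totient * ((N / P : ℕ) : ℝ) + P.totient := by push_cast; ring
    _ ≤ P.totient * ((N : ℝ) / P) + P := by
        have h7 : (0 : ℝ) ≤ P.totient := by positivity
        nlinarith
    _ = N * ∏ p ∈ B, (1 - (1 : ℝ) / p) + P := by
        rw [h2]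
        field_simp

theorem turan (K : ℕ) (ε : ℝ) (hε : 0 < ε) : ∃ T N0 : ℕ, ∀ N : ℕ, N0 ≤ N →
    (((Icc 1 N).filter (fun a => ((Nat.primesLE T).filter (fun p => p ∣ a)).card < K)).card : ℝ) ≤
      ε * N := by
  induction K generalizing ε with
  | zero =>
    refine ⟨0, 0, fun N _ => ?_⟩
    simp
    positivity
  | succ K ih =>
    obtain ⟨T0, N1, h1⟩ := ih (ε / 2) (by positivity)
    obtain ⟨B, hB, hprod⟩ := t1_prod T0 (ε / 4) (by positivity)
    obtain ⟨M, hM⟩ := exists_nat_ge (4 * ((∏ p ∈ B, p : ℕ) : ℝ) / ε)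
    refine ⟨max T0 (B.sup id), max N1 M, fun N hN => ?_⟩
    have hsub : (Icc 1 N).filter
        (fun a => ((Nat.primesLE (max T0 (B.sup id))).filter (fun p => p ∣ a)).card < K + 1) ⊆
        (Icc 1 N).filter (fun a => ((Nat.primesLE T0).filter (fun p => p ∣ a)).card < K) ∪
          (Icc 1 N).filter (fun a => ∀ p ∈ B, ¬ p ∣ a) := by
      intro a ha
      rw [mem_filter] at ha
      rw [mem_union, mem_filter, mem_filter]
      by_cases hc : ((Nat.primesLE T0).filter (fun p => p ∣ a)).card < K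
      · exact Or.inl ⟨ha.1, hc⟩
      · refine Or.inr ⟨ha.1, fun p hp hpa => ?_⟩
        have h2 : insert p ((Nat.primesLE T0).filter (fun p => p ∣ a)) ⊆
            (Nat.primesLE (max T0 (B.sup id))).filter (fun p => p ∣ a) := by
          intro q hq
          rw [mem_insert, mem_filter, Nat.mem_primesLE] at hq
          rw [mem_filter, Nat.mem_primesLE]
          rcases hq with rfl | hq
          · exact ⟨⟨(Finset.le_sup (f := id) hp).trans (le_max_right _ _), (hB q hp).1⟩, hpa⟩
          · exact ⟨⟨hq.1.1.trans (le_max_left _ _), hq.1.2⟩, hq.2⟩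
        have h3 : p ∉ (Nat.primesLE T0).filter (fun p => p ∣ a) := by
          rw [mem_filter, Nat.mem_primesLE]
          intro h4
          have := (hB p hp).2
          omega
        have h5 := Finset.card_le_card h2
        rw [Finset.card_insert_of_notMem h3] at h5
        omega
    have h6 := (Finset.card_le_card hsub).trans (Finset.card_union_le _ _)
    have h7 := h1 N ((le_max_left _ _).trans hN)
    have h8 := t1_cop B (fun p hp => (hB p hp).1) N
    have hNM : (M : ℝ) ≤ N := by exact_mod_cast (le_max_right _ _).trans hN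
    have h9 : ((∏ p ∈ B, p : ℕ) : ℝ) ≤ ε / 4 * N := by
      have h10 : 4 * ((∏ p ∈ B, p : ℕ) : ℝ) / ε ≤ N := hM.trans hNM
      rw [div_le_iff₀ hε] at h10
      linarith
    have h11 : (N : ℝ) * ∏ p ∈ B, (1 - (1 : ℝ) / p) ≤ N * (ε / 4) :=
      mul_le_mul_of_nonneg_left hprod (by positivity)
    have h12 : (((Icc 1 N).filter (fun a =>
        ((Nat.primesLE (max T0 (B.sup id))).filter (fun p => p ∣ a)).card < K + 1)).card : ℝ) ≤
        (((Icc 1 N).filter
          (fun a => ((Nat.primesLE T0).filter (fun p => p ∣ a)).card < K)).card : ℝ) +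
          (((Icc 1 N).filter (fun a => ∀ p ∈ B, ¬ p ∣ a)).card : ℝ) := by exact_mod_cast h6
    linarith

end ECU
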