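import Pool.Agent.ECU.F1
import Pool.Agent.ECU.T1

/-!
[ECU-F2a] many indices with good size and many small primes.

Let `B, T1` be from `good_idx`, `K = 8 B`, `ε = 1 / (8 (T1 + 1) B)`, `T, N0` from `turan K ε`
(`T ≥ 1` may be assumed: for `T = 0` the set in `turan` would be everything, impossible for large `N` as
`ε < 1`; or replace `T` by `T + 1`, the set only gets smaller). Let `k ≥ max N0 16`. The complement of the set `G` of
the statement in `range k`: at most `k/8` indices from `good_idx`; at most `k/16 + 1 ≤ k/8` with `16 i < k`;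
and those with `k ≤ T1 a_i`, `a_i ≤ B k` and fewer than `K` primes `p ≤ T`, `p ∣ a_i`: their values `a` lie
in the set of `turan` for `N = B k` (`≤ ε B k` values), and each value `a` with `k ≤ T1 a` is taken at most
`k / a + 1 ≤ T1 + 1` times (`S_le`), so at most `(T1 + 1) ε B k = k/8`. So `#G ≥ 5k/8 ≥ k/2`.
-/

set_option autoImplicit false

namespace ECU

open Finset

theorem many : ∃ B T1 T k0 : ℕ, 1 ≤ B ∧ 1 ≤ T1 ∧ 1 ≤ T ∧ ∀ n d k : ℕ, Sol n d k → k0 ≤ k →
    k ≤ 2 * ((range k).filter (fun i => k ≤ 16 * i ∧ k ≤ T1 * cub k (n + i * d) ∧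
      cub k (n + i * d) ≤ B * k ∧
      8 * B ≤ ((Nat.primesLE T).filter (fun p => p ∣ cub k (n + i * d))).card)).card := by
  obtain ⟨B, T1, hB, hT1, hg⟩ := good_idx
  have hB' : (0 : ℝ) < B := by exact_mod_cast hB
  have hT1' : (0 : ℝ) < (T1 : ℝ) + 1 := by positivity
  obtain ⟨T, N0, ht⟩ := turan (8 * B) (1 / (8 * ((T1 : ℝ) + 1) * B)) (by positivity)
  refine ⟨B, T1, T + 1, max N0 16, hB, hT1, by omega, fun n d k hs hk => ?_⟩
  have hk1 : N0 ≤ k := (le_max_left _ _).trans hk
  have hk2 : 16 ≤ k := (le_max_right _ _).trans hk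
  have hmono : ∀ a : ℕ, ((Nat.primesLE T).filter (fun p => p ∣ a)).card ≤
      ((Nat.primesLE (T + 1)).filter (fun p => p ∣ a)).card := by
    intro a
    refine Finset.card_le_card (Finset.filter_subset_filter _ ?_)
    intro p hp
    rw [Nat.mem_primesLE] at hp ⊢
    exact ⟨by omega, hp.2⟩
  set G := (range k).filter (fun i => k ≤ 16 * i ∧ k ≤ T1 * cub k (n + i * d) ∧
      cub k (n + i * d) ≤ B * k ∧
      8 * B ≤ ((Nat.primesLE (T + 1)).filter (fun p => p ∣ cub k (n + i * d))).card) with hG
  set A1 := (range k).filter (fun i => ¬ (k ≤ T1 * cub k (n + i * d) ∧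
      cub k (n + i * d) ≤ B * k)) with hA1
  set A2 := (range k).filter (fun i => 16 * i < k) with hA2
  set A3 := (range k).filter (fun i => (k ≤ T1 * cub k (n + i * d) ∧
      cub k (n + i * d) ≤ B * k) ∧
      ((Nat.primesLE (T + 1)).filter (fun p => p ∣ cub k (n + i * d))).card < 8 * B) with hA3
  have h1 : 8 * A1.card ≤ k := hg n d k hs (by omega)
  have h2 : 8 * A2.card ≤ k := by
    have hsub : A2 ⊆ range ((k + 15) / 16) := by
      intro i hi
      rw [hA2, Finset.mem_filter] at hi
      rw [Finset.mem_range]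
      have := hi.2
      omega
    have := Finset.card_le_card hsub
    rw [Finset.card_range] at this
    omega
  have h3 : 8 * A3.card ≤ k := by
    set V := (Icc 1 (B * k)).filter
      (fun a => ((Nat.primesLE T).filter (fun p => p ∣ a)).card < 8 * B) with hV
    have hVc : (8 * ((T1 : ℝ) + 1)) * V.card ≤ k := by
      have hle : N0 ≤ B * k := hk1.trans (Nat.le_mul_of_pos_left k hB)
      have := ht (B * k) hle
      calc (8 * ((T1 : ℝ) + 1)) * V.card
          ≤ (8 * ((T1 : ℝ) + 1)) * (1 / (8 * ((T1 : ℝ) + 1) * B) * ((B * k : ℕ) : ℝ)) :=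
            mul_le_mul_of_nonneg_left this (by positivity)
        _ = k := by
            push_cast
            field_simp
    have hVc' : 8 * (T1 + 1) * V.card ≤ k := by exact_mod_cast hVc
    have him : A3.image (fun i => cub k (n + i * d)) ⊆ V := by
      intro c hc
      rw [Finset.mem_image] at hc
      obtain ⟨i, hi, rfl⟩ := hc
      rw [hA3, Finset.mem_filter] at hi
      rw [hV, Finset.mem_filter, Finset.mem_Icc]
      exact ⟨⟨cub_pos _ _, hi.2.1.2⟩, (hmono _).trans_lt hi.2.2⟩
    have hcard : A3.card ≤ (T1 + 1) * (A3.image (fun i => cub k (n + i * d))).card := by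
      refine Finset.card_le_mul_card_image A3 (T1 + 1) ?_
      intro c hc
      rw [Finset.mem_image] at hc
      obtain ⟨i, hi, rfl⟩ := hc
      rw [hA3, Finset.mem_filter] at hi
      have hpos := cub_pos k (n + i * d)
      have hS := S_le hs hpos
      have hdiv : k / cub k (n + i * d) ≤ T1 :=
        Nat.div_le_of_le_mul (by rw [mul_comm]; exact hi.2.1.1)
      refine le_trans (Finset.card_le_card ?_) (hS.trans (by omega))
      intro j hj
      rw [Finset.mem_filter] at hj ⊢
      exact ⟨(Finset.mem_filter.1 hj.1).1, hj.2⟩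
    have hle := hcard.trans (Nat.mul_le_mul_left (T1 + 1) (Finset.card_le_card him))
    calc 8 * A3.card ≤ 8 * ((T1 + 1) * V.card) := Nat.mul_le_mul_left 8 hle
      _ = 8 * (T1 + 1) * V.card := by ring
      _ ≤ k := hVc'
  have hcov : range k ⊆ G ∪ (A1 ∪ (A2 ∪ A3)) := by
    intro i hi
    simp only [Finset.mem_union, hG, hA1, hA2, hA3, Finset.mem_filter]
    by_cases c1 : k ≤ T1 * cub k (n + i * d) ∧ cub k (n + i * d) ≤ B * k
    · by_cases c2 : 16 * i < k
      · exact Or.inr (Or.inr (Or.inl ⟨hi, c2⟩))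
      · by_cases c3 : ((Nat.primesLE (T + 1)).filter
            (fun p => p ∣ cub k (n + i * d))).card < 8 * B
        · exact Or.inr (Or.inr (Or.inr ⟨hi, c1, c3⟩))
        · exact Or.inl ⟨hi, not_lt.1 c2, c1.1, c1.2, not_lt.1 c3⟩
    · exact Or.inr (Or.inl ⟨hi, c1⟩)
  have hcc := Finset.card_le_card hcov
  rw [Finset.card_range] at hcc
  have u1 := Finset.card_union_le G (A1 ∪ (A2 ∪ A3))
  have u2 := Finset.card_union_le A1 (A2 ∪ A3)
  have u3 := Finset.card_union_le A2 A3
  omega

end ECU
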