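import Pool.Agent.ECU.N1

/-!
[ECU-F3] a rich number gives a pattern.

Let `i1 < i2 < i3`, `p1, p2, p3` be from `Rich`. `cub_mul_cube`: `n + i_j d = c p_j x_j³` (`x_j > 0`), so `c` divides
the three terms, and by `cub_modEq` `i_2 = i_1 + c t2`, `i_3 = i_1 + c t3`, `0 < t2 < t3`. `c t3 = i3 - i1 < k ≤ M c`,
so `t3 < M`. `w = (n + i1 d)/c > 0`: `c w = n + i1 d`, `c (w + t_j d) = n + i_j d = c p_j x_j³`. `Nat.Coprime w d`:
`w ∣ n + i1 d`, `coprime_term`. `w + t3 d = (n + i3 d)/c ≤ n + i3 d ≤ n + k d`. Finally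
`n + k d ≤ 16 (n + i1 d) = 16 c w ≤ 16 B k w` (as `k ≤ 16 i1`, `c ≤ B k`).
-/

set_option autoImplicit false

namespace ECU

theorem rich_tri {n d k B M c : ℕ} (h : Sol n d k) (hr : Rich n d k B M c) :
    ∃ (P : Pat) (w i : ℕ), P.Ok ∧ P.t2 ≤ M ∧ P.t3 ≤ M ∧ P.p1 ≤ M ∧ P.p2 ≤ M ∧ P.p3 ≤ M ∧
      In P (16 * B) k (n + k * d) d w ∧ i < k ∧ c * w = n + i * d := by
  obtain ⟨hc, hcB, hkM, i1, i2, i3, p1, p2, p3, h12, h23, h3k, hk16, ⟨hp1, hp1M⟩, ⟨hp2, hp2M⟩,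
    ⟨hp3, hp3M⟩, e1, e2, e3⟩ := hr
  have h2k : i2 < k := h23.trans h3k
  have h1k : i1 < k := h12.trans h2k
  obtain ⟨x1, hx1, f1⟩ := cub_mul_cube h h1k
  obtain ⟨x2, hx2, f2⟩ := cub_mul_cube h h2k
  obtain ⟨x3, hx3, f3⟩ := cub_mul_cube h h3k
  rw [e1, mul_assoc] at f1
  rw [e2, mul_assoc] at f2
  rw [e3, mul_assoc] at f3
  have d1 : c ∣ n + i1 * d := ⟨_, f1⟩
  have d2 : c ∣ n + i2 * d := ⟨_, f2⟩
  have d3 : c ∣ n + i3 * d := ⟨_, f3⟩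
  obtain ⟨t2, ht2⟩ := (Nat.modEq_iff_dvd' h12.le).1 (cub_modEq h h1k h2k d1 d2)
  obtain ⟨t3, ht3⟩ := (Nat.modEq_iff_dvd' (h12.trans h23).le).1 (cub_modEq h h1k h3k d1 d3)
  have g2 : i2 = i1 + c * t2 := by omega
  have g3 : i3 = i1 + c * t3 := by omega
  have k2 : 0 < t2 := by
    rcases Nat.eq_zero_or_pos t2 with h0 | h0
    · rw [h0, mul_zero] at g2
      omega
    · exact h0
  have k3 : t2 < t3 := by
    have : c * t2 < c * t3 := by omega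
    exact Nat.lt_of_mul_lt_mul_left this
  have k3M : t3 < M := by
    have h1 : c * t3 < k := by omega
    have h2 : c * t3 < c * M := by
      rw [mul_comm c M]
      exact h1.trans_le hkM
    exact Nat.lt_of_mul_lt_mul_left h2
  have hw2 : p1 * x1 ^ 3 + t2 * d = p2 * x2 ^ 3 := by
    apply Nat.eq_of_mul_eq_mul_left hc
    calc c * (p1 * x1 ^ 3 + t2 * d) = (n + i1 * d) + c * t2 * d := by rw [f1]; ring
      _ = n + i2 * d := by rw [g2]; ring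
      _ = c * (p2 * x2 ^ 3) := f2
  have hw3 : p1 * x1 ^ 3 + t3 * d = p3 * x3 ^ 3 := by
    apply Nat.eq_of_mul_eq_mul_left hc
    calc c * (p1 * x1 ^ 3 + t3 * d) = (n + i1 * d) + c * t3 * d := by rw [f1]; ring
      _ = n + i3 * d := by rw [g3]; ring
      _ = c * (p3 * x3 ^ 3) := f3
  have hwpos : 0 < p1 * x1 ^ 3 := by positivity
  have hcop : Nat.Coprime (p1 * x1 ^ 3) d :=
    Nat.Coprime.coprime_dvd_left ⟨c, by rw [f1]; ring⟩ (coprime_term h.cop i1)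
  refine ⟨⟨t2, t3, p1, p2, p3⟩, p1 * x1 ^ 3, i1, ⟨k2, k3, hp1, hp2, hp3⟩, (k3.trans k3M).le,
    k3M.le, hp1M, hp2M, hp3M, ⟨?_, ?_, x1, x2, x3, hwpos, h.d0, hcop, rfl, hw2, hw3⟩, h1k, f1.symm⟩
  · show p1 * x1 ^ 3 + t3 * d ≤ n + k * d
    have h1 : p1 * x1 ^ 3 + t3 * d ≤ c * (p1 * x1 ^ 3 + t3 * d) := Nat.le_mul_of_pos_left _ hc
    have h2 : c * (p1 * x1 ^ 3 + t3 * d) = n + i3 * d := by rw [hw3]; exact f3.symm
    have h3 : i3 * d ≤ k * d := Nat.mul_le_mul_right d h3k.le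
    omega
  · have h1 : k * d ≤ 16 * i1 * d := Nat.mul_le_mul_right d hk16
    have h2 : c * (p1 * x1 ^ 3) ≤ B * k * (p1 * x1 ^ 3) := Nat.mul_le_mul_right _ hcB
    have h3 : 16 * B * k * (p1 * x1 ^ 3) = 16 * (B * k * (p1 * x1 ^ 3)) := by ring
    have h4 : 16 * i1 * d = 16 * (i1 * d) := by ring
    rw [h3]
    omega

end ECU
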