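import Pool.Agent.ECU.P7
import Pool.Agent.ECU.E7

/-!
[ECU-P8] few solutions of one pattern.

`N ≥ k⁸`: if `N ≥ N0` (`few_large`) then `#s ≤ C`; if `N < N0` then `#s ≤ N0`, as `s ⊆ range (N + 1)`
(`w ≤ w + t3 d ≤ N`). `N < k⁸`: if `N < N0'` (`X_height`) again `#s ≤ N0'`; otherwise map `s` into `G` as in `few_large`
(`grp P.c`; injective): the points have `h ≤ 2 log N ≤ 16 log k ≤ 16 (1 + log k) =: R`, `R ≥ 1`, so
`count` gives `#s ≤ A (16 (1 + log k)) ^ r`. In total `#s ≤ C' (1 + log k) ^ r` with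
`C' = C + N0 + N0' + A 16 ^ r` (`(1 + log k) ^ r ≥ 1`).
-/

set_option autoImplicit false

namespace ECU

theorem few (P : Pat) (hP : P.Ok) (E : ℕ) : ∃ (C : ℝ) (r : ℕ), 0 ≤ C ∧ ∀ k N d : ℕ, 1 ≤ k →
    ∀ s : Finset ℕ, (∀ w ∈ s, In P E k N d w) → (s.card : ℝ) ≤ C * (1 + Real.log k) ^ r := by
  obtain ⟨C0, N0, hfl⟩ := few_large P hP E
  obtain ⟨N1, hXh⟩ := X_height P
  obtain ⟨G, instG, h, pt, hfg, hh0, ⟨Cp, hCp⟩, hnorth, hpt, hinj, -⟩ := grp P.c (c_ne hP)
  obtain ⟨A, r, hA, hcount⟩ := count hfg h hh0 Cp hCp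
  refine ⟨C0 + N0 + N1 + A * 16 ^ r, r, by positivity, ?_⟩
  intro k N d hk s hs
  have hk1 : (1 : ℝ) ≤ k := by exact_mod_cast hk
  have hlog : 0 ≤ Real.log k := Real.log_nonneg hk1
  have hpow : (1 : ℝ) ≤ (1 + Real.log k) ^ r := one_le_pow₀ (by linarith)
  have hAr : 0 ≤ A * 16 ^ r := by positivity
  have hC0 : (0 : ℝ) ≤ C0 := Nat.cast_nonneg _
  have hN0 : (0 : ℝ) ≤ N0 := Nat.cast_nonneg _
  have hN1 : (0 : ℝ) ≤ N1 := Nat.cast_nonneg _
  have hsmall : s.card ≤ N + 1 := by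
    have h1 : s ⊆ Finset.range (N + 1) := by
      intro w hw
      have h2 := (hs w hw).1
      rw [Finset.mem_range]
      have : w ≤ w + P.t3 * d := Nat.le_add_right _ _
      omega
    simpa using Finset.card_le_card h1
  have key : ∀ B : ℝ, (s.card : ℝ) ≤ B → B ≤ C0 + N0 + N1 + A * 16 ^ r →
      (s.card : ℝ) ≤ (C0 + N0 + N1 + A * 16 ^ r) * (1 + Real.log k) ^ r := by
    intro B h1 h2
    calc (s.card : ℝ) ≤ (C0 + N0 + N1 + A * 16 ^ r) * 1 := by linarith
      _ ≤ _ := mul_le_mul_of_nonneg_left hpow (by positivity)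
  rcases Nat.lt_or_ge N N0 with hlt | hge
  · refine key N0 ?_ (by linarith)
    exact_mod_cast hsmall.trans hlt
  rcases Nat.lt_or_ge N N1 with hlt1 | hge1
  · refine key N1 ?_ (by linarith)
    exact_mod_cast hsmall.trans hlt1
  rcases Nat.lt_or_ge N (k ^ 8) with hlt2 | hge2
  swap
  · refine key C0 ?_ (by linarith)
    exact_mod_cast hfl k N d hge2 hge s hs
  choose x1 x2 x3 hT using fun w : s => (hs w.1 w.2).2.2
  classical
  let Q : s → G := fun w => pt (X P (x1 w) (x2 w) (x3 w)) (Y P d w.1) (on_curve (hT w))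
  have hQinj : Function.Injective Q := by
    intro w w' hww
    have h1 := (hinj _ _ _ _ _ _ hww).2
    exact Subtype.ext (Y_inj hP (hT w).d0 (hT w).w0 (hT w').w0 h1)
  have hR : (1 : ℝ) ≤ 16 * (1 + Real.log k) := by linarith
  have h1 := hcount (16 * (1 + Real.log k)) hR (s.attach.image Q) (by
    intro x hx
    rw [Finset.mem_image] at hx
    obtain ⟨w, -, rfl⟩ := hx
    have h2 := (hs w.1 w.2).1
    have h3 := hXh N d w.1 (x1 w) (x2 w) (x3 w) hge1 (hT w) hP.t3.le h2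
    have h4 : h (Q w) = Height.logHeight₁ (X P (x1 w) (x2 w) (x3 w)) := hpt _ _ _
    rw [h4]
    refine h3.trans ?_
    have hw0 := (hT w).w0
    have hNpos : 0 < N := by omega
    have hNR : (0 : ℝ) < N := by exact_mod_cast hNpos
    have h5 : Real.log N ≤ 8 * Real.log k := by
      have h6 : (N : ℝ) ≤ (k : ℝ) ^ 8 := by exact_mod_cast hlt2.le
      calc Real.log N ≤ Real.log ((k : ℝ) ^ 8) := Real.log_le_log hNR h6
        _ = 8 * Real.log k := by rw [Real.log_pow]; norm_num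
    linarith)
  rw [Finset.card_image_of_injective _ hQinj, Finset.card_attach] at h1
  calc (s.card : ℝ) ≤ A * (16 * (1 + Real.log k)) ^ r := h1
    _ = (A * 16 ^ r) * (1 + Real.log k) ^ r := by rw [mul_pow]; ring
    _ ≤ _ := mul_le_mul_of_nonneg_right (by linarith) (by linarith)

end ECU
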