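import Pool.Agent.ECU.F2
import Pool.Agent.ECU.F3
import Pool.Agent.ECU.P8

/-!
[ECU-F4] no solutions with `n + k d ≥ k³`, `k` large.

`B, M, k0, c0` from `rich`. For each of the finitely many patterns `P` with `P.Ok` and entries `≤ M` let `C_P, r_P` be
from `few P (16 B)`; let `C, r` be the maxima (`(1 + log k) ≥ 1`). Suppose `Sol n d k`, `k³ ≤ n + k d`, `k`
large. Each `c ∈ R` gives `(P, w, i)` by `rich_tri`. The map `c ↦ (P, w)` is injective on `R`:
`c w = n + i d`, `c' w = n + i' d`, `c ≠ c'`: `w ∣ (i - i') d` (integers), `gcd (w, d) = 1`, so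
`w ∣ i - i'`, and `i ≠ i'` (as `w > 0`, `c ≠ c'`), `w ≤ |i - i'| < k`; but `k³ ≤ n + k d ≤ 16 B k w`, so
`w ≥ k² / (16 B) ≥ k` for `k ≥ 16 B`. For fixed `P` the set of the `w` has at most `C (1 + log k) ^ r`
elements (`few`), so `c0 k ≤ #R ≤ (M + 1)^5 C (1 + log k) ^ r`, false for `k ≥ k1`
(`isLittleO_log…`, `Real.isLittleO_pow_log_id_atTop`).
-/

set_option autoImplicit false

namespace ECU

open Finset in
private theorem f4_inj {n d k B c c' w i i' : ℕ} (hk : 1 ≤ k) (hkB : 16 * B ≤ k) (hi : i < k)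
    (hi' : i' < k) (hw : 0 < w) (hcop : Nat.Coprime w d) (hN : n + k * d ≤ 16 * B * k * w)
    (hk3 : k ^ 3 ≤ n + k * d) (h : c * w = n + i * d) (h' : c' * w = n + i' * d) : c = c' := by
  have hkw : k ≤ w := by
    by_contra hlt
    push Not at hlt
    have h1 : k ^ 3 ≤ 16 * B * k * w := hk3.trans hN
    have h2 : 16 * B * k * w ≤ k * k * w := by
      have := Nat.mul_le_mul_right (k * w) hkB
      calc 16 * B * k * w = 16 * B * (k * w) := by ring
        _ ≤ k * (k * w) := this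
        _ = k * k * w := by ring
    have h3 : k * k * w < k * k * k := by
      have : 0 < k * k := by positivity
      exact Nat.mul_lt_mul_of_pos_left hlt this
    have h4 : k ^ 3 = k * k * k := by ring
    omega
  have hii : i = i' := by
    by_contra hne
    rcases Nat.lt_or_gt_of_ne hne with hlt | hlt
    · obtain ⟨e, he⟩ := Nat.exists_eq_add_of_lt hlt
      have h1 : w ∣ (e + 1) * d := by
        have h2 : w ∣ n + i * d := ⟨c, by rw [← h]; ring⟩
        have h3 : w ∣ n + i' * d := ⟨c', by rw [← h']; ring⟩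
        have h4 : n + i' * d = (n + i * d) + (e + 1) * d := by rw [he]; ring
        rw [h4] at h3
        exact (Nat.dvd_add_right h2).1 h3
      have h5 : w ∣ e + 1 := hcop.dvd_of_dvd_mul_right h1
      have h6 := Nat.le_of_dvd (Nat.succ_pos e) h5
      omega
    · obtain ⟨e, he⟩ := Nat.exists_eq_add_of_lt hlt
      have h1 : w ∣ (e + 1) * d := by
        have h2 : w ∣ n + i * d := ⟨c, by rw [← h]; ring⟩
        have h3 : w ∣ n + i' * d := ⟨c', by rw [← h']; ring⟩
        have h4 : n + i * d = (n + i' * d) + (e + 1) * d := by rw [he]; ring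
        rw [h4] at h2
        exact (Nat.dvd_add_right h3).1 h2
      have h5 : w ∣ e + 1 := hcop.dvd_of_dvd_mul_right h1
      have h6 := Nat.le_of_dvd (Nat.succ_pos e) h5
      omega
  rw [← hii, ← h] at h'
  exact (Nat.eq_of_mul_eq_mul_right hw h').symm

private theorem f4_log (A c0 : ℝ) (hA : 0 ≤ A) (hc0 : 0 < c0) (r : ℕ) :
    ∃ K : ℕ, ∀ k : ℕ, K ≤ k → A * (1 + Real.log k) ^ r < c0 * k := by
  have h1 := (Real.isLittleO_pow_log_id_atTop (n := r))
  have he : 0 < Real.exp 1 := Real.exp_pos 1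
  have hε : 0 < c0 / (2 * Real.exp 1 * (A + 1)) := by positivity
  have h2 := (Asymptotics.isLittleO_iff.1 h1) hε
  obtain ⟨y0, hy0⟩ := Filter.eventually_atTop.1 h2
  refine ⟨max 1 (Nat.ceil y0), fun k hk => ?_⟩
  have hk1 : 1 ≤ k := (le_max_left _ _).trans hk
  have hk2 : y0 ≤ (k : ℝ) := (Nat.le_ceil y0).trans (by exact_mod_cast (le_max_right _ _).trans hk)
  have hkpos : (0 : ℝ) < k := by exact_mod_cast hk1
  have hk3 : (k : ℝ) ≤ Real.exp 1 * k := by
    have : (1 : ℝ) ≤ Real.exp 1 := Real.one_le_exp zero_le_one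
    nlinarith
  have h3 := hy0 (Real.exp 1 * k) (hk2.trans hk3)
  have h4 : Real.log (Real.exp 1 * k) = 1 + Real.log k := by
    rw [Real.log_mul he.ne' hkpos.ne', Real.log_exp]
  simp only [id] at h3
  rw [h4, Real.norm_eq_abs, Real.norm_eq_abs, abs_of_pos (by positivity : 0 < Real.exp 1 * (k : ℝ))]
    at h3
  have h5 : (1 + Real.log k) ^ r ≤ c0 / (2 * Real.exp 1 * (A + 1)) * (Real.exp 1 * k) :=
    (le_abs_self _).trans h3
  have h6 : c0 / (2 * Real.exp 1 * (A + 1)) * (Real.exp 1 * k) = c0 * k / (2 * (A + 1)) := by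
    field_simp
  rw [h6] at h5
  calc A * (1 + Real.log k) ^ r ≤ A * (c0 * k / (2 * (A + 1))) := mul_le_mul_of_nonneg_left h5 hA
    _ < c0 * k := by
      rw [mul_div_assoc', div_lt_iff₀ (by positivity)]
      have h7 : 0 < c0 * k := by positivity
      nlinarith

theorem caseB : ∃ k1 : ℕ, ∀ n d k : ℕ, Sol n d k → k1 ≤ k → n + k * d < k ^ 3 := by
  classical
  obtain ⟨B, M, k0, c0, hB, hM, hc0, hrich⟩ := rich
  have hfew : ∀ P : Pat, ∃ (C : ℝ) (r : ℕ), 0 ≤ C ∧ (P.Ok → ∀ k N d : ℕ, 1 ≤ k →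
      ∀ s : Finset ℕ, (∀ w ∈ s, In P (16 * B) k N d w) → (s.card : ℝ) ≤
        C * (1 + Real.log k) ^ r) := by
    intro P
    by_cases hP : P.Ok
    · obtain ⟨C, r, hC, h⟩ := few P hP (16 * B)
      exact ⟨C, r, hC, fun _ => h⟩
    · exact ⟨0, 0, le_rfl, fun h => absurd h hP⟩
  choose C r hC hfew using hfew
  let Q : Finset Pat := (Finset.range (M + 1) ×ˢ Finset.range (M + 1) ×ˢ Finset.range (M + 1) ×ˢ
    Finset.range (M + 1) ×ˢ Finset.range (M + 1)).image
      (fun t => (⟨t.1, t.2.1, t.2.2.1, t.2.2.2.1, t.2.2.2.2⟩ : Pat))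
  have hQ : ∀ P : Pat, P.t2 ≤ M → P.t3 ≤ M → P.p1 ≤ M → P.p2 ≤ M → P.p3 ≤ M → P ∈ Q := by
    intro P h1 h2 h3 h4 h5
    refine Finset.mem_image.2 ⟨(P.t2, P.t3, P.p1, P.p2, P.p3), ?_, rfl⟩
    simp only [Finset.mem_product, Finset.mem_range]
    omega
  obtain ⟨K, hK⟩ := f4_log (∑ P ∈ Q, C P) c0 (Finset.sum_nonneg fun P _ => hC P) hc0
    (∑ P ∈ Q, r P)
  refine ⟨max (max k0 (16 * B)) (max 1 K), ?_⟩
  intro n d k hS hk
  have hk0 : k0 ≤ k := ((le_max_left _ _).trans (le_max_left _ _)).trans hk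
  have hkB : 16 * B ≤ k := ((le_max_right _ _).trans (le_max_left _ _)).trans hk
  have hk1 : 1 ≤ k := ((le_max_left _ _).trans (le_max_right _ _)).trans hk
  have hkK : K ≤ k := ((le_max_right _ _).trans (le_max_right _ _)).trans hk
  by_contra hcon
  push Not at hcon
  obtain ⟨R, hRc, hR⟩ := hrich n d k hS hk0
  have hdata := fun c (hc : c ∈ R) => rich_tri hS (hR c hc)
  have : Nonempty Pat := ⟨⟨0, 0, 0, 0, 0⟩⟩
  choose! P w i hOk hP1 hP2 hP3 hP4 hP5 hIn hi hcw using hdata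
  have hPQ : ∀ c ∈ R, P c ∈ Q := fun c hc =>
    hQ (P c) (hP1 c hc) (hP2 c hc) (hP3 c hc) (hP4 c hc) (hP5 c hc)
  have hcard : R.card = ∑ q ∈ Q, (R.filter (fun c => P c = q)).card :=
    Finset.card_eq_sum_card_fiberwise hPQ
  have hlog : (1 : ℝ) ≤ 1 + Real.log k := by
    have : 0 ≤ Real.log (k : ℝ) := Real.log_nonneg (by exact_mod_cast hk1)
    linarith
  have hfib : ∀ q ∈ Q, ((R.filter (fun c => P c = q)).card : ℝ) ≤
      C q * (1 + Real.log k) ^ (∑ P ∈ Q, r P) := by
    intro q hq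
    by_cases hne : (R.filter (fun c => P c = q)).Nonempty
    · obtain ⟨c1, hc1⟩ := hne
      obtain ⟨hc1R, hc1q⟩ := Finset.mem_filter.1 hc1
      have hqOk : q.Ok := hc1q ▸ hOk c1 hc1R
      have hinj : Set.InjOn w (R.filter (fun c => P c = q) : Finset ℕ) := by
        intro c hc c' hc' hww
        obtain ⟨hcR, _⟩ := Finset.mem_filter.1 (Finset.mem_coe.1 hc)
        obtain ⟨hcR', _⟩ := Finset.mem_filter.1 (Finset.mem_coe.1 hc')
        obtain ⟨_, hN, x1, x2, x3, hT⟩ := hIn c hcR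
        have h1 := hcw c hcR
        have h2 := hcw c' hcR'
        rw [← hww] at h2
        exact f4_inj hk1 hkB (hi c hcR) (hi c' hcR') hT.w0 hT.cop hN hcon h1 h2
      have h3 : (R.filter (fun c => P c = q)).card =
          ((R.filter (fun c => P c = q)).image w).card := (Finset.card_image_of_injOn hinj).symm
      rw [h3]
      have h4 := hfew q hqOk k (n + k * d) d hk1 ((R.filter (fun c => P c = q)).image w) (by
        intro x hx
        obtain ⟨c, hc, rfl⟩ := Finset.mem_image.1 hx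
        obtain ⟨hcR, hcq⟩ := Finset.mem_filter.1 hc
        have := hIn c hcR
        rwa [hcq] at this)
      refine h4.trans (mul_le_mul_of_nonneg_left ?_ (hC q))
      exact pow_le_pow_right₀ hlog (Finset.single_le_sum (f := r) (fun _ _ => Nat.zero_le _) hq)
    · rw [Finset.not_nonempty_iff_eq_empty] at hne
      rw [hne, Finset.card_empty, Nat.cast_zero]
      exact mul_nonneg (hC q) (by positivity)
  have hfin : (R.card : ℝ) ≤ (∑ P ∈ Q, C P) * (1 + Real.log k) ^ (∑ P ∈ Q, r P) := by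
    rw [hcard, Nat.cast_sum, Finset.sum_mul]
    exact Finset.sum_le_sum hfib
  have := hK k hkK
  linarith

end ECU
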