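import Pool.Agent.ECU.F4
import Pool.Agent.ECU.A2
import Pool.Agent.ECU.A3

/-!
[ECU-Final] the theorem (assembly, helper98).
-/

set_option autoImplicit false

namespace ECU

open Finset

theorem main : ∃ C k0 : ℕ, ∀ k n d b y l : ℕ, k0 ≤ k → 0 < n → 0 < d → 0 < b → 0 < y →
    Nat.Coprime n d → 3 ∣ l → (∀ p : ℕ, p.Prime → p ∣ b → p ≤ k) →
    ∏ i ∈ range k, (n + i * d) = b * y ^ l →
    n + k * d ≤ C * k ∧ ∃ p : ℕ, p.Prime ∧ p ∣ b ∧ k < 2 * p := by
  obtain ⟨C, hC⟩ := caseA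
  obtain ⟨k1, hk1⟩ := caseB
  obtain ⟨k2, hk2⟩ := bertrand C
  refine ⟨C, max 1 (max k1 k2), ?_⟩
  intro k n d b y l hk hn hd hb hy hcop hl hP h
  have hS := sol_of_eq hn hd hb hy hcop hl hP h
  have h1 : 1 ≤ k := (le_max_left _ _).trans hk
  have h2 : k1 ≤ k := ((le_max_left _ _).trans (le_max_right _ _)).trans hk
  have h3 : k2 ≤ k := ((le_max_right _ _).trans (le_max_right _ _)).trans hk
  have h4 := hC n d k hS h1 (hk1 n d k hS h2).le
  refine ⟨h4, ?_⟩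
  by_contra hcon
  push Not at hcon
  exact hk2 n d k b y l h3 hn hd hb hy hcop hl (fun p hp hpb => hcon p hp hpb) h4 h

end ECU
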