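import Pool.Agent.ECU.Defs

/-!
[ECU-N1] reduction of the equation (model: `Pool/Agent/AP4/N1.lean`, which does squares; copy and adapt).

`sol_of_eq`: `th`: a prime `p > k` with `p ∣ n + i d`: `p ∤ d` (coprimality), so `p` divides no other term
(`p ∣ (i - j) d`, `|i - j| < k < p`); so `v_p (n + i d) = v_p (∏) = v_p b + l v_p y = l v_p y` (`p ∤ b`),
divisible by `3`. If `p ∤ n + i d` then `v_p = 0`.
`cub_mul_cube`: compare the `p`-adic valuations: `n + i d = ∏ p ^ v_p`, and `v_p = v_p % 3 + 3 (v_p / 3)`; for
`p > k`, `v_p % 3 = 0`. So `x = ∏_p p ^ (v_p / 3)` (over the primes dividing the term).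
`cub_coprime`: a common prime factor of `cub k (n + i d)` and `d` divides `n + i d` and `d`, so `gcd (n, d)`.
-/

set_option autoImplicit false

namespace ECU

open Finset

theorem sol_of_eq {n d k b y l : ℕ} (hn : 0 < n) (hd : 0 < d) (hb : 0 < b) (hy : 0 < y)
    (hc : Nat.Coprime n d) (hl : 3 ∣ l) (hP : ∀ p : ℕ, p.Prime → p ∣ b → p ≤ k)
    (h : ∏ i ∈ range k, (n + i * d) = b * y ^ l) : Sol n d k := by
  refine ⟨hn, hd, hc, ?_⟩
  intro i hi p hp hkp
  by_cases hpi : p ∣ n + i * d
  · have hpd : ¬ p ∣ d := by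
      intro hpd
      have hpn : p ∣ n := (Nat.dvd_add_left (hpd.mul_left i)).1 hpi
      exact hp.one_lt.ne' (Nat.dvd_one.1 (hc ▸ Nat.dvd_gcd hpn hpd))
    have hother : ∀ j ∈ range k, j ≠ i → (n + j * d).factorization p = 0 := by
      intro j hj hji
      apply Nat.factorization_eq_zero_of_not_dvd
      intro hpj
      have h1 : (p : ℤ) ∣ ((j : ℤ) - i) * d := by
        have h2 : (p : ℤ) ∣ ((n + j * d : ℕ) : ℤ) - ((n + i * d : ℕ) : ℤ) :=
          dvd_sub (Int.natCast_dvd_natCast.2 hpj) (Int.natCast_dvd_natCast.2 hpi)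
        have h3 : ((n + j * d : ℕ) : ℤ) - ((n + i * d : ℕ) : ℤ) = ((j : ℤ) - i) * d := by
          push_cast; ring
        rwa [h3] at h2
      rcases (Nat.prime_iff_prime_int.1 hp).dvd_or_dvd h1 with h2 | h2
      · have h4 : (j : ℤ) - i ≠ 0 := by omega
        have h5 := Int.le_of_dvd (abs_pos.2 h4) ((dvd_abs _ _).2 h2)
        have hj' := mem_range.1 hj
        have h6 : |(j : ℤ) - i| < k := by
          rw [abs_lt]; constructor <;> omega
        omega
      · exact hpd (Int.natCast_dvd_natCast.1 h2)
    have h1 : (∏ j ∈ range k, (n + j * d)).factorization p = (n + i * d).factorization p := by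
      rw [Nat.factorization_prod (fun j _ => by positivity), Finsupp.finsetSum_apply]
      rw [Finset.sum_eq_single i (fun j hj hji => hother j hj hji)]
      intro h0
      exact absurd (mem_range.2 hi) h0
    rw [← h1, h, Nat.factorization_mul hb.ne' (by positivity), Nat.factorization_pow]
    have h2 : b.factorization p = 0 := by
      apply Nat.factorization_eq_zero_of_not_dvd
      intro hpb
      have := hP p hp hpb
      omega
    simp only [Finsupp.add_apply, Finsupp.smul_apply, smul_eq_mul, h2, zero_add]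
    exact hl.mul_right _
  · rw [Nat.factorization_eq_zero_of_not_dvd hpi]
    exact dvd_zero 3

theorem cub_pos (k m : ℕ) : 0 < cub k m := by
  unfold cub
  apply Finset.prod_pos
  intro p hp
  exact pow_pos (Nat.mem_primesLE.1 hp).2.pos _

theorem cub_mul_cube {n d k : ℕ} (h : Sol n d k) {i : ℕ} (hi : i < k) :
    ∃ x : ℕ, 0 < x ∧ n + i * d = cub k (n + i * d) * x ^ 3 := by
  set m := n + i * d with hm
  have hm0 : m ≠ 0 := by have := h.n0; omega
  refine ⟨∏ p ∈ m.primeFactors, p ^ (m.factorization p / 3), ?_, ?_⟩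
  · apply Finset.prod_pos
    intro p hp
    exact pow_pos (Nat.prime_of_mem_primeFactors hp).pos _
  · have h1 : m = ∏ p ∈ m.primeFactors, p ^ (m.factorization p) := by
      have := Nat.prod_factorization_pow_eq_self hm0
      rw [Finsupp.prod, Nat.support_factorization] at this
      exact this.symm
    have h2 : cub k m = ∏ p ∈ m.primeFactors, p ^ (m.factorization p % 3) := by
      unfold cub
      have e1 : ∏ p ∈ m.primeFactors.filter (fun p => p ≤ k), p ^ (m.factorization p % 3) =
          ∏ p ∈ Nat.primesLE k, p ^ (m.factorization p % 3) := by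
        apply Finset.prod_subset
        · intro p hp
          rw [mem_filter] at hp
          rw [Nat.mem_primesLE]
          exact ⟨hp.2, Nat.prime_of_mem_primeFactors hp.1⟩
        · intro p hp hp'
          rw [Nat.mem_primesLE] at hp
          have : m.factorization p = 0 := by
            apply Nat.factorization_eq_zero_of_not_dvd
            intro hd
            exact hp' (mem_filter.2 ⟨Nat.mem_primeFactors.2 ⟨hp.2, hd, hm0⟩, hp.1⟩)
          rw [this]
          simp
      rw [← e1]
      apply Finset.prod_subset (Finset.filter_subset _ _)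
      intro p hp hp'
      have hpk : k < p := by
        by_contra hlt
        exact hp' (mem_filter.2 ⟨hp, not_lt.1 hlt⟩)
      have := h.th i hi p (Nat.prime_of_mem_primeFactors hp) hpk
      rw [← hm] at this
      rw [Nat.mod_eq_zero_of_dvd this, pow_zero]
    rw [h2, ← Finset.prod_pow, ← Finset.prod_mul_distrib]
    conv_lhs => rw [h1]
    apply Finset.prod_congr rfl
    intro p _
    rw [← pow_mul, ← pow_add]
    congr 1
    omega

theorem coprime_term {n d : ℕ} (h : Nat.Coprime n d) (i : ℕ) : Nat.Coprime (n + i * d) d := by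
  simpa using h

theorem cub_coprime {n d k : ℕ} (h : Sol n d k) {i : ℕ} (hi : i < k) :
    Nat.Coprime (cub k (n + i * d)) d := by
  obtain ⟨x, _, hx⟩ := cub_mul_cube h hi
  exact Nat.Coprime.coprime_dvd_left ⟨x ^ 3, hx⟩ (coprime_term h.cop i)

/-- two indices of the same class are congruent modulo `c` -/
theorem cub_modEq {n d k : ℕ} (h : Sol n d k) {i j c : ℕ} (hi : i < k) (hj : j < k)
    (h1 : c ∣ n + i * d) (h2 : c ∣ n + j * d) : i ≡ j [MOD c] := by
  have hc : Nat.Coprime c d := Nat.Coprime.coprime_dvd_left h1 (coprime_term h.cop i)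
  have h3 : n + i * d ≡ n + j * d [MOD c] :=
    ((Nat.modEq_zero_iff_dvd).2 h1).trans ((Nat.modEq_zero_iff_dvd).2 h2).symm
  exact Nat.ModEq.cancel_right_of_coprime hc (Nat.ModEq.add_left_cancel' n h3)

/-- a class has at most `k / c + 1` elements -/
theorem S_le {n d k : ℕ} (h : Sol n d k) {c : ℕ} (hc : 0 < c) : S n d k c ≤ k / c + 1 := by
  unfold S
  rw [← Finset.card_range (k / c + 1)]
  apply Finset.card_le_card_of_injOn (fun i => i / c)
  · intro i hi
    rw [Finset.mem_coe, mem_filter, mem_range] at hi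
    rw [Finset.mem_coe, mem_range]
    have := Nat.div_le_div_right (c := c) hi.1.le
    simp only
    omega
  · intro i hi j hj hij
    rw [Finset.mem_coe, mem_filter, mem_range] at hi hj
    simp only at hij
    have hdi : c ∣ n + i * d := by
      obtain ⟨x, _, hx⟩ := cub_mul_cube h hi.1
      rw [hi.2] at hx
      exact ⟨_, hx⟩
    have hdj : c ∣ n + j * d := by
      obtain ⟨x, _, hx⟩ := cub_mul_cube h hj.1
      rw [hj.2] at hx
      exact ⟨_, hx⟩
    have hm : i % c = j % c := cub_modEq h hi.1 hj.1 hdi hdj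
    rw [← Nat.div_add_mod i c, ← Nat.div_add_mod j c, hij, hm]

end ECU
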