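import Pool.Agent.ECU.N1
import Pool.Agent.AP4.N2

/-!
[ECU-N2] the energy bound (model: `AP4.upper` in `Pool/Agent/AP4/N2.lean`; copy and adapt).

`log (cub k m) = ∑_{p ≤ k} (v_p(m) % 3) log p` and `v % 3 ≤ [1 ≤ v] + [2 ≤ v]`, so
`log (cub k m) ≤ ∑_{p ≤ k} ([p ∣ m] + [p² ∣ m]) log p` (`m ≠ 0`). Sum over `i < k`: nothing for `p ∣ d`; for
`p ∤ d` at most `k/p + 1` of the terms are divisible by `p` and at most `k/p² + 1` by `p²` (one residue class
modulo `p²`). So the sum is `≤ k ∑ log p / p + k ∑ log p / p² + 2 θ(k)`;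
`∑_{p ≤ k} log p / p ≤ log k + 2` (`Pool.Agent.Lib.helper94.ANT.mA_bounds`), `∑ log p / p² ≤ C`
(e.g. `log p ≤ 2 √p` or any convergent bound, or `EAP.E6`), `θ(k) ≤ log 4 * k`.
-/

set_option autoImplicit false

namespace ECU

open Finset

theorem n2_log_cub (k m : ℕ) (hm : m ≠ 0) : Real.log (cub k m) ≤
    ∑ p ∈ Nat.primesLE k, ((if p ∣ m then Real.log p else 0) +
      (if p ^ 2 ∣ m then Real.log p else 0)) := by
  unfold cub
  rw [Nat.cast_prod, Real.log_prod]
  · apply Finset.sum_le_sum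
    intro p hp
    have hpp := (Nat.mem_primesLE.1 hp).2
    rw [Nat.cast_pow, Real.log_pow]
    have hl : 0 ≤ Real.log p := Real.log_natCast_nonneg p
    have h1 : p ∣ m ↔ 1 ≤ m.factorization p := by
      rw [← hpp.pow_dvd_iff_le_factorization hm, pow_one]
    have h2 : p ^ 2 ∣ m ↔ 2 ≤ m.factorization p := hpp.pow_dvd_iff_le_factorization hm
    have h3 : m.factorization p % 3 ≤ 2 := by omega
    split_ifs with h4 h5 h5 <;> rw [h1] at h4 <;> rw [h2] at h5
    · have h6 : ((m.factorization p % 3 : ℕ) : ℝ) ≤ 2 := by exact_mod_cast h3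
      nlinarith
    · have h6 : m.factorization p % 3 ≤ 1 := by omega
      have h7 : ((m.factorization p % 3 : ℕ) : ℝ) ≤ 1 := by exact_mod_cast h6
      nlinarith
    · omega
    · have h6 : m.factorization p % 3 = 0 := by omega
      rw [h6]
      simp
  · intro p hp
    have := ((Nat.mem_primesLE.1 hp).2).ne_zero
    positivity

theorem n2_count {n d k q : ℕ} (hqd : Nat.Coprime q d) :
    ((range k).filter (fun i => q ∣ n + i * d)).card ≤ k / q + 1 := by
  have h := Finset.card_le_card_of_injOn (s := (range k).filter (fun i => q ∣ n + i * d))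
    (t := range (k / q + 1)) (fun i => i / q) ?_ ?_
  · rwa [Finset.card_range] at h
  · intro i hi
    rw [Finset.mem_coe, Finset.mem_filter, Finset.mem_range] at hi
    rw [Finset.mem_coe, Finset.mem_range]
    exact Nat.lt_succ_of_le (Nat.div_le_div_right hi.1.le)
  · intro i hi j hj hij
    rw [Finset.mem_coe, Finset.mem_filter] at hi hj
    simp only at hij
    have h1 : (n + i * d) ≡ (n + j * d) [MOD q] :=
      ((Nat.modEq_zero_iff_dvd).2 hi.2).trans ((Nat.modEq_zero_iff_dvd).2 hj.2).symm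
    have h2 : i * d ≡ j * d [MOD q] := Nat.ModEq.add_left_cancel' n h1
    have h3 : i ≡ j [MOD q] := Nat.ModEq.cancel_right_of_coprime hqd h2
    have h4 : i % q = j % q := h3
    rw [← Nat.div_add_mod i q, ← Nat.div_add_mod j q, h4, hij]

theorem n2_sum {n d k p q : ℕ} (hcop : Nat.Coprime n d) (hp : p.Prime) (hpq : p ∣ q)
    (hq : Nat.Coprime p d → Nat.Coprime q d) :
    ∑ i ∈ range k, (if q ∣ n + i * d then Real.log p else 0) ≤
      k * (Real.log p / q) + Real.log p := by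
  have hl : 0 ≤ Real.log p := Real.log_natCast_nonneg p
  rw [← Finset.sum_filter, Finset.sum_const, nsmul_eq_mul]
  by_cases hpd : p ∣ d
  · have : (range k).filter (fun i => q ∣ n + i * d) = ∅ := by
      rw [Finset.filter_eq_empty_iff]
      intro i _ hi
      have h3 : p ∣ n := (Nat.dvd_add_left (Dvd.dvd.mul_left hpd i)).1 (hpq.trans hi)
      exact hp.one_lt.ne' (Nat.eq_one_of_dvd_coprimes hcop h3 hpd)
    rw [this]
    simp only [Finset.card_empty, Nat.cast_zero, zero_mul]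
    positivity
  · have hc := hq ((Nat.Prime.coprime_iff_not_dvd hp).2 hpd)
    have h3 := n2_count (n := n) (k := k) hc
    have h4 : (((range k).filter (fun i => q ∣ n + i * d)).card : ℝ) ≤ (k : ℝ) / q + 1 := by
      calc (((range k).filter (fun i => q ∣ n + i * d)).card : ℝ) ≤ ((k / q + 1 : ℕ) : ℝ) := by
            exact_mod_cast h3
        _ = ((k / q : ℕ) : ℝ) + 1 := by push_cast; ring
        _ ≤ (k : ℝ) / q + 1 := by
            have := @Nat.cast_div_le ℝ _ _ _ k q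
            linarith
    calc _ ≤ ((k : ℝ) / q + 1) * Real.log p := mul_le_mul_of_nonneg_right h4 hl
      _ = _ := by ring

theorem energy : ∃ C : ℝ, 0 ≤ C ∧ ∀ n d k : ℕ, Sol n d k → 1 ≤ k →
    ∑ i ∈ range k, Real.log (cub k (n + i * d)) ≤ k * Real.log k + C * k := by
  have hs : Summable fun m : ℕ => 1 / (m : ℝ) ^ (3 / 2 : ℝ) :=
    Real.summable_one_div_nat_rpow.2 (by norm_num)
  have hs0 : ∀ m : ℕ, 0 ≤ 1 / (m : ℝ) ^ (3 / 2 : ℝ) := fun m => by positivity
  have hT : 0 ≤ ∑' m : ℕ, 1 / (m : ℝ) ^ (3 / 2 : ℝ) := tsum_nonneg hs0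
  have hlog4 : 0 ≤ Real.log 4 := Real.log_nonneg (by norm_num)
  refine ⟨2 + 2 * ∑' m : ℕ, 1 / (m : ℝ) ^ (3 / 2 : ℝ) + 2 * Real.log 4, by positivity, ?_⟩
  intro n d k h hk
  have hk0 : (0 : ℝ) < k := by exact_mod_cast hk
  have h1 : ∑ i ∈ range k, Real.log (cub k (n + i * d)) ≤
      ∑ p ∈ Nat.primesLE k, ∑ i ∈ range k, ((if p ∣ n + i * d then Real.log p else 0) +
        (if p ^ 2 ∣ n + i * d then Real.log p else 0)) := by
    rw [Finset.sum_comm]
    refine Finset.sum_le_sum fun i _ => n2_log_cub k (n + i * d) ?_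
    have := h.n0
    omega
  have h2 : ∀ p ∈ Nat.primesLE k,
      ∑ i ∈ range k, ((if p ∣ n + i * d then Real.log p else 0) +
        (if p ^ 2 ∣ n + i * d then Real.log p else 0)) ≤
      k * (Real.log p / p) + k * (2 * (1 / (p : ℝ) ^ (3 / 2 : ℝ))) + 2 * Real.log p := by
    intro p hp
    have hpp := (Nat.mem_primesLE.1 hp).2
    have hp0 : (0 : ℝ) < p := by exact_mod_cast hpp.pos
    rw [Finset.sum_add_distrib]
    have e1 := n2_sum (k := k) (q := p) h.cop hpp dvd_rfl id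
    have e2 := n2_sum (k := k) (q := p ^ 2) h.cop hpp (dvd_pow_self p two_ne_zero)
      (fun hc => hc.pow_left 2)
    have e3 : Real.log p / ((p ^ 2 : ℕ) : ℝ) ≤ 2 * (1 / (p : ℝ) ^ (3 / 2 : ℝ)) := by
      have e4 := Real.log_le_rpow_div hp0.le (by norm_num : (0 : ℝ) < 1 / 2)
      have e5 : (p : ℝ) ^ (3 / 2 : ℝ) * (p : ℝ) ^ (1 / 2 : ℝ) = ((p ^ 2 : ℕ) : ℝ) := by
        rw [← Real.rpow_add hp0]
        norm_num
      have e6 : 0 < (p : ℝ) ^ (3 / 2 : ℝ) := Real.rpow_pos_of_pos hp0 _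
      have e7 : 0 < (p : ℝ) ^ (1 / 2 : ℝ) := Real.rpow_pos_of_pos hp0 _
      rw [← e5, div_le_iff₀ (by positivity)]
      calc Real.log p ≤ (p : ℝ) ^ (1 / 2 : ℝ) / (1 / 2) := e4
        _ = 2 * (1 / (p : ℝ) ^ (3 / 2 : ℝ)) * ((p : ℝ) ^ (3 / 2 : ℝ) * (p : ℝ) ^ (1 / 2 : ℝ)) := by
          field_simp
    have e8 := mul_le_mul_of_nonneg_left e3 hk0.le
    linarith
  have h3 : ∑ p ∈ Nat.primesLE k, Real.log p ≤ Real.log 4 * k := by
    have h4 := Chebyshev.theta_le_log4_mul_x (x := (k : ℝ)) hk0.le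
    refine le_trans ?_ h4
    rw [Chebyshev.theta, Nat.floor_natCast]
    apply Finset.sum_le_sum_of_subset_of_nonneg
    · intro p hp
      rw [Nat.mem_primesLE] at hp
      rw [Finset.mem_filter, Finset.mem_Ioc]
      exact ⟨⟨hp.2.pos, hp.1⟩, hp.2⟩
    · intro p _ _
      exact Real.log_natCast_nonneg p
  have h5 : ∑ p ∈ Nat.primesLE k, Real.log p / p ≤ Real.log k + 2 :=
    (Pool.Agent.Lib.helper94.ANT.mA_bounds hk).2
  have h6 : ∑ p ∈ Nat.primesLE k, 1 / (p : ℝ) ^ (3 / 2 : ℝ) ≤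
      ∑' m : ℕ, 1 / (m : ℝ) ^ (3 / 2 : ℝ) := hs.sum_le_tsum _ fun m _ => hs0 m
  calc ∑ i ∈ range k, Real.log (cub k (n + i * d))
      ≤ ∑ p ∈ Nat.primesLE k, (k * (Real.log p / p) +
          k * (2 * (1 / (p : ℝ) ^ (3 / 2 : ℝ))) + 2 * Real.log p) :=
        h1.trans (Finset.sum_le_sum h2)
    _ = k * (∑ p ∈ Nat.primesLE k, Real.log p / p) +
        k * (2 * ∑ p ∈ Nat.primesLE k, 1 / (p : ℝ) ^ (3 / 2 : ℝ)) +
        2 * ∑ p ∈ Nat.primesLE k, Real.log p := by
        rw [Finset.sum_add_distrib, Finset.sum_add_distrib, Finset.mul_sum, Finset.mul_sum,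
          Finset.mul_sum, Finset.mul_sum]
    _ ≤ _ := by
        have g1 := mul_le_mul_of_nonneg_left h5 hk0.le
        have g2 := mul_le_mul_of_nonneg_left h6 hk0.le
        nlinarith

end ECU
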