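import Pool.Agent.ECU.Defs

/-!
[ECU-P1] the point of a pattern.

With `δ = d / w`, `τ = t2 t3 p2 p3`: `X³ = 64 τ³ x2³ x3³ / x1⁶`, and `p2 x2³ = w (1 + t2 δ)`,
`p3 x3³ = w (1 + t3 δ)`, `x1⁶ = w² / p1²`, so `X³ = 64 τ² t2 t3 p1² (1 + t2 δ)(1 + t3 δ)`;
`Y² = 16 τ² p1² (t2 + t3 + 2 t2 t3 δ)²`, `c = 16 (t3 - t2)² p1² τ²`, and
`(t2 + t3 + 2 t2 t3 δ)² = 4 t2 t3 (1 + t2 δ)(1 + t3 δ) + (t3 - t2)²`.
`Y > 0` clearly. `Y` is injective in `w` (`2 t2 t3 d / w` is). `X_ne`: `X = X'` gives `Y² = Y'²`, so `Y = Y'`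
(both positive), `w = w'`. `x1, x2, x3 > 0` from `e1, e2, e3`. `X` is also positive.
-/

set_option autoImplicit false

namespace ECU

theorem Tri.pos {P : Pat} {d w x1 x2 x3 : ℕ} (h : Tri P d w x1 x2 x3) :
    0 < x1 ∧ 0 < x2 ∧ 0 < x3 ∧ 0 < P.p1 ∧ 0 < P.p2 ∧ 0 < P.p3 := by
  have h1 : 0 < P.p1 * x1 ^ 3 := by rw [← h.e1]; exact h.w0
  have h2 : 0 < P.p2 * x2 ^ 3 := by rw [← h.e2]; exact Nat.add_pos_left h.w0 _
  have h3 : 0 < P.p3 * x3 ^ 3 := by rw [← h.e3]; exact Nat.add_pos_left h.w0 _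
  have key : ∀ p x : ℕ, 0 < p * x ^ 3 → 0 < p ∧ 0 < x := by
    intro p x hpx
    refine ⟨Nat.pos_of_mul_pos_right hpx, ?_⟩
    rcases Nat.eq_zero_or_pos x with h0 | h0
    · rw [h0] at hpx
      simp at hpx
    · exact h0
  exact ⟨(key _ _ h1).2, (key _ _ h2).2, (key _ _ h3).2, (key _ _ h1).1, (key _ _ h2).1,
    (key _ _ h3).1⟩

/-- everything is coprime to `d` -/
theorem Tri.coprime {P : Pat} {d w x1 x2 x3 : ℕ} (h : Tri P d w x1 x2 x3) :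
    Nat.Coprime x1 d ∧ Nat.Coprime x2 d ∧ Nat.Coprime x3 d ∧ Nat.Coprime P.p1 d ∧
      Nat.Coprime P.p2 d ∧ Nat.Coprime P.p3 d := by
  have h1 : Nat.Coprime (P.p1 * x1 ^ 3) d := by rw [← h.e1]; exact h.cop
  have h2 : Nat.Coprime (P.p2 * x2 ^ 3) d := by
    rw [← h.e2]
    exact (Nat.coprime_add_mul_right_left w d P.t2).2 h.cop
  have h3 : Nat.Coprime (P.p3 * x3 ^ 3) d := by
    rw [← h.e3]
    exact (Nat.coprime_add_mul_right_left w d P.t3).2 h.cop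
  have key : ∀ p x : ℕ, Nat.Coprime (p * x ^ 3) d → Nat.Coprime p d ∧ Nat.Coprime x d := by
    intro p x hpx
    exact ⟨Nat.Coprime.coprime_dvd_left (Dvd.intro _ rfl) hpx,
      Nat.Coprime.coprime_dvd_left ⟨p * x ^ 2, by ring⟩ hpx⟩
  exact ⟨(key _ _ h1).2, (key _ _ h2).2, (key _ _ h3).2, (key _ _ h1).1, (key _ _ h2).1,
    (key _ _ h3).1⟩

theorem p1_tau_pos {P : Pat} (hP : P.Ok) : 0 < P.tau := by
  have h2 := hP.t2
  have h3 := hP.t2.trans hP.t3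
  have hp2 := hP.p2
  have hp3 := hP.p3
  unfold Pat.tau
  positivity

theorem c_ne {P : Pat} (hP : P.Ok) : P.c ≠ 0 := by
  unfold Pat.c
  have h1 : ((P.t3 : ℤ) - P.t2) ≠ 0 := by
    have := hP.t3
    omega
  have h2 : (P.p1 : ℤ) ≠ 0 := by
    have := hP.p1
    omega
  have h3 : (P.tau : ℤ) ≠ 0 := by
    have := p1_tau_pos hP
    omega
  positivity

theorem on_curve {P : Pat} {d w x1 x2 x3 : ℕ} (h : Tri P d w x1 x2 x3) :
    Y P d w ^ 2 = X P x1 x2 x3 ^ 3 + (P.c : ℚ) := by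
  obtain ⟨hx1, hx2, hx3, hp1, hp2, hp3⟩ := h.pos
  have e1 : (w : ℚ) = P.p1 * x1 ^ 3 := by exact_mod_cast h.e1
  have e2 : (w : ℚ) + P.t2 * d = P.p2 * x2 ^ 3 := by exact_mod_cast h.e2
  have e3 : (w : ℚ) + P.t3 * d = P.p3 * x3 ^ 3 := by exact_mod_cast h.e3
  have hw : (w : ℚ) ≠ 0 := by
    have := h.w0
    positivity
  have hx : (x1 : ℚ) ≠ 0 := by positivity
  have hX : X P x1 x2 x3 ^ 3 = 64 * (P.tau : ℚ) ^ 2 * P.t2 * P.t3 * (w + P.t2 * d) *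
      (w + P.t3 * d) * P.p1 ^ 2 / w ^ 2 := by
    unfold X
    rw [div_pow, div_eq_div_iff (by positivity) (by positivity), e2, e3, e1]
    unfold Pat.tau
    push_cast
    ring
  have hY : Y P d w ^ 2 = 16 * (P.tau : ℚ) ^ 2 * P.p1 ^ 2 *
      ((P.t2 + P.t3) * w + 2 * P.t2 * P.t3 * d) ^ 2 / w ^ 2 := by
    unfold Y
    field_simp
    ring
  rw [hX, hY]
  unfold Pat.c
  push_cast
  field_simp
  ring

theorem Y_pos {P : Pat} (hP : P.Ok) (d w : ℕ) : 0 < Y P d w := by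
  have h2 := hP.t2
  have h3 := hP.t2.trans hP.t3
  have hp1 := hP.p1
  have ht := p1_tau_pos hP
  unfold Y
  positivity

theorem Y_inj {P : Pat} (hP : P.Ok) {d w w' : ℕ} (hd : 0 < d) (hw : 0 < w) (hw' : 0 < w')
    (h : Y P d w = Y P d w') : w = w' := by
  have h2 := hP.t2
  have h3 := hP.t2.trans hP.t3
  have hp1 := hP.p1
  have ht := p1_tau_pos hP
  unfold Y at h
  have ha : (4 * (P.tau : ℚ) * P.p1) ≠ 0 := by positivity
  have h4 := mul_left_cancel₀ ha h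
  have h5 : 2 * (P.t2 : ℚ) * P.t3 * d / w = 2 * P.t2 * P.t3 * d / w' := by linarith
  have hw1 : (w : ℚ) ≠ 0 := by positivity
  have hw2 : (w' : ℚ) ≠ 0 := by positivity
  rw [div_eq_div_iff hw1 hw2] at h5
  have hb : (2 * (P.t2 : ℚ) * P.t3 * d) ≠ 0 := by positivity
  have h6 := mul_left_cancel₀ hb h5
  exact_mod_cast h6.symm

theorem X_ne {P : Pat} (hP : P.Ok) {d w x1 x2 x3 w' z1 z2 z3 : ℕ} (h : Tri P d w x1 x2 x3)
    (h' : Tri P d w' z1 z2 z3) (hne : w ≠ w') : X P x1 x2 x3 ≠ X P z1 z2 z3 := by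
  intro hX
  have h1 := on_curve h
  have h2 := on_curve h'
  rw [hX, ← h2] at h1
  have h3 : Y P d w = Y P d w' :=
    (pow_left_inj₀ (Y_pos hP d w).le (Y_pos hP d w').le two_ne_zero).1 h1
  exact hne (Y_inj hP h.d0 h.w0 h'.w0 h3)

end ECU
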