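import Pool.Agent.ECU.P1

/-!
[ECU-P2] the height of the point of a pattern.

`X = 4 τ x2 x3 / x1²` (a quotient of natural numbers, not necessarily reduced); for `q = a / b` with
natural numbers `a`, `b > 0`, `q.num ∣ a` and `q.den ∣ b`, so `logHeight₁ q = log max(|num|, den) ≤ log max(a, b)`
(`Rat.logHeight₁_eq_log_max`; for `a > 0`). `x2³ ≤ w + t2 d ≤ N`, `x3³ ≤ N`, so `(x2 x3)³ ≤ N² ≤ N³`, `x2 x3 ≤ N`, and
`4 τ x2 x3 ≤ 4 τ N ≤ N²` for `N ≥ 4 τ`; `x1² ≤ x1³ ≤ w ≤ N ≤ N²`.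
`logHeight_den`: `logHeight₁ q ≥ log q.den`; `logHeight_ge`: `logHeight₁ q ≥ log q` (`q > 0`: `q ≤ q.num`).
-/

set_option autoImplicit false

namespace ECU

theorem p2_div_height (a b : ℕ) (ha : 0 < a) (hb : 0 < b) :
    Height.logHeight₁ ((a : ℚ) / b) ≤ Real.log (max a b : ℕ) := by
  rw [Rat.logHeight₁_eq_log_max]
  have hq : ((a : ℚ) / b) = Rat.divInt a b := by
    rw [Rat.divInt_eq_div]
    push_cast
    rfl
  have hn : (((a : ℚ) / b).num.natAbs) ≤ a := by
    have h1 : ((a : ℚ) / b).num ∣ (a : ℤ) := by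
      rw [hq]
      exact Rat.num_dvd a (b := (b : ℤ)) (by exact_mod_cast hb.ne')
    have h2 : ((a : ℚ) / b).num.natAbs ∣ a := Int.natAbs_dvd_natAbs.2 h1
    exact Nat.le_of_dvd ha h2
  have hd : (((a : ℚ) / b).den) ≤ b := by
    have h1 : (((a : ℚ) / b).den : ℤ) ∣ (b : ℤ) := by
      rw [hq]
      exact Rat.den_dvd a b
    exact Nat.le_of_dvd hb (by exact_mod_cast h1)
  apply Real.log_le_log
  · have := ((a : ℚ) / b).den_pos
    have h2 : 0 < max ((a : ℚ) / b).num.natAbs ((a : ℚ) / b).den := lt_max_of_lt_right this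
    exact_mod_cast h2
  · exact_mod_cast max_le_max hn hd

theorem X_height (P : Pat) : ∃ N0 : ℕ, ∀ N d w x1 x2 x3 : ℕ, N0 ≤ N → Tri P d w x1 x2 x3 →
    P.t2 ≤ P.t3 → w + P.t3 * d ≤ N → Height.logHeight₁ (X P x1 x2 x3) ≤ 2 * Real.log N := by
  refine ⟨4 * P.tau + 1, fun N d w x1 x2 x3 hN h ht hwN => ?_⟩
  obtain ⟨hx1, hx2, hx3, hp1, hp2, hp3⟩ := h.pos
  have hN1 : 1 ≤ N := by omega
  rcases Nat.eq_zero_or_pos P.tau with h0 | h0
  · have : X P x1 x2 x3 = 0 := by
      unfold X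
      rw [h0]
      simp
    rw [this, Height.logHeight₁_zero]
    have : 0 ≤ Real.log (N : ℝ) := Real.log_natCast_nonneg N
    linarith
  · have hXe : X P x1 x2 x3 = ((4 * P.tau * (x2 * x3) : ℕ) : ℚ) / ((x1 ^ 2 : ℕ) : ℚ) := by
      unfold X
      push_cast
      rfl
    have h2N : x2 ^ 3 ≤ N := by
      have h1 : x2 ^ 3 ≤ P.p2 * x2 ^ 3 := Nat.le_mul_of_pos_left _ hp2
      rw [← h.e2] at h1
      have h2 : P.t2 * d ≤ P.t3 * d := Nat.mul_le_mul_right d ht
      omega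
    have h3N : x3 ^ 3 ≤ N := by
      have h1 : x3 ^ 3 ≤ P.p3 * x3 ^ 3 := Nat.le_mul_of_pos_left _ hp3
      rw [← h.e3] at h1
      omega
    have h23 : x2 * x3 ≤ N := by
      by_contra hlt
      push Not at hlt
      have h1 : N ^ 3 < (x2 * x3) ^ 3 := Nat.pow_lt_pow_left hlt (by norm_num)
      have h2 : (x2 * x3) ^ 3 ≤ N * N := by
        rw [mul_pow]
        exact Nat.mul_le_mul h2N h3N
      have h3 : N * N ≤ N ^ 3 := by
        calc N * N = N ^ 2 := (sq N).symm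
          _ ≤ N ^ 3 := Nat.pow_le_pow_right hN1 (by norm_num)
      omega
    have hnum : 4 * P.tau * (x2 * x3) ≤ N ^ 2 := by
      rw [sq]
      exact Nat.mul_le_mul (by omega) h23
    have hden : x1 ^ 2 ≤ N ^ 2 := by
      have h1 : x1 ^ 2 ≤ x1 ^ 3 := Nat.pow_le_pow_right hx1 (by norm_num)
      have h2 : x1 ^ 3 ≤ P.p1 * x1 ^ 3 := Nat.le_mul_of_pos_left _ hp1
      rw [← h.e1] at h2
      have h3 : w ≤ N := by omega
      have h4 : N ≤ N ^ 2 := Nat.le_self_pow (by norm_num) N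
      omega
    rw [hXe]
    refine (p2_div_height _ _ (by positivity) (by positivity)).trans ?_
    have h5 : (((max (4 * P.tau * (x2 * x3)) (x1 ^ 2) : ℕ)) : ℝ) ≤ (N : ℝ) ^ 2 := by
      exact_mod_cast max_le hnum hden
    have h6 : (0 : ℝ) < ((max (4 * P.tau * (x2 * x3)) (x1 ^ 2) : ℕ) : ℝ) := by
      have : 0 < max (4 * P.tau * (x2 * x3)) (x1 ^ 2) := lt_max_of_lt_right (by positivity)
      exact_mod_cast this
    calc Real.log ((max (4 * P.tau * (x2 * x3)) (x1 ^ 2) : ℕ) : ℝ)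
        ≤ Real.log ((N : ℝ) ^ 2) := Real.log_le_log h6 h5
      _ = 2 * Real.log N := by rw [Real.log_pow]; norm_num

theorem logHeight_den (q : ℚ) : Real.log q.den ≤ Height.logHeight₁ q := by
  rw [Rat.logHeight₁_eq_log_max]
  apply Real.log_le_log
  · exact_mod_cast q.den_pos
  · exact_mod_cast le_max_right _ _

theorem logHeight_ge (q : ℚ) (hq : 0 < q) : Real.log (q : ℝ) ≤ Height.logHeight₁ q := by
  rw [Rat.logHeight₁_eq_log_max]
  apply Real.log_le_log
  · exact_mod_cast hq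
  · have h1 : q ≤ q.num := by
      have hn : (0 : ℚ) < q.num := by exact_mod_cast Rat.num_pos.2 hq
      have h2 : q = q.num / q.den := (Rat.num_div_den q).symm
      have h3 : (1 : ℚ) ≤ q.den := by exact_mod_cast q.den_pos
      calc q = q.num / q.den := h2
        _ ≤ q.num := div_le_self hn.le h3
    have h4 : (q.num : ℚ) = (q.num.natAbs : ℚ) := by
      have h5 : (q.num.natAbs : ℤ) = q.num := Int.natAbs_of_nonneg (Rat.num_pos.2 hq).le
      have h7 := congrArg (Int.cast : ℤ → ℚ) h5.symm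
      rw [Int.cast_natCast] at h7
      exact h7
    have h6 : q ≤ ((max q.num.natAbs q.den : ℕ) : ℚ) := by
      rw [h4] at h1
      refine h1.trans ?_
      exact_mod_cast le_max_left _ _
    exact_mod_cast h6

end ECU
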