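import Pool.Agent.ECU.P1

/-!
[ECU-P3] a large denominator.

`X - X' = 4 τ T / (x1² z1²)`, `T = x2 x3 z1² - z2 z3 x1² ≠ 0` (`X_ne`), and
`Y + Y' = 8 τ p1 U / (w w')`, `U = (t2 + t3) w w' + t2 t3 d (w + w')`, `w = p1 x1³`, `w' = p1 z1³`. So
`l = (Y + Y')/(X - X') = 2 U / (p1 x1 z1 T)`. Write `l = a / b` in lowest terms: `a p1 x1 z1 T = 2 U b`, so
`D ∣ 2 U b`, and `U ≡ (t2 + t3) w w' (mod D)`, `gcd (w w', D) = 1`: `D ∣ 2 (t2 + t3) b =: κ b`.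
Let `x₃ = xd … = l² - X - X'`, `v` its denominator. `x1² z1² (X + X')` is an integer, so
`v x1² z1² l² = v x1² z1² a² / b²` is an integer, `b² ∣ v x1² z1²` (`gcd (a, b) = 1`). `D² ∣ κ² b² ∣ κ² v x1² z1²`
and `gcd (D, x1 z1) = 1` (`Tri.coprime`): `D² ∣ κ² v`, `D² ≤ κ² v`.
(`Pool/Agent/EAP/P3.lean` is similar.)
-/

set_option autoImplicit false

namespace ECU

theorem p3_slope {P : Pat} (hP : P.Ok) {d w x1 x2 x3 w' z1 z2 z3 : ℕ} (h : Tri P d w x1 x2 x3)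
    (h' : Tri P d w' z1 z2 z3) (l : ℚ)
    (hl : l * (X P x1 x2 x3 - X P z1 z2 z3) = Y P d w + Y P d w') :
    l * (P.p1 * x1 * z1 * ((x2 : ℚ) * x3 * z1 ^ 2 - (z2 : ℚ) * z3 * x1 ^ 2)) =
      2 * (((P.t2 : ℚ) + P.t3) * w * w' + P.t2 * P.t3 * d * (w + w')) := by
  obtain ⟨hx1, hx2, hx3, hp1, hp2, hp3⟩ := h.pos
  obtain ⟨hz1, hz2, hz3, -, -, -⟩ := h'.pos
  have hx1' : (x1 : ℚ) ≠ 0 := by exact_mod_cast hx1.ne'
  have hz1' : (z1 : ℚ) ≠ 0 := by exact_mod_cast hz1.ne'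
  have hp1' : (P.p1 : ℚ) ≠ 0 := by exact_mod_cast hp1.ne'
  have htau : (P.tau : ℚ) ≠ 0 := by
    have : 0 < P.tau := by
      have h2 := hP.t2
      have h3 : 0 < P.t3 := lt_trans hP.t2 hP.t3
      have h4 := hP.p2
      have h5 := hP.p3
      unfold Pat.tau
      positivity
    exact_mod_cast this.ne'
  have hw : (w : ℚ) = P.p1 * x1 ^ 3 := by exact_mod_cast h.e1
  have hw' : (w' : ℚ) = P.p1 * z1 ^ 3 := by exact_mod_cast h'.e1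
  have hw0 : (w : ℚ) ≠ 0 := by exact_mod_cast h.w0.ne'
  have hw0' : (w' : ℚ) ≠ 0 := by exact_mod_cast h'.w0.ne'
  have e1 : (X P x1 x2 x3 - X P z1 z2 z3) * (x1 ^ 2 * z1 ^ 2) =
      4 * P.tau * ((x2 : ℚ) * x3 * z1 ^ 2 - (z2 : ℚ) * z3 * x1 ^ 2) := by
    unfold X
    field_simp
  have e2 : (Y P d w + Y P d w') * (w * w') =
      8 * P.tau * P.p1 * (((P.t2 : ℚ) + P.t3) * w * w' + P.t2 * P.t3 * d * (w + w')) := by
    unfold Y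
    field_simp
    ring
  have e3 : l * (4 * P.tau * ((x2 : ℚ) * x3 * z1 ^ 2 - (z2 : ℚ) * z3 * x1 ^ 2)) =
      (Y P d w + Y P d w') * (x1 ^ 2 * z1 ^ 2) := by
    rw [← e1, ← hl]; ring
  have e4 : (4 * P.tau * (P.p1 * x1 * z1)) *
      (l * (P.p1 * x1 * z1 * ((x2 : ℚ) * x3 * z1 ^ 2 - (z2 : ℚ) * z3 * x1 ^ 2))) =
      (4 * P.tau * (P.p1 * x1 * z1)) *
        (2 * (((P.t2 : ℚ) + P.t3) * w * w' + P.t2 * P.t3 * d * (w + w'))) := by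
    have : (4 * P.tau * (P.p1 * x1 * z1)) *
      (l * (P.p1 * x1 * z1 * ((x2 : ℚ) * x3 * z1 ^ 2 - (z2 : ℚ) * z3 * x1 ^ 2))) =
      (l * (4 * P.tau * ((x2 : ℚ) * x3 * z1 ^ 2 - (z2 : ℚ) * z3 * x1 ^ 2))) *
        (P.p1 * x1 * z1) ^ 2 := by ring
    rw [this, e3]
    have : (Y P d w + Y P d w') * (x1 ^ 2 * z1 ^ 2) * (P.p1 * x1 * z1) ^ 2 * (x1 * z1) =
      ((Y P d w + Y P d w') * (w * w')) * (x1 ^ 2 * z1 ^ 2) := by
      rw [hw, hw']; ring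
    have h7 : (x1 * z1 : ℚ) ≠ 0 := mul_ne_zero hx1' hz1'
    apply mul_right_cancel₀ h7
    rw [this, e2]
    ring
  exact mul_left_cancel₀ (by positivity) e4

theorem repel {P : Pat} (hP : P.Ok) {d w x1 x2 x3 w' z1 z2 z3 D : ℕ} (h : Tri P d w x1 x2 x3)
    (h' : Tri P d w' z1 z2 z3) (hne : w ≠ w') (hD : D ∣ d)
    (hT : (D : ℤ) ∣ (x2 : ℤ) * x3 * z1 ^ 2 - (z2 : ℤ) * z3 * x1 ^ 2) :
    D ^ 2 ≤ (2 * (P.t2 + P.t3)) ^ 2 *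
      (xd (X P x1 x2 x3) (Y P d w) (X P z1 z2 z3) (Y P d w')).den := by
  obtain ⟨hx1, hx2, hx3, hp1, hp2, hp3⟩ := h.pos
  obtain ⟨hz1, hz2, hz3, -, -, -⟩ := h'.pos
  obtain ⟨cx1, -, -, cp1, -, -⟩ := h.coprime
  obtain ⟨cz1, -, -, -, -, -⟩ := h'.coprime
  have hXne := X_ne hP h h' hne
  have hsub : X P x1 x2 x3 - X P z1 z2 z3 ≠ 0 := sub_ne_zero.2 hXne
  obtain ⟨l, hldef⟩ : ∃ l : ℚ, l = (Y P d w + Y P d w') / (X P x1 x2 x3 - X P z1 z2 z3) := ⟨_, rfl⟩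
  have hl : l * (X P x1 x2 x3 - X P z1 z2 z3) = Y P d w + Y P d w' := by
    rw [hldef]; exact div_mul_cancel₀ _ hsub
  have hq : xd (X P x1 x2 x3) (Y P d w) (X P z1 z2 z3) (Y P d w') =
      l ^ 2 - X P x1 x2 x3 - X P z1 z2 z3 := by
    unfold xd; rw [hldef]
  rw [hq]
  obtain ⟨q, hqdef⟩ : ∃ q : ℚ, q = l ^ 2 - X P x1 x2 x3 - X P z1 z2 z3 := ⟨_, rfl⟩
  rw [← hqdef]
  have hs := p3_slope hP h h' l hl
  -- integers
  set T : ℤ := (x2 : ℤ) * x3 * z1 ^ 2 - (z2 : ℤ) * z3 * x1 ^ 2 with hTdef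
  set U : ℤ := ((P.t2 : ℤ) + P.t3) * w * w' + P.t2 * P.t3 * d * (w + w') with hUdef
  have hlnum : l = (l.num : ℚ) / (l.den : ℚ) := (Rat.num_div_den l).symm
  have hb0 : (l.den : ℚ) ≠ 0 := by exact_mod_cast l.den_nz
  have hv0 : (q.den : ℚ) ≠ 0 := by exact_mod_cast q.den_nz
  have e1 : (l.num : ℤ) * (P.p1 * x1 * z1 * T) = 2 * U * l.den := by
    have : (l.num : ℚ) * (P.p1 * x1 * z1 * ((x2 : ℚ) * x3 * z1 ^ 2 - (z2 : ℚ) * z3 * x1 ^ 2)) =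
        2 * (((P.t2 : ℚ) + P.t3) * w * w' + P.t2 * P.t3 * d * (w + w')) * l.den := by
      rw [← hs]
      have : (l.num : ℚ) = l * l.den := (Rat.mul_den_eq_num l).symm
      rw [this]; ring
    rw [hTdef, hUdef]
    exact_mod_cast this
  have hDd : (D : ℤ) ∣ (d : ℤ) := by exact_mod_cast hD
  have cop : ∀ m : ℕ, Nat.Coprime m d → IsCoprime (D : ℤ) (m : ℤ) := by
    intro m hm
    have : Nat.Coprime m D := Nat.Coprime.coprime_dvd_right hD hm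
    exact Nat.isCoprime_iff_coprime.2 this.symm
  have d1 : (D : ℤ) ∣ 2 * U * l.den := by
    rw [← e1]
    exact Dvd.dvd.mul_left (Dvd.dvd.mul_left hT _) _
  have d2 : (D : ℤ) ∣ (2 * ((P.t2 : ℤ) + P.t3) * l.den) * (w * w') := by
    have : (2 * ((P.t2 : ℤ) + P.t3) * l.den) * (w * w') =
        2 * U * l.den - d * (2 * P.t2 * P.t3 * (w + w') * l.den) := by
      rw [hUdef]; ring
    rw [this]
    exact dvd_sub d1 (Dvd.dvd.mul_right hDd _)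
  have d3 : (D : ℤ) ∣ 2 * ((P.t2 : ℤ) + P.t3) * l.den := by
    refine IsCoprime.dvd_of_dvd_mul_right ?_ d2
    exact (cop w h.cop).mul_right (cop w' h'.cop)
  -- the denominator of q
  have e2 : (q.den : ℤ) * (x1 ^ 2 * z1 ^ 2) * l.num ^ 2 =
      l.den ^ 2 * (q.num * (x1 ^ 2 * z1 ^ 2) +
        q.den * (4 * P.tau * ((x2 : ℤ) * x3 * z1 ^ 2 + z2 * z3 * x1 ^ 2))) := by
    have hx1' : (x1 : ℚ) ≠ 0 := by exact_mod_cast hx1.ne'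
    have hz1' : (z1 : ℚ) ≠ 0 := by exact_mod_cast hz1.ne'
    have h1 : l ^ 2 = q + X P x1 x2 x3 + X P z1 z2 z3 := by rw [hqdef]; ring
    have h2 : (l.num : ℚ) = l * l.den := (Rat.mul_den_eq_num l).symm
    have h3 : (q.num : ℚ) = q * q.den := (Rat.mul_den_eq_num q).symm
    have h4 : (X P x1 x2 x3 + X P z1 z2 z3) * (x1 ^ 2 * z1 ^ 2) =
        4 * P.tau * ((x2 : ℚ) * x3 * z1 ^ 2 + z2 * z3 * x1 ^ 2) := by
      unfold X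
      field_simp
    have : (q.den : ℚ) * (x1 ^ 2 * z1 ^ 2) * l.num ^ 2 =
      l.den ^ 2 * (q.num * (x1 ^ 2 * z1 ^ 2) +
        q.den * (4 * P.tau * ((x2 : ℚ) * x3 * z1 ^ 2 + z2 * z3 * x1 ^ 2))) := by
      rw [← h4, h2, h3, mul_pow, h1]
      ring
    exact_mod_cast this
  have d4 : (l.den : ℤ) ^ 2 ∣ (q.den : ℤ) * (x1 ^ 2 * z1 ^ 2) := by
    have h1 : (l.den : ℤ) ^ 2 ∣ (q.den : ℤ) * (x1 ^ 2 * z1 ^ 2) * l.num ^ 2 := ⟨_, e2⟩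
    refine IsCoprime.dvd_of_dvd_mul_right ?_ h1
    apply IsCoprime.pow
    have h2 : Nat.Coprime l.num.natAbs l.den := l.reduced
    have h3 : IsCoprime (l.num : ℤ) (l.den : ℤ) := by
      rw [Int.isCoprime_iff_gcd_eq_one]
      simpa [Int.gcd, Nat.Coprime] using h2
    exact h3.symm
  have d5 : (D : ℤ) ^ 2 ∣ ((2 * ((P.t2 : ℤ) + P.t3)) ^ 2 * q.den) * (x1 ^ 2 * z1 ^ 2) := by
    have h1 : (D : ℤ) ^ 2 ∣ (2 * ((P.t2 : ℤ) + P.t3) * l.den) ^ 2 := pow_dvd_pow_of_dvd d3 2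
    refine h1.trans ?_
    rw [mul_pow, mul_assoc ((2 * ((P.t2 : ℤ) + P.t3)) ^ 2)]
    exact mul_dvd_mul_left _ d4
  have d6 : (D : ℤ) ^ 2 ∣ (2 * ((P.t2 : ℤ) + P.t3)) ^ 2 * q.den := by
    refine IsCoprime.dvd_of_dvd_mul_right ?_ d5
    exact ((cop x1 cx1).pow).mul_right ((cop z1 cz1).pow)
  have d7 : D ^ 2 ∣ (2 * (P.t2 + P.t3)) ^ 2 * q.den := by
    have : ((D ^ 2 : ℕ) : ℤ) ∣ (((2 * (P.t2 + P.t3)) ^ 2 * q.den : ℕ) : ℤ) := by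
      push_cast
      exact d6
    exact_mod_cast this
  refine Nat.le_of_dvd ?_ d7
  have := hP.t2
  have := q.den_pos
  positivity

end ECU
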