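import Pool.Agent.ECU.P4a

/-!
[ECU-P4] four elements with the same cube modulo `d`.

`T i j = A i B j - A j B i`. For every prime `q ∣ d` with exact power `q ^ e`, `prime_pow` gives a pair `i < j` with
`q ^ e ∣ 3 T i j`, so `q ^ e ∣ 3 ∏_{i < j} T i j` (six pairs); all prime powers together:
`d ∣ 3 ∏ T i j` (`Nat.factorization_le_iff_dvd`, `Nat.dvd_of_factors…`, or induction with
`Nat.recOnPosPrimePosCoprime`; if the product is `0` it is trivial). Hence `d ∣ gcd (d, 3 ∏ T) ∣ 3 ∏ gcd (d, T i j)`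
(`Int.gcd_mul_dvd_mul_gcd`-like: `gcd (d, u v) ∣ gcd (d, u) gcd (d, v)`). If `D` is the largest of the six gcds (all
`≥ 1`), `d ≤ 3 D⁶`.
-/

set_option autoImplicit false

namespace ECU

theorem p4_not_dvd {q d : ℕ} (hq : q.Prime) (hqd : q ∣ d) {a : ℤ} (ha : IsCoprime a (d : ℤ)) :
    ¬ (q : ℤ) ∣ a := by
  intro h
  have h2 : (q : ℤ) ∣ (d : ℤ) := by exact_mod_cast hqd
  have h3 : IsUnit (q : ℤ) := ha.isUnit_of_dvd' h h2
  have h4 : Prime (q : ℤ) := Nat.prime_iff_prime_int.mp hq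
  exact h4.not_isUnit h3

theorem cubes_mod (d : ℕ) (hd : 0 < d) (A B : Fin 4 → ℤ) (hA : ∀ i, IsCoprime (A i) (d : ℤ))
    (hB : ∀ i, IsCoprime (B i) (d : ℤ))
    (h : ∀ i j, (d : ℤ) ∣ A i ^ 3 * B j ^ 3 - A j ^ 3 * B i ^ 3) :
    ∃ i j : Fin 4, i ≠ j ∧ d ≤ 3 * (Int.gcd (d : ℤ) (A i * B j - A j * B i)) ^ 6 := by
  classical
  obtain ⟨T, hT⟩ : ∃ T : Fin 4 → Fin 4 → ℤ, ∀ i j, T i j = A i * B j - A j * B i :=
    ⟨fun i j => A i * B j - A j * B i, fun _ _ => rfl⟩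
  have key : (d : ℤ) ∣ 3 * (T 0 1 * T 0 2 * T 0 3 * T 1 2 * T 1 3 * T 2 3) := by
    rw [Int.natCast_dvd, Nat.dvd_iff_prime_pow_dvd_dvd]
    intro q k hq hk
    rw [← Int.natCast_dvd]
    rcases Nat.eq_zero_or_pos k with rfl | hk0
    · simp
    have hqd : q ∣ d := (dvd_pow_self q hk0.ne').trans hk
    have hkd : ((q ^ k : ℕ) : ℤ) ∣ (d : ℤ) := by exact_mod_cast hk
    have hkd' : (q : ℤ) ^ k ∣ (d : ℤ) := by exact_mod_cast hk
    obtain ⟨i, j, hij, hdv⟩ := prime_pow q k hq A B (fun i => p4_not_dvd hq hqd (hA i))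
      (fun i => p4_not_dvd hq hqd (hB i)) (fun i j => hkd'.trans (h i j))
    rw [← hT] at hdv
    push_cast
    refine hdv.trans (mul_dvd_mul_left 3 ?_)
    have e1 : T 0 1 ∣ T 0 1 * T 0 2 * T 0 3 * T 1 2 * T 1 3 * T 2 3 := ⟨T 0 2 * T 0 3 * T 1 2 * T 1 3 * T 2 3, by ring⟩
    have e2 : T 0 2 ∣ T 0 1 * T 0 2 * T 0 3 * T 1 2 * T 1 3 * T 2 3 := ⟨T 0 1 * T 0 3 * T 1 2 * T 1 3 * T 2 3, by ring⟩
    have e3 : T 0 3 ∣ T 0 1 * T 0 2 * T 0 3 * T 1 2 * T 1 3 * T 2 3 := ⟨T 0 1 * T 0 2 * T 1 2 * T 1 3 * T 2 3, by ring⟩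
    have e4 : T 1 2 ∣ T 0 1 * T 0 2 * T 0 3 * T 1 2 * T 1 3 * T 2 3 := ⟨T 0 1 * T 0 2 * T 0 3 * T 1 3 * T 2 3, by ring⟩
    have e5 : T 1 3 ∣ T 0 1 * T 0 2 * T 0 3 * T 1 2 * T 1 3 * T 2 3 := ⟨T 0 1 * T 0 2 * T 0 3 * T 1 2 * T 2 3, by ring⟩
    have e6 : T 2 3 ∣ T 0 1 * T 0 2 * T 0 3 * T 1 2 * T 1 3 * T 2 3 := ⟨T 0 1 * T 0 2 * T 0 3 * T 1 2 * T 1 3, by ring⟩
    fin_cases i <;> fin_cases j <;>
      first
      | exact absurd hij (by decide)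
      | exact e1
      | exact e2
      | exact e3
      | exact e4
      | exact e5
      | exact e6
  obtain ⟨p, hp, hmax⟩ := Finset.exists_max_image (Finset.univ.filter (fun p : Fin 4 × Fin 4 => p.1 ≠ p.2))
    (fun p => Int.gcd (d : ℤ) (T p.1 p.2)) ⟨(0, 1), by simp⟩
  refine ⟨p.1, p.2, by simpa using hp, ?_⟩
  rw [← hT]
  have hm : ∀ i j : Fin 4, i ≠ j → Nat.gcd d (T i j).natAbs ≤ Int.gcd (d : ℤ) (T p.1 p.2) := by
    intro i j hij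
    have := hmax (i, j) (by simpa using hij)
    simpa [Int.gcd] using this
  obtain ⟨D, hD⟩ : ∃ D, D = Int.gcd (d : ℤ) (T p.1 p.2) := ⟨_, rfl⟩
  rw [← hD] at hm ⊢
  rw [Int.natCast_dvd] at key
  simp only [Int.natAbs_mul] at key
  have g1 : d ∣ Nat.gcd d 3 * (Nat.gcd d (T 0 1).natAbs * Nat.gcd d (T 0 2).natAbs *
      Nat.gcd d (T 0 3).natAbs * Nat.gcd d (T 1 2).natAbs * Nat.gcd d (T 1 3).natAbs *
      Nat.gcd d (T 2 3).natAbs) := by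
    have h0 := Nat.dvd_gcd (dvd_refl d) key
    refine h0.trans ((Nat.gcd_mul_right_dvd_mul_gcd _ _ _).trans (mul_dvd_mul_left _ ?_))
    refine (Nat.gcd_mul_right_dvd_mul_gcd _ _ _).trans (mul_dvd_mul_right ?_ _)
    refine (Nat.gcd_mul_right_dvd_mul_gcd _ _ _).trans (mul_dvd_mul_right ?_ _)
    refine (Nat.gcd_mul_right_dvd_mul_gcd _ _ _).trans (mul_dvd_mul_right ?_ _)
    refine (Nat.gcd_mul_right_dvd_mul_gcd _ _ _).trans (mul_dvd_mul_right ?_ _)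
    exact Nat.gcd_mul_right_dvd_mul_gcd _ _ _
  have gp : ∀ x : ℕ, 0 < Nat.gcd d x := fun x => Nat.gcd_pos_of_pos_left _ hd
  have g2 := Nat.le_of_dvd (by
    have a1 := gp 3
    have a2 := gp (T 0 1).natAbs
    have a3 := gp (T 0 2).natAbs
    have a4 := gp (T 0 3).natAbs
    have a5 := gp (T 1 2).natAbs
    have a6 := gp (T 1 3).natAbs
    have a7 := gp (T 2 3).natAbs
    positivity) g1
  refine g2.trans ?_
  have b0 : Nat.gcd d 3 ≤ 3 := Nat.gcd_le_right _ (by norm_num)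
  have b : Nat.gcd d (T 0 1).natAbs * Nat.gcd d (T 0 2).natAbs *
      Nat.gcd d (T 0 3).natAbs * Nat.gcd d (T 1 2).natAbs * Nat.gcd d (T 1 3).natAbs *
      Nat.gcd d (T 2 3).natAbs ≤ D * D * D * D * D * D :=
    Nat.mul_le_mul (Nat.mul_le_mul (Nat.mul_le_mul (Nat.mul_le_mul (Nat.mul_le_mul
      (hm 0 1 (by decide)) (hm 0 2 (by decide))) (hm 0 3 (by decide))) (hm 1 2 (by decide)))
      (hm 1 3 (by decide))) (hm 2 3 (by decide))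
  calc _ ≤ 3 * (D * D * D * D * D * D) := Nat.mul_le_mul b0 b
    _ = 3 * D ^ 6 := by ring

end ECU
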