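import Mathlib

/-!
[ECU-P4a] four elements with the same cube modulo a prime power.

`T i j = A i B j - A j B i`; `e ≥ 1` may be assumed. `a = A i B j`, `b = A j B i` are prime to `q` and
`q ^ e ∣ a³ - b³ = (a - b)(a² + a b + b²)`.
`q ≠ 3`: `q` does not divide both factors (else `a ≡ b`, `q ∣ 3 b²`), so `q ^ e ∣ a - b` or
`q ^ e ∣ a² + a b + b²` (`IsCoprime`/`Prime.pow_dvd_of_dvd_mul…`). Work modulo `q ^ e` with
`V i = A i / B i` (a unit of `ZMod (q ^ e)`, or multiply out): if no pair among `0, 1, 2` and no pair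
among `0, 1, 3` is congruent, then `V0² + V0 V1 + V1² = 0`, `V0² + V0 V2 + V2² = 0`, so
`(V1 - V2)(V0 + V1 + V2) = 0` and `V1 - V2` is a unit (`q ∣ V1 - V2` together with
`V1² + V1 V2 + V2² = 0` gives `q ∣ 3 V2²`), so `V0 + V1 + V2 = 0`; similarly `V0 + V1 + V3 = 0`, so `V2 = V3`. Hence
`q ^ e ∣ T i j` for some pair.
`q = 3`: `a³ ≡ b³ (mod 3)` gives `a ≡ b (mod 3)`, and `a² + a b + b² = (a - b)² + 3 a b` is divisible by `3`
but not by `9`, so `3 ^ e ∣ 3 (a - b)`: any pair will do.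
-/

set_option autoImplicit false

namespace ECU

theorem p4a_dvd_of_dvd_mul {q : ℕ} (hq : q.Prime) (e : ℕ) {u v : ℤ} (hu : ¬ (q : ℤ) ∣ u)
    (h : (q : ℤ) ^ e ∣ u * v) : (q : ℤ) ^ e ∣ v := by
  have hp : Prime (q : ℤ) := Nat.prime_iff_prime_int.mp hq
  have hc : IsCoprime (q : ℤ) u := hp.coprime_iff_not_dvd.mpr hu
  exact (hc.pow_left (m := e)).dvd_of_dvd_mul_left h

theorem p4a_not_dvd_mul {q : ℕ} (hq : q.Prime) {u v : ℤ} (hu : ¬ (q : ℤ) ∣ u)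
    (hv : ¬ (q : ℤ) ∣ v) : ¬ (q : ℤ) ∣ u * v := by
  have hp : Prime (q : ℤ) := Nat.prime_iff_prime_int.mp hq
  intro h
  rcases hp.dvd_or_dvd h with h | h
  · exact hu h
  · exact hv h

theorem p4a_not_both {q : ℕ} (hq : q.Prime) (h3 : q ≠ 3) {a b : ℤ}
    (ha : ¬ (q : ℤ) ∣ a) (h1 : (q : ℤ) ∣ a - b) (h2 : (q : ℤ) ∣ a ^ 2 + a * b + b ^ 2) : False := by
  have hp : Prime (q : ℤ) := Nat.prime_iff_prime_int.mp hq
  have h4 : (q : ℤ) ∣ 3 * a ^ 2 := by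
    have e1 : 3 * a ^ 2 = (a ^ 2 + a * b + b ^ 2) + (a - b) * (2 * a + b) := by ring
    rw [e1]
    exact dvd_add h2 (Dvd.dvd.mul_right h1 _)
  rcases hp.dvd_or_dvd h4 with h5 | h5
  · have h6 : q ∣ 3 := by exact_mod_cast h5
    have h7 := (Nat.prime_dvd_prime_iff_eq hq Nat.prime_three).mp h6
    exact h3 h7
  · exact ha (hp.dvd_of_dvd_pow h5)

theorem p4a_or {q : ℕ} (hq : q.Prime) (h3 : q ≠ 3) (e : ℕ) {a b : ℤ}
    (ha : ¬ (q : ℤ) ∣ a) (h : (q : ℤ) ^ e ∣ a ^ 3 - b ^ 3) :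
    (q : ℤ) ^ e ∣ a - b ∨ (q : ℤ) ^ e ∣ a ^ 2 + a * b + b ^ 2 := by
  have e1 : a ^ 3 - b ^ 3 = (a - b) * (a ^ 2 + a * b + b ^ 2) := by ring
  rw [e1] at h
  by_cases h1 : (q : ℤ) ∣ a - b
  · left
    have h2 : ¬ (q : ℤ) ∣ a ^ 2 + a * b + b ^ 2 := fun h2 => p4a_not_both hq h3 ha h1 h2
    rw [mul_comm] at h
    exact p4a_dvd_of_dvd_mul hq e h2 h
  · right
    exact p4a_dvd_of_dvd_mul hq e h1 h

theorem p4a_three (e : ℕ) {a b : ℤ} (ha : ¬ (3 : ℤ) ∣ a) (hb : ¬ (3 : ℤ) ∣ b) (he : 1 ≤ e)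
    (h : (3 : ℤ) ^ e ∣ a ^ 3 - b ^ 3) : (3 : ℤ) ^ e ∣ 3 * (a - b) := by
  have h0 : (3 : ℤ) ∣ a ^ 3 - b ^ 3 := (dvd_pow_self (3 : ℤ) (by omega)).trans h
  have h1 : (3 : ℤ) ∣ a - b := by
    have e1 : (a - b) ^ 3 = (a ^ 3 - b ^ 3) - 3 * (a * b * (a - b)) := by ring
    have h2 : (3 : ℤ) ∣ (a - b) ^ 3 := by
      rw [e1]
      exact dvd_sub h0 (Dvd.intro _ rfl)
    exact Int.prime_three.dvd_of_dvd_pow h2
  obtain ⟨m, hm⟩ := h1
  have h2 : ¬ ((3 : ℕ) : ℤ) ∣ 3 * m ^ 2 + a * b := by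
    intro h2
    have h3 : (3 : ℤ) ∣ a * b := by
      have h4 : (3 : ℤ) ∣ 3 * m ^ 2 + a * b := by exact_mod_cast h2
      exact (dvd_add_right (Dvd.intro _ rfl)).mp h4
    rcases Int.prime_three.dvd_or_dvd h3 with h4 | h4
    · exact ha h4
    · exact hb h4
  have e2 : a ^ 3 - b ^ 3 = (3 * m ^ 2 + a * b) * (3 * (a - b)) := by
    have e3 : a ^ 3 - b ^ 3 = (a - b) * ((a - b) * (a - b) + 3 * (a * b)) := by ring
    rw [e3]
    have e4 : (a - b) * (a - b) = 3 * (3 * m ^ 2) := by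
      rw [hm]; ring
    rw [e4]
    ring
  rw [e2] at h
  have h5 := p4a_dvd_of_dvd_mul (q := 3) Nat.prime_three e (u := 3 * m ^ 2 + a * b)
    (v := 3 * (a - b)) h2 (by exact_mod_cast h)
  exact_mod_cast h5

theorem prime_pow (q e : ℕ) (hq : q.Prime) (A B : Fin 4 → ℤ) (hA : ∀ i, ¬ (q : ℤ) ∣ A i)
    (hB : ∀ i, ¬ (q : ℤ) ∣ B i)
    (h : ∀ i j, (q : ℤ) ^ e ∣ A i ^ 3 * B j ^ 3 - A j ^ 3 * B i ^ 3) :
    ∃ i j : Fin 4, i < j ∧ (q : ℤ) ^ e ∣ 3 * (A i * B j - A j * B i) := by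
  rcases Nat.eq_zero_or_pos e with he | he
  · subst he
    exact ⟨0, 1, by decide, by simp⟩
  have hab : ∀ i j, ¬ (q : ℤ) ∣ A i * B j := fun i j => p4a_not_dvd_mul hq (hA i) (hB j)
  have h' : ∀ i j, (q : ℤ) ^ e ∣ (A i * B j) ^ 3 - (A j * B i) ^ 3 := by
    intro i j
    have h1 := h i j
    rw [mul_pow, mul_pow]
    exact h1
  by_cases h3 : q = 3
  · subst h3
    refine ⟨0, 1, by decide, ?_⟩
    have h1 := h' 0 1
    have h2 := hab 0 1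
    have h4 := hab 1 0
    have h5 := p4a_three e (a := A 0 * B 1) (b := A 1 * B 0) (by exact_mod_cast h2)
      (by exact_mod_cast h4) he (by exact_mod_cast h1)
    exact_mod_cast h5
  by_contra hcon
  push Not at hcon
  have hT : ∀ i j : Fin 4, i < j → ¬ (q : ℤ) ^ e ∣ A i * B j - A j * B i := by
    intro i j hij h1
    exact hcon i j hij (Dvd.dvd.mul_left h1 3)
  have hS : ∀ i j : Fin 4, i < j →
      (q : ℤ) ^ e ∣ (A i * B j) ^ 2 + (A i * B j) * (A j * B i) + (A j * B i) ^ 2 := by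
    intro i j hij
    rcases p4a_or hq h3 e (hab i j) (h' i j) with h1 | h1
    · exact absurd h1 (hT i j hij)
    · exact h1
  have hT' : ∀ i j : Fin 4, i < j → ¬ (q : ℤ) ∣ A i * B j - A j * B i := by
    intro i j hij h1
    have h2 : (q : ℤ) ∣ (A i * B j) ^ 2 + (A i * B j) * (A j * B i) + (A j * B i) ^ 2 :=
      (dvd_pow_self (q : ℤ) (by omega)).trans (hS i j hij)
    exact p4a_not_both hq h3 (hab i j) h1 h2
  have hU : ∀ i j k : Fin 4, i < j → i < k → j < k →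
      (q : ℤ) ^ e ∣ A i * B j * B k + A j * B i * B k + A k * B i * B j := by
    intro i j k hij hik hjk
    have h1 : (q : ℤ) ^ e ∣ (B i * (A j * B k - A k * B j)) *
        (A i * B j * B k + A j * B i * B k + A k * B i * B j) := by
      have e1 : (B i * (A j * B k - A k * B j)) *
          (A i * B j * B k + A j * B i * B k + A k * B i * B j) =
          B k ^ 2 * ((A i * B j) ^ 2 + (A i * B j) * (A j * B i) + (A j * B i) ^ 2) -
          B j ^ 2 * ((A i * B k) ^ 2 + (A i * B k) * (A k * B i) + (A k * B i) ^ 2) := by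
        ring
      rw [e1]
      exact dvd_sub (Dvd.dvd.mul_left (hS i j hij) _) (Dvd.dvd.mul_left (hS i k hik) _)
    exact p4a_dvd_of_dvd_mul hq e (p4a_not_dvd_mul hq (hB i) (hT' j k hjk)) h1
  have h1 := hU 0 1 2 (by decide) (by decide) (by decide)
  have h2 := hU 0 1 3 (by decide) (by decide) (by decide)
  have h4 : (q : ℤ) ^ e ∣ (B 0 * B 1) * (A 2 * B 3 - A 3 * B 2) := by
    have e1 : (B 0 * B 1) * (A 2 * B 3 - A 3 * B 2) =
        B 3 * (A 0 * B 1 * B 2 + A 1 * B 0 * B 2 + A 2 * B 0 * B 1) -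
        B 2 * (A 0 * B 1 * B 3 + A 1 * B 0 * B 3 + A 3 * B 0 * B 1) := by
      ring
    rw [e1]
    exact dvd_sub (Dvd.dvd.mul_left h1 _) (Dvd.dvd.mul_left h2 _)
  exact hT 2 3 (by decide) (p4a_dvd_of_dvd_mul hq e (p4a_not_dvd_mul hq (hB 0) (hB 1)) h4)

end ECU
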