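import Pool.Agent.ECU.P2
import Pool.Agent.ECU.P3
import Pool.Agent.ECU.P4

/-!
[ECU-P5] among four solutions two are far apart, `d`-adically.

`A i = x2 i * x3 i`, `B i = x1 i ^ 2` (coprime to `d`: `Tri.coprime`). From
`p2 p3 A³ = (w + t2 d)(w + t3 d) ≡ w² = p1² x1⁶ = p1² B³ (mod d)`:
`p2 p3 (A i³ B j³ - A j³ B i³) ≡ p1² (B i³ B j³ - B j³ B i³) = 0`, and `p2 p3` is coprime to `d`. So
`cubes_mod` gives `i ≠ j` and `D = gcd (d, T)`, `d ≤ 3 D⁶`. `repel`: `D² ≤ κ² v`, `v` the denominator,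
`logHeight_den`: `logHeight₁ ≥ log v ≥ 2 log D - 2 log κ ≥ (log d - log 3)/3 - 2 log κ`, `κ = 2 (t2 + t3)`.
So `C = log 3 / 3 + 2 log κ` works.
-/

set_option autoImplicit false

namespace ECU

theorem pair {P : Pat} (hP : P.Ok) : ∃ C : ℝ, ∀ (d : ℕ) (w x1 x2 x3 : Fin 4 → ℕ),
    (∀ i, Tri P d (w i) (x1 i) (x2 i) (x3 i)) → Function.Injective w →
    ∃ i j : Fin 4, i ≠ j ∧ Real.log d / 3 - C ≤ Height.logHeight₁
      (xd (X P (x1 i) (x2 i) (x3 i)) (Y P d (w i)) (X P (x1 j) (x2 j) (x3 j)) (Y P d (w j))) := by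
  refine ⟨Real.log 3 / 3 + 2 * Real.log ((2 * (P.t2 + P.t3) : ℕ) : ℝ), fun d w x1 x2 x3 h hw => ?_⟩
  have hd : 0 < d := (h 0).d0
  have hk : 0 < 2 * (P.t2 + P.t3) := by
    have := hP.t2
    omega
  let A : Fin 4 → ℤ := fun i => (x2 i : ℤ) * x3 i
  let B : Fin 4 → ℤ := fun i => (x1 i : ℤ) ^ 2
  have hcA : ∀ i, IsCoprime (A i) (d : ℤ) := fun i =>
    IsCoprime.mul_left (Nat.isCoprime_iff_coprime.2 (Tri.coprime (h i)).2.1)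
      (Nat.isCoprime_iff_coprime.2 (Tri.coprime (h i)).2.2.1)
  have hcB : ∀ i, IsCoprime (B i) (d : ℤ) := fun i =>
    IsCoprime.pow_left (Nat.isCoprime_iff_coprime.2 (Tri.coprime (h i)).1)
  have hcp : IsCoprime (d : ℤ) ((P.p2 : ℤ) * P.p3) :=
    (IsCoprime.mul_left (Nat.isCoprime_iff_coprime.2 (Tri.coprime (h 0)).2.2.2.2.1)
      (Nat.isCoprime_iff_coprime.2 (Tri.coprime (h 0)).2.2.2.2.2)).symm
  have hq : ∀ i, (P.p2 : ℤ) * P.p3 * A i ^ 3 = (P.p1 : ℤ) ^ 2 * B i ^ 3 +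
      (d : ℤ) * (((P.t2 : ℤ) + P.t3) * w i + (P.t2 : ℤ) * P.t3 * d) := by
    intro i
    have e1 : (w i : ℤ) = (P.p1 : ℤ) * (x1 i : ℤ) ^ 3 := by exact_mod_cast (h i).e1
    have e2 : (w i : ℤ) + (P.t2 : ℤ) * d = (P.p2 : ℤ) * (x2 i : ℤ) ^ 3 := by
      exact_mod_cast (h i).e2
    have e3 : (w i : ℤ) + (P.t3 : ℤ) * d = (P.p3 : ℤ) * (x3 i : ℤ) ^ 3 := by
      exact_mod_cast (h i).e3
    show (P.p2 : ℤ) * P.p3 * ((x2 i : ℤ) * x3 i) ^ 3 = (P.p1 : ℤ) ^ 2 * ((x1 i : ℤ) ^ 2) ^ 3 + _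
    have e4 : (P.p1 : ℤ) ^ 2 * ((x1 i : ℤ) ^ 2) ^ 3 = (w i : ℤ) ^ 2 := by
      rw [e1]
      ring
    rw [e4]
    calc (P.p2 : ℤ) * P.p3 * ((x2 i : ℤ) * x3 i) ^ 3
        = ((P.p2 : ℤ) * (x2 i : ℤ) ^ 3) * ((P.p3 : ℤ) * (x3 i : ℤ) ^ 3) := by ring
      _ = ((w i : ℤ) + (P.t2 : ℤ) * d) * ((w i : ℤ) + (P.t3 : ℤ) * d) := by rw [e2, e3]
      _ = _ := by ring
  have hdiv : ∀ i j, (d : ℤ) ∣ A i ^ 3 * B j ^ 3 - A j ^ 3 * B i ^ 3 := by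
    intro i j
    refine hcp.dvd_of_dvd_mul_left ⟨(((P.t2 : ℤ) + P.t3) * w i + (P.t2 : ℤ) * P.t3 * d) * B j ^ 3 -
      (((P.t2 : ℤ) + P.t3) * w j + (P.t2 : ℤ) * P.t3 * d) * B i ^ 3, ?_⟩
    linear_combination B j ^ 3 * hq i - B i ^ 3 * hq j
  obtain ⟨i, j, hij, hle⟩ := cubes_mod d hd A B hcA hcB hdiv
  set D : ℕ := Int.gcd (d : ℤ) (A i * B j - A j * B i) with hD
  have hD0 : 0 < D := Int.gcd_pos_of_ne_zero_left _ (by exact_mod_cast hd.ne')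
  have hDd : D ∣ d := by
    have : (D : ℤ) ∣ (d : ℤ) := Int.gcd_dvd_left _ _
    exact Int.natCast_dvd_natCast.1 this
  have hT : (D : ℤ) ∣ (x2 i : ℤ) * x3 i * (x1 j : ℤ) ^ 2 - (x2 j : ℤ) * x3 j * (x1 i : ℤ) ^ 2 :=
    Int.gcd_dvd_right _ _
  have hrep := repel hP (h i) (h j) (fun he => hij (hw he)) hDd hT
  refine ⟨i, j, hij, ?_⟩
  set q := xd (X P (x1 i) (x2 i) (x3 i)) (Y P d (w i)) (X P (x1 j) (x2 j) (x3 j)) (Y P d (w j))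
    with hq'
  refine le_trans ?_ (logHeight_den q)
  have hden : 0 < q.den := q.den_pos
  have hDR : (0 : ℝ) < D := by exact_mod_cast hD0
  have hkR : (0 : ℝ) < ((2 * (P.t2 + P.t3) : ℕ) : ℝ) := by exact_mod_cast hk
  have hdR : (0 : ℝ) < d := by exact_mod_cast hd
  have hdenR : (0 : ℝ) < q.den := by exact_mod_cast hden
  have l1 : Real.log d ≤ Real.log 3 + 6 * Real.log D := by
    have e : (d : ℝ) ≤ 3 * (D : ℝ) ^ 6 := by exact_mod_cast hle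
    have e2 := Real.log_le_log hdR e
    rwa [Real.log_mul (by norm_num) (by positivity), Real.log_pow] at e2
  have l2 : 2 * Real.log D ≤ 2 * Real.log ((2 * (P.t2 + P.t3) : ℕ) : ℝ) + Real.log q.den := by
    have e : (D : ℝ) ^ 2 ≤ ((2 * (P.t2 + P.t3) : ℕ) : ℝ) ^ 2 * q.den := by exact_mod_cast hrep
    have e2 := Real.log_le_log (by positivity) e
    rw [Real.log_mul (by positivity) hdenR.ne', Real.log_pow, Real.log_pow] at e2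
    exact_mod_cast e2
  have l1' : Real.log d ≤ Real.log 3 + 6 * Real.log D := l1
  linarith

end ECU
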