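import Pool.Agent.ECU.P2

/-!
[ECU-P6] two solutions are far apart for the real absolute value, `d⁴ ≤ N`.

`Y = A (t2 + t3) + B d / w`, `A = 4 τ p1`, `B = 2 A t2 t3`. With `D = Y - Y'`, `|D| ≤ B η`, `η = E k d / N`, and
`(N (B η)²)⁴ ≤ (B E)⁸ / N ≤ 1`, so `N D² ≤ 1`. With `S = X² + X X' + X'²`, `D (Y + Y') = (X - X') S`, so
`(Y + Y')/(X - X') = S / D` and `xd = S²/D² - X - X' ≥ N S² - X - X'`. `X³ = Y² - c ≥ 4 A² t2 t3 ≥ 64`, so
`X, X' ≥ 4`, `S ≥ 48`, `S ≥ 4 (X + X')`, and `xd ≥ N`. `logHeight_ge`.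
-/

set_option autoImplicit false

namespace ECU

/-- the formula for `Y` -/
theorem p6_Y (P : Pat) (d w : ℕ) : Y P d w = 4 * P.tau * P.p1 * ((P.t2 : ℚ) + P.t3) +
    8 * P.tau * P.p1 * P.t2 * P.t3 * ((d : ℚ) / w) := by
  unfold Y
  ring

theorem p6_tau {P : Pat} (hP : P.Ok) : 0 < P.tau := by
  unfold Pat.tau
  have h1 := hP.t2
  have h2 := hP.t3
  have h3 := hP.p2
  have h4 := hP.p3
  have h5 : 0 < P.t3 := h1.trans h2
  positivity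

theorem p6_X {P : Pat} (hP : P.Ok) {d w x1 x2 x3 : ℕ} (h : Tri P d w x1 x2 x3) :
    4 ≤ X P x1 x2 x3 := by
  have h1 := on_curve h
  have hτ : (1 : ℚ) ≤ P.tau := by exact_mod_cast p6_tau hP
  have hp : (1 : ℚ) ≤ P.p1 := by exact_mod_cast hP.p1
  have h2 : (1 : ℚ) ≤ P.t2 := by exact_mod_cast hP.t2
  have h3 : (1 : ℚ) ≤ P.t3 := by exact_mod_cast (hP.t2.trans hP.t3 : 0 < P.t3)
  have hA : (1 : ℚ) ≤ P.tau * P.p1 := one_le_mul_of_one_le_of_one_le hτ hp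
  have hδ : (0 : ℚ) ≤ (d : ℚ) / w := by positivity
  have hY : 4 * P.tau * P.p1 * ((P.t2 : ℚ) + P.t3) ≤ Y P d w := by
    rw [p6_Y]
    have : (0 : ℚ) ≤ 8 * P.tau * P.p1 * P.t2 * P.t3 * ((d : ℚ) / w) := by positivity
    linarith
  have hY2 : (4 * P.tau * P.p1 * ((P.t2 : ℚ) + P.t3)) ^ 2 ≤ Y P d w ^ 2 :=
    pow_le_pow_left₀ (by positivity) hY 2
  have hc : (P.c : ℚ) = 16 * ((P.t3 : ℚ) - P.t2) ^ 2 * P.p1 ^ 2 * P.tau ^ 2 := by
    unfold Pat.c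
    push_cast
    ring
  have hX3 : (4 : ℚ) ^ 3 ≤ X P x1 x2 x3 ^ 3 := by
    have e1 : X P x1 x2 x3 ^ 3 = Y P d w ^ 2 - (P.c : ℚ) := by rw [h1]; ring
    have e2 : (4 * P.tau * P.p1 * ((P.t2 : ℚ) + P.t3)) ^ 2 - (P.c : ℚ) =
        64 * (((P.tau : ℚ) * P.p1) ^ 2 * (P.t2 * P.t3)) := by
      rw [hc]; ring
    have e3 : (1 : ℚ) ≤ ((P.tau : ℚ) * P.p1) ^ 2 * (P.t2 * P.t3) :=
      one_le_mul_of_one_le_of_one_le (one_le_pow₀ hA) (one_le_mul_of_one_le_of_one_le h2 h3)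
    rw [e1]
    linarith
  have hX0 : 0 ≤ X P x1 x2 x3 := by unfold X; positivity
  exact le_of_pow_le_pow_left₀ (by norm_num) hX0 hX3

/-- the core inequality -/
theorem p6_core {x x' y y' c n : ℚ} (hx : 4 ≤ x) (hx' : 4 ≤ x') (hne : x ≠ x')
    (h : y ^ 2 = x ^ 3 + c) (h' : y' ^ 2 = x' ^ 3 + c) (hn : 1 ≤ n)
    (hD : n * (y - y') ^ 2 ≤ 1) : n ≤ xd x y x' y' := by
  have hxx : x - x' ≠ 0 := sub_ne_zero.2 hne
  have hS : (x - x') * (x ^ 2 + x * x' + x' ^ 2) = (y - y') * (y + y') := by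
    linear_combination h' - h
  have hS48 : 48 ≤ x ^ 2 + x * x' + x' ^ 2 := by nlinarith
  have hS4 : 4 * (x + x') ≤ x ^ 2 + x * x' + x' ^ 2 := by nlinarith
  have hD0 : y - y' ≠ 0 := by
    intro h0
    rw [h0, zero_mul] at hS
    rcases mul_eq_zero.1 hS with h1 | h1
    · exact hxx h1
    · linarith
  set S := x ^ 2 + x * x' + x' ^ 2 with hSd
  have hu : (y + y') / (x - x') = S / (y - y') := by
    rw [div_eq_div_iff hxx hD0]
    linear_combination -hS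
  have hD2 : 0 < (y - y') ^ 2 := by positivity
  have h1 : n * S ^ 2 ≤ (S / (y - y')) ^ 2 := by
    rw [div_pow, le_div_iff₀ hD2]
    have : n * S ^ 2 * (y - y') ^ 2 = S ^ 2 * (n * (y - y') ^ 2) := by ring
    rw [this]
    have h2 : 0 ≤ S ^ 2 := sq_nonneg S
    nlinarith
  have h2 : 48 * (4 * (x + x')) ≤ S ^ 2 := by
    rw [pow_two]
    exact mul_le_mul hS48 hS4 (by linarith) (by linarith)
  have h3 : x + x' + 1 ≤ S ^ 2 := by linarith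
  have h4 : (x + x' + 1) - 1 ≤ S ^ 2 - 1 := by linarith
  have h5 : S ^ 2 - 1 ≤ n * (S ^ 2 - 1) := by
    have : 0 ≤ S ^ 2 - 1 := by linarith
    nlinarith
  unfold xd
  rw [hu]
  linarith

theorem arch {P : Pat} (hP : P.Ok) (E : ℕ) : ∃ N0 : ℕ, ∀ k N d w x1 x2 x3 w' z1 z2 z3 : ℕ,
    N0 ≤ N → k ^ 8 ≤ N → d ^ 4 ≤ N → N ≤ E * k * w → N ≤ E * k * w' → w ≠ w' →
    Tri P d w x1 x2 x3 → Tri P d w' z1 z2 z3 →
    Real.log N ≤ Height.logHeight₁ (xd (X P x1 x2 x3) (Y P d w) (X P z1 z2 z3) (Y P d w')) := by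
  refine ⟨(8 * P.tau * P.p1 * P.t2 * P.t3 * E) ^ 8 + 1, ?_⟩
  intro k N d w x1 x2 x3 w' z1 z2 z3 hN hk hd hw hw' hne h h'
  have hN1 : 1 ≤ N := le_trans (Nat.le_add_left 1 _) hN
  have hNq : (1 : ℚ) ≤ N := by exact_mod_cast hN1
  have hN0 : (0 : ℚ) < N := by linarith
  have hw0 : (0 : ℚ) < w := by exact_mod_cast h.w0
  have hw0' : (0 : ℚ) < w' := by exact_mod_cast h'.w0
  set B : ℚ := 8 * P.tau * P.p1 * P.t2 * P.t3 with hB
  have hB0 : 0 ≤ B := by rw [hB]; positivity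
  set η : ℚ := E * k * d / N with hη
  have hη0 : 0 ≤ η := by rw [hη]; positivity
  have e1 : (d : ℚ) / w ≤ η := by
    rw [hη, div_le_div_iff₀ hw0 hN0]
    have : (N : ℚ) ≤ E * k * w := by exact_mod_cast hw
    have hd0 : (0 : ℚ) ≤ d := Nat.cast_nonneg d
    nlinarith
  have e2 : (d : ℚ) / w' ≤ η := by
    rw [hη, div_le_div_iff₀ hw0' hN0]
    have : (N : ℚ) ≤ E * k * w' := by exact_mod_cast hw'
    have hd0 : (0 : ℚ) ≤ d := Nat.cast_nonneg d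
    nlinarith
  have e1' : (0 : ℚ) ≤ (d : ℚ) / w := by positivity
  have e2' : (0 : ℚ) ≤ (d : ℚ) / w' := by positivity
  have hDe : Y P d w - Y P d w' = B * ((d : ℚ) / w - (d : ℚ) / w') := by
    rw [p6_Y, p6_Y, hB]
    ring
  have hab : |(d : ℚ) / w - (d : ℚ) / w'| ≤ η := by
    rw [abs_le]
    constructor <;> linarith
  have hD1 : (Y P d w - Y P d w') ^ 2 ≤ (B * η) ^ 2 := by
    rw [hDe, mul_pow B, mul_pow B]
    have hsq : ((d : ℚ) / w - (d : ℚ) / w') ^ 2 ≤ η ^ 2 :=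
      sq_le_sq' (by rw [abs_le] at hab; linarith [hab.1]) (abs_le.1 hab).2
    exact mul_le_mul_of_nonneg_left hsq (sq_nonneg B)
  have hpow : ((N : ℚ) * (B * η) ^ 2) ^ 4 ≤ 1 := by
    have hkq : (k : ℚ) ^ 8 ≤ N := by exact_mod_cast hk
    have hdq : (d : ℚ) ^ 4 ≤ N := by exact_mod_cast hd
    have hd8 : (d : ℚ) ^ 8 ≤ (N : ℚ) ^ 2 := by
      have := pow_le_pow_left₀ (by positivity : (0 : ℚ) ≤ (d : ℚ) ^ 4) hdq 2
      rwa [← pow_mul] at this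
    have hkd : (k : ℚ) ^ 8 * (d : ℚ) ^ 8 ≤ (N : ℚ) ^ 3 := by
      calc (k : ℚ) ^ 8 * (d : ℚ) ^ 8 ≤ N * (N : ℚ) ^ 2 :=
            mul_le_mul hkq hd8 (by positivity) (by positivity)
        _ = (N : ℚ) ^ 3 := by ring
    have hBE : (B * E) ^ 8 ≤ N := by
      have : ((8 * P.tau * P.p1 * P.t2 * P.t3 * E : ℕ) : ℚ) ^ 8 ≤ N := by
        exact_mod_cast le_trans (Nat.le_succ _) hN
      rw [hB]
      push_cast at this
      exact this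
    have e3 : ((N : ℚ) * (B * η) ^ 2) ^ 4 = (B * E) ^ 8 * ((k : ℚ) ^ 8 * (d : ℚ) ^ 8) / N ^ 4 := by
      rw [hη]
      field_simp
    rw [e3, div_le_one (by positivity)]
    calc (B * E) ^ 8 * ((k : ℚ) ^ 8 * (d : ℚ) ^ 8) ≤ N * (N : ℚ) ^ 3 :=
          mul_le_mul hBE hkd (by positivity) (by positivity)
      _ = (N : ℚ) ^ 4 := by ring
  have hNB : (0 : ℚ) ≤ (N : ℚ) * (B * η) ^ 2 := by positivity
  have hD2 : (N : ℚ) * (B * η) ^ 2 ≤ 1 := by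
    by_contra hlt
    have := one_lt_pow₀ (not_le.1 hlt) (four_ne_zero)
    linarith
  have hD3 : (N : ℚ) * (Y P d w - Y P d w') ^ 2 ≤ 1 :=
    (mul_le_mul_of_nonneg_left hD1 hN0.le).trans hD2
  have hmain := p6_core (p6_X hP h) (p6_X hP h') (X_ne hP h h' hne) (on_curve h) (on_curve h')
    hNq hD3
  have hpos : 0 < xd (X P x1 x2 x3) (Y P d w) (X P z1 z2 z3) (Y P d w') := by linarith
  refine le_trans ?_ (logHeight_ge _ hpos)
  have hR : (N : ℝ) ≤ ((xd (X P x1 x2 x3) (Y P d w) (X P z1 z2 z3) (Y P d w') : ℚ) : ℝ) := by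
    exact_mod_cast hmain
  exact Real.log_le_log (by exact_mod_cast hN1) hR

end ECU
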