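import Pool.Agent.ECU.E6
import Pool.Agent.ECU.P5
import Pool.Agent.ECU.P6
import Pool.Agent.EAP.Q5

/-!
[ECU-P7] a bounded number of solutions for `N ≥ k⁸`.

`grp P.c` (`c_ne`) gives `G, h, pt`. For `w ∈ s` choose `x1, x2, x3` (from `In`) and let
`Q w = pt (X P x1 x2 x3) (Y P d w) (on_curve _)`; `Q` is injective on `s` (`pt` injective, `Y_inj`), and
`h (Q w) = logHeight₁ (X …) ≤ 2 log N` (`X_height`). `EAP.pack` with `A = 2`, `B = 1/24`, `R = log N`: if
`#s > C` (its `N`), and `log N ≥ R0`, then five points of the image of `s` have pairwise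
`h (Q w - Q w') ≤ (1/24) log N`; and `h (Q w - Q w') = logHeight₁ (xd …)` for `w ≠ w'` (`X_ne`).
If `d⁴ ≤ N`: `arch` gives `≥ log N` for two of them, a contradiction (`log N > 0`). If `d⁴ > N`: four of them and
`pair` give two with `≥ log d / 3 - C' ≥ (1/12) log N - C' > (1/24) log N` for `N` large, a contradiction.
-/

set_option autoImplicit false

namespace ECU

theorem few_large (P : Pat) (hP : P.Ok) (E : ℕ) : ∃ C N0 : ℕ, ∀ k N d : ℕ, k ^ 8 ≤ N → N0 ≤ N →
    ∀ s : Finset ℕ, (∀ w ∈ s, In P E k N d w) → s.card ≤ C := by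
  classical
  obtain ⟨G, inst, h, pt, hfg, h0, ⟨C, hC⟩, -, hpt, hinj, hsub⟩ := grp P.c (c_ne hP)
  obtain ⟨Np, R0, hpack⟩ := EAP.pack hfg h h0 C hC (A := 2) (B := 1 / 24) (by norm_num)
    (by norm_num)
  obtain ⟨C', hpair⟩ := pair hP
  obtain ⟨N1, hX⟩ := X_height P
  obtain ⟨N2, harch⟩ := arch hP E
  refine ⟨Np, N1 + N2 + 3 + ⌈Real.exp R0⌉₊ + ⌈Real.exp (24 * C' + 1)⌉₊, ?_⟩
  intro k N d hk hN0 s hs
  by_contra hcard
  rw [not_le] at hcard
  have hN1 : N1 ≤ N := by omega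
  have hN2 : N2 ≤ N := by omega
  have hN3 : 3 ≤ N := by omega
  have hN3' : (3 : ℝ) ≤ N := by exact_mod_cast hN3
  have hNpos : (0 : ℝ) < N := by linarith
  have hlog : 0 < Real.log N := Real.log_pos (by linarith)
  have hR0 : R0 ≤ Real.log N := by
    rw [Real.le_log_iff_exp_le hNpos]
    exact (Nat.le_ceil _).trans (by exact_mod_cast (by omega : ⌈Real.exp R0⌉₊ ≤ N))
  have hC'0 : 24 * C' + 1 ≤ Real.log N := by
    rw [Real.le_log_iff_exp_le hNpos]
    exact (Nat.le_ceil _).trans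
      (by exact_mod_cast (by omega : ⌈Real.exp (24 * C' + 1)⌉₊ ≤ N))
  have h3 : ∀ w : {w // w ∈ s}, ∃ x1 x2 x3 : ℕ, Tri P d w x1 x2 x3 := fun w => (hs w w.2).2.2
  choose x1 x2 x3 hT using h3
  set Q : {w // w ∈ s} → G :=
    fun w => pt (X P (x1 w) (x2 w) (x3 w)) (Y P d w) (on_curve (hT w)) with hQ
  have hQi : Function.Injective Q := by
    intro a b hab
    have h4 := (hinj _ _ _ _ _ _ hab).2
    exact Subtype.ext (Y_inj hP (hT a).d0 (hT a).w0 (hT b).w0 h4)
  obtain ⟨t, htT, htc, htt⟩ := hpack (Real.log N) hR0 (s.attach.image Q) (by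
    intro x hx
    obtain ⟨w, -, rfl⟩ := Finset.mem_image.1 hx
    rw [hQ]
    dsimp only
    rw [hpt]
    exact hX N d w _ _ _ hN1 (hT w) hP.t3.le (hs w w.2).1) (by
    rw [Finset.card_image_of_injective _ hQi, Finset.card_attach]
    exact hcard)
  have hne : Nonempty (Fin 4 ↪ {x // x ∈ t}) := by
    refine Function.Embedding.nonempty_of_card_le ?_
    rw [Fintype.card_fin, Fintype.card_coe, htc]
    norm_num
  obtain ⟨f⟩ := hne
  have h5 : ∀ i : Fin 4, ∃ w : {w // w ∈ s}, Q w = (f i : G) := by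
    intro i
    obtain ⟨w, -, hw⟩ := Finset.mem_image.1 (htT (f i).2)
    exact ⟨w, hw⟩
  choose w hw using h5
  have hwi : Function.Injective w := by
    intro i j hij
    have h6 : (f i : G) = (f j : G) := by rw [← hw i, ← hw j, hij]
    exact f.injective (Subtype.ext h6)
  have hdiff : ∀ i j : Fin 4, i ≠ j → Height.logHeight₁
      (xd (X P (x1 (w i)) (x2 (w i)) (x3 (w i))) (Y P d (w i))
        (X P (x1 (w j)) (x2 (w j)) (x3 (w j))) (Y P d (w j))) ≤ 1 / 24 * Real.log N := by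
    intro i j hij
    have hne : ((w i : ℕ)) ≠ (w j : ℕ) := fun h7 => hij (hwi (Subtype.ext h7))
    have h8 := hsub _ _ (on_curve (hT (w i))) _ _ (on_curve (hT (w j)))
      (X_ne hP (hT (w i)) (hT (w j)) hne)
    have h9 := htt (f i) (f i).2 (f j) (f j).2
    rw [← hw i, ← hw j] at h9
    rw [← h8]
    exact h9
  rcases le_or_gt (d ^ 4) N with hd | hd
  · have hne : ((w 0 : ℕ)) ≠ (w 1 : ℕ) := fun h7 =>
      absurd (hwi (Subtype.ext h7)) (by decide)
    have h7 := harch k N d (w 0) (x1 (w 0)) (x2 (w 0)) (x3 (w 0)) (w 1) (x1 (w 1)) (x2 (w 1))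
      (x3 (w 1)) hN2 hk hd (hs _ (w 0).2).2.1 (hs _ (w 1).2).2.1 hne (hT (w 0)) (hT (w 1))
    have h8 := hdiff 0 1 (by decide)
    linarith
  · obtain ⟨i, j, hij, h7⟩ := hpair d (fun i => w i) (fun i => x1 (w i)) (fun i => x2 (w i))
      (fun i => x3 (w i)) (fun i => hT (w i)) (fun a b hab => hwi (Subtype.ext hab))
    have h8 := hdiff i j hij
    have h9 : Real.log N ≤ 4 * Real.log d := by
      have h10 : Real.log N ≤ Real.log ((d : ℝ) ^ 4) :=
        Real.log_le_log hNpos (by exact_mod_cast hd.le)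
      rw [Real.log_pow] at h10
      exact_mod_cast h10
    linarith

end ECU
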