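import Mathlib

/-!
[ECU-R1] `p² + 3 q²` an odd cube, `p, q` coprime: `p + q √-3` is a cube in `ℤ[√-3]`.

Proof in `ℤ[ω]` (`𝓞 (CyclotomicField 3 ℚ)`, a principal ideal domain: `IsCyclotomicExtension.Rat.three_pid`,
units: `IsCyclotomicExtension.Rat.Three.Units.mem`; or an own model `a + b ω` with the Euclidean norm
`a² - a b + b²`). `√-3 = 1 + 2 ω`, `z = p + q √-3 = (p + q) + 2 q ω`, norm `p² + 3 q² = s³`. `z` and its
conjugate are coprime: a common prime `π` divides `2 p` and `2 q √-3` and `s³` (odd), so `π ∣ p` and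
`π ∣ q √-3`; `π ∤ q` (`p, q` coprime), so `π` is associated to `√-3`, `3 ∣ s³`, `3 ∣ p`, `9 ∣ s³`, hence
`3 ∣ q²`: contradiction. So `z = ε t³` with a unit `ε`
(`exists_associated_pow_of_mul_eq_pow`), and `-1 = (-1)³`, so we may take `ε ∈ {1, ω, ω²}`. Modulo `2`: `t` is
not divisible by `2` (odd norm) and `ℤ[ω]/2` has `4` elements, so `t³ ≡ 1`; `z ≡ p + q ≡ 1` (`p² + 3 q²` odd),
so `ε ≡ 1`, `ε = 1`. Multiply `t` by a power of `ω` (same cube) so that `t ≡ 1 (mod 2)`, i.e.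
`t = a + b ω` with `b` even: `t = u + v √-3` with integers `u, v` (`v = b / 2`, `u = a - v`). Compare coefficients:
`(u + v √-3)³ = (u³ - 9 u v²) + (3 u² v - 3 v³) √-3`.
Alternative: elementary descent (every divisor of `p² + 3 q²`, `p, q` coprime, odd, is of this form),
multiplying out one prime factor at a time.
-/

set_option autoImplicit false

namespace ECU

/-- An odd divisor `s` of `r² + 3` is `u² + 3 v²` with `u ≡ r v (mod s)`. -/
theorem r1_rep (n : ℕ) : ∀ s : ℤ, s.toNat = n → 0 < s → Odd s → ∀ r : ℤ, s ∣ r ^ 2 + 3 →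
    ∃ u v : ℤ, u ^ 2 + 3 * v ^ 2 = s ∧ s ∣ u - r * v := by
  induction n using Nat.strong_induction_on with
  | _ n ih =>
    intro s hn hs hodd r hr
    by_cases h1 : s = 1
    · exact ⟨1, 0, by rw [h1]; norm_num, by rw [h1]; exact one_dvd _⟩
    have hs3 : 3 ≤ s := by
      obtain ⟨j, hj⟩ := hodd
      omega
    obtain ⟨r1, hr1, he, hlo, hhi⟩ : ∃ r1 : ℤ, s ∣ r - r1 ∧ Even r1 ∧ 1 - s ≤ r1 ∧ r1 ≤ s - 1 := by
      have ha := Int.emod_nonneg r hs.ne'
      have hb := Int.emod_lt_of_pos r hs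
      have hd : s ∣ r - r % s := Int.dvd_self_sub_emod
      rcases Int.even_or_odd (r % s) with h | h
      · exact ⟨r % s, hd, h, by omega, by omega⟩
      · refine ⟨r % s - s, ?_, h.sub_odd hodd, ?_, by omega⟩
        · have e : r - (r % s - s) = (r - r % s) + s := by ring
          rw [e]
          exact dvd_add hd (dvd_refl s)
        · obtain ⟨j, hj⟩ := h
          omega
    have hr1' : s ∣ r1 ^ 2 + 3 := by
      have e : r1 ^ 2 + 3 = (r ^ 2 + 3) - (r - r1) * (r + r1) := by ring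
      rw [e]
      exact dvd_sub hr (Dvd.dvd.mul_right hr1 _)
    obtain ⟨k, hk⟩ := hr1'
    have hk0 : 0 < k := by
      have h2 : 0 < s * k := by rw [← hk]; positivity
      exact (mul_pos_iff_of_pos_left hs).1 h2
    have hks : k < s := by
      have h2 : r1 ^ 2 ≤ (s - 1) ^ 2 := by
        apply sq_le_sq'
        · linarith
        · exact hhi
      have h3 : s * k < s * s := by
        rw [← hk]
        linarith
      exact lt_of_mul_lt_mul_left h3 hs.le
    have hkodd : Odd k := by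
      have h2 : Odd (s * k) := by
        rw [← hk]
        obtain ⟨j, hj⟩ := he
        exact ⟨2 * j ^ 2 + 1, by rw [hj]; ring⟩
      exact (Int.odd_mul.1 h2).2
    obtain ⟨u', v', huv, hdv⟩ := ih k.toNat (by omega) k rfl hk0 hkodd r1 ⟨s, by rw [hk]; ring⟩
    obtain ⟨v, hv⟩ := hdv
    refine ⟨r1 * v + s * v', v, ?_, ?_⟩
    · have h2 : k ^ 2 * ((r1 * v + s * v') ^ 2 + 3 * v ^ 2) = k ^ 2 * s := by
        have e1 : k * (r1 * v + s * v') = r1 * u' + 3 * v' := by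
          linear_combination (-r1) * hv - v' * hk
        have e2 : k ^ 2 * ((r1 * v + s * v') ^ 2 + 3 * v ^ 2) =
            (k * (r1 * v + s * v')) ^ 2 + 3 * (k * v) ^ 2 := by ring
        rw [e2, e1, ← hv]
        have e3 : (r1 * u' + 3 * v') ^ 2 + 3 * (u' - r1 * v') ^ 2 =
            (r1 ^ 2 + 3) * (u' ^ 2 + 3 * v' ^ 2) := by ring
        rw [e3, huv, hk]
        ring
      exact mul_left_cancel₀ (pow_ne_zero 2 hk0.ne') h2
    · have e : r1 * v + s * v' - r * v = s * v' - (r - r1) * v := by ring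
      rw [e]
      exact dvd_sub (dvd_mul_right s v') (Dvd.dvd.mul_right hr1 v)

theorem rep_cube (p q s : ℤ) (hpq : IsCoprime p q) (hodd : Odd s) (h : p ^ 2 + 3 * q ^ 2 = s ^ 3) :
    ∃ u v : ℤ, p = u ^ 3 - 9 * u * v ^ 2 ∧ q = 3 * u ^ 2 * v - 3 * v ^ 3 := by
  have hn0 : 0 < s ^ 3 := by
    rw [← h]
    by_cases hp : p = 0
    · have hq : q ≠ 0 := by
        rintro rfl
        rw [hp] at hpq
        exact not_isCoprime_zero_zero hpq
      have : 0 < q ^ 2 := by positivity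
      nlinarith [sq_nonneg p]
    · have : 0 < p ^ 2 := by positivity
      nlinarith [sq_nonneg q]
  have hs0 : 0 < s := by
    by_contra hneg
    push Not at hneg
    have : s ^ 3 ≤ 0 := by
      have e : s ^ 3 = s * s ^ 2 := by ring
      rw [e]
      exact mul_nonpos_of_nonpos_of_nonneg hneg (sq_nonneg s)
    omega
  have hcop : IsCoprime (s ^ 3) q := by
    rw [← h]
    have e : p ^ 2 + 3 * q ^ 2 = p ^ 2 + q * (3 * q) := by ring
    rw [e]
    exact (hpq.pow_left (m := 2)).add_mul_left_left (3 * q)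
  obtain ⟨a, b, hab⟩ := hcop
  obtain ⟨r, hr⟩ : ∃ r : ℤ, r = p * b := ⟨_, rfl⟩
  have hpr : p - r * q = s ^ 3 * (p * a) := by
    rw [hr]
    linear_combination (-p) * hab
  have hr3 : s ^ 3 * (b ^ 2 + 3 * a * (1 + b * q)) = r ^ 2 + 3 := by
    rw [hr]
    linear_combination (-(b ^ 2)) * h + (3 * (1 + b * q)) * hab
  have hsn : s ∣ r ^ 2 + 3 := by
    rw [← hr3]
    exact Dvd.dvd.mul_right (dvd_pow_self s (by norm_num)) _
  obtain ⟨u, v, huv, hdv⟩ := r1_rep s.toNat s rfl hs0 hodd r hsn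
  obtain ⟨U, hU⟩ : ∃ U : ℤ, U = u ^ 3 - 9 * u * v ^ 2 := ⟨_, rfl⟩
  obtain ⟨V, hV⟩ : ∃ V : ℤ, V = 3 * u ^ 2 * v - 3 * v ^ 3 := ⟨_, rfl⟩
  have hUV : U ^ 2 + 3 * V ^ 2 = s ^ 3 := by
    rw [hU, hV, ← huv]
    ring
  have hd1 : s ^ 3 ∣ r ^ 2 + 3 := ⟨_, hr3.symm⟩
  have hd2 : s ^ 3 ∣ U - r * V := by
    have e : U - r * V = (u - r * v) ^ 3 + (r ^ 2 + 3) * (r * v ^ 3 - 3 * u * v ^ 2) := by
      rw [hU, hV]
      ring
    rw [e]
    exact dvd_add (pow_dvd_pow_of_dvd hdv 3) (Dvd.dvd.mul_right hd1 _)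
  have hd3 : s ^ 3 ∣ p - r * q := ⟨_, hpr⟩
  obtain ⟨A, hA⟩ : s ^ 3 ∣ p * V - q * U := by
    have e : p * V - q * U = (p - r * q) * V - (U - r * V) * q := by ring
    rw [e]
    exact dvd_sub (Dvd.dvd.mul_right hd3 _) (Dvd.dvd.mul_right hd2 _)
  obtain ⟨B, hB⟩ : s ^ 3 ∣ p * U + 3 * q * V := by
    have e : p * U + 3 * q * V = (p - r * q) * U + (U - r * V) * (q * r) +
        (r ^ 2 + 3) * (q * V) := by ring
    rw [e]
    exact dvd_add (dvd_add (Dvd.dvd.mul_right hd3 _) (Dvd.dvd.mul_right hd2 _))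
      (Dvd.dvd.mul_right hd1 _)
  have hAB : 3 * A ^ 2 + B ^ 2 = 1 := by
    have e : (s ^ 3) ^ 2 * (3 * A ^ 2 + B ^ 2) = (s ^ 3) ^ 2 * 1 := by
      have e1 : (s ^ 3) ^ 2 * (3 * A ^ 2 + B ^ 2) = 3 * (s ^ 3 * A) ^ 2 + (s ^ 3 * B) ^ 2 := by
        ring
      rw [e1, ← hA, ← hB]
      have e2 : 3 * (p * V - q * U) ^ 2 + (p * U + 3 * q * V) ^ 2 =
          (p ^ 2 + 3 * q ^ 2) * (U ^ 2 + 3 * V ^ 2) := by ring
      rw [e2, h, hUV]
      ring
    exact mul_left_cancel₀ (pow_ne_zero 2 hn0.ne') e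
  have hA0 : A = 0 := by
    by_contra hne
    have : 0 < A ^ 2 := by positivity
    nlinarith [sq_nonneg B]
  have hB1 : B = 1 ∨ B = -1 := by
    rw [hA0] at hAB
    have hB2 : (B - 1) * (B + 1) = 0 := by linarith
    rcases mul_eq_zero.1 hB2 with h1 | h1
    · left; linarith
    · right; linarith
  rw [hA0, mul_zero] at hA
  have hpU : p = B * U := by
    have e : s ^ 3 * p = s ^ 3 * (B * U) := by
      calc s ^ 3 * p = p * (U ^ 2 + 3 * V ^ 2) := by rw [hUV]; ring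
        _ = U * (p * U + 3 * q * V) + 3 * V * (p * V - q * U) := by ring
        _ = s ^ 3 * (B * U) := by rw [hA, hB]; ring
    exact mul_left_cancel₀ hn0.ne' e
  have hqV : q = B * V := by
    have e : s ^ 3 * q = s ^ 3 * (B * V) := by
      calc s ^ 3 * q = q * (U ^ 2 + 3 * V ^ 2) := by rw [hUV]; ring
        _ = V * (p * U + 3 * q * V) - U * (p * V - q * U) := by ring
        _ = s ^ 3 * (B * V) := by rw [hA, hB]; ring
    exact mul_left_cancel₀ hn0.ne' e
  rcases hB1 with hB1 | hB1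
  · exact ⟨u, v, by rw [hpU, hB1, hU]; ring, by rw [hqV, hB1, hV]; ring⟩
  · exact ⟨-u, -v, by rw [hpU, hB1, hU]; ring, by rw [hqV, hB1, hV]; ring⟩

end ECU
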