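import Mathlib

/-!
[ECU-R2a] three pairwise coprime integers whose product is a cube are cubes.
-/

set_option autoImplicit false

namespace ECU

theorem two_cubes {a b s : ℤ} (h : IsCoprime a b) (hs : a * b = s ^ 3) :
    ∃ α β : ℤ, a = α ^ 3 ∧ b = β ^ 3 := by
  obtain ⟨⟨α, hα⟩, ⟨β, hβ⟩⟩ := Int.eq_pow_of_mul_eq_pow_odd h (by decide : Odd 3) hs
  exact ⟨α, β, hα, hβ⟩

theorem three_cubes {a b c s : ℤ} (h1 : IsCoprime a b) (h2 : IsCoprime a c) (h3 : IsCoprime b c)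
    (hs : a * b * c = s ^ 3) : ∃ α β γ : ℤ, a = α ^ 3 ∧ b = β ^ 3 ∧ c = γ ^ 3 := by
  obtain ⟨t, γ, ht, hγ⟩ := two_cubes (h2.mul_left h3) hs
  obtain ⟨α, β, hα, hβ⟩ := two_cubes h1 ht
  exact ⟨α, β, γ, hα, hβ, hγ⟩

end ECU
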