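import Pool.Agent.ECU.R1
import Pool.Agent.ECU.R2a

/-!
[ECU-R2] Euler: no three different cubes of positive integers in arithmetic progression.

`desc`: there are no integers `x, z, y` with `x³ + z³ = 2 y³`, `x ≠ z`, `y ≠ 0`. Strong induction on `|y|`. Divide by
`gcd(x, z)` (then the gcd divides `y`, as its cube divides `2 y³`): `x, z` coprime. `x + z` is even, so
`x, z` are both odd; `p = (x + z)/2`, `q = (x - z)/2`: `p, q` coprime, of different parity (`p + q = x` odd), `q ≠ 0`,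
`p (p² + 3 q²) = y³`, `p ≠ 0`, `p² + 3 q²` odd.
Case `3 ∤ p`: `gcd (p, p² + 3 q²) = 1`, so `p = a³`, `p² + 3 q² = s³`
(`two_cubes`, `three_cubes` from `R2a`), `rep_cube`:
`p = u (u - 3v)(u + 3v)`, `q = 3 v (u² - v²)`; `gcd (u, 3 v) = 1` (`3 ∤ u` since `3 ∤ p`; `gcd(u,v)` divides `p, q`),
`u, v` of different parity (`p` and `q` have different parities, `p ≡ u + u v`... mod 2), so the three factors
are pairwise coprime and cubes: `u = α³`, `u - 3v = β³`, `u + 3v = γ³`: `β³ + γ³ = 2 α³`, `β ≠ γ` (`v ≠ 0`),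
`α ≠ 0`, and `|α|³ = |u| ≤ |p| < |y|³` (`p² + 3 q² > 1`).
Case `p = 3 r`: `9 r (q² + 3 r²) = y³`, `3 ∤ q`, so `gcd (9 r, q² + 3 r²) = 1`, `9 r = a³`, `q² + 3 r² = s³` (odd),
`rep_cube` for `(q, r)`: `q = u³ - 9 u v²`, `r = 3 v (u² - v²)`; `27 v (u - v)(u + v) = a³`, `3 ∣ a`, so
`v (u - v)(u + v) = (a/3)³` with pairwise coprime factors (`gcd (u, v) = 1`, different parity):
`v = α³`, `u - v = β³`, `u + v = γ³`: `γ³ + (-β)³ = 2 α³`, `γ ≠ -β` (`u ≠ 0`), `α ≠ 0` (`r ≠ 0`),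
`|α|³ = |v| ≤ |r| < |y|³`.
-/

set_option autoImplicit false

namespace ECU

theorem r2_cop {u w : ℤ} (h : IsCoprime u w) (ho : Odd (u + w)) :
    IsCoprime (u - w) (u + w) ∧ IsCoprime u (u - w) ∧ IsCoprime u (u + w) ∧
      IsCoprime w (u - w) ∧ IsCoprime w (u + w) := by
  obtain ⟨a, b, hab⟩ := h
  have h3 : IsCoprime u (u + w) := ⟨a - b, b, by linear_combination hab⟩
  refine ⟨?_, ⟨a + b, -b, by linear_combination hab⟩, h3,
    ⟨a + b, a, by linear_combination hab⟩, ⟨b - a, a, by linear_combination hab⟩⟩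
  obtain ⟨k, hk⟩ := ho
  have h1 : IsCoprime (u + w) 2 := ⟨1, -k, by linear_combination hk⟩
  obtain ⟨c, d, hcd⟩ := h1.mul_right h3.symm
  exact ⟨d, c + d, by linear_combination hcd⟩

theorem r2_two {p q : ℤ} (hpq : IsCoprime p q) (h1 : (2 : ℤ) ∣ p) (h2 : (2 : ℤ) ∣ q) : False := by
  have h := hpq.isUnit_of_dvd' h1 h2
  rw [Int.isUnit_iff] at h
  omega

theorem r2_par {u v p q : ℤ} (hpq : IsCoprime p q) (hp : p = u ^ 3 - 9 * u * v ^ 2)
    (hq : q = 3 * u ^ 2 * v - 3 * v ^ 3) : IsCoprime u v ∧ Odd (u + v) := by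
  constructor
  · obtain ⟨a, b, hab⟩ := hpq
    refine ⟨a * (u ^ 2 - 9 * v ^ 2), b * (3 * u ^ 2 - 3 * v ^ 2), ?_⟩
    rw [hp, hq] at hab
    linear_combination hab
  · by_contra hne
    rw [Int.not_odd_iff_even] at hne
    obtain ⟨k, hk⟩ := hne
    refine r2_two hpq ⟨u * (u + 3 * v) * (k - 2 * v), ?_⟩ ⟨3 * v * (u - v) * k, ?_⟩
    · have e : u - 3 * v = 2 * (k - 2 * v) := by linear_combination hk
      rw [hp]
      linear_combination (u * (u + 3 * v)) * e
    · rw [hq]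
      linear_combination (3 * v * (u - v)) * hk

theorem r2_lt {α u p q y : ℤ} (hα : u = α ^ 3) (hup : u ∣ p) (hp : p ≠ 0) (hq : q ≠ 0)
    (h : p * (p ^ 2 + 3 * q ^ 2) = y ^ 3) : α.natAbs < y.natAbs := by
  have h1 : α.natAbs ^ 3 ≤ p.natAbs := by
    rw [← Int.natAbs_pow, ← hα]
    exact Nat.le_of_dvd (Int.natAbs_pos.mpr hp) (Int.natAbs_dvd_natAbs.mpr hup)
  have h2 : y.natAbs ^ 3 = p.natAbs * (p ^ 2 + 3 * q ^ 2).natAbs := by
    rw [← Int.natAbs_pow, ← h, Int.natAbs_mul]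
  have h3 : 2 ≤ (p ^ 2 + 3 * q ^ 2).natAbs := by
    have e1 : 0 < p ^ 2 := by positivity
    have e2 : 0 < q ^ 2 := by positivity
    omega
  have h4 : 0 < p.natAbs := Int.natAbs_pos.mpr hp
  have h5 : α.natAbs ^ 3 < y.natAbs ^ 3 := by
    rw [h2]; nlinarith
  exact lt_of_pow_lt_pow_left₀ 3 (Nat.zero_le _) h5

theorem r2_odd {s : ℤ} (h : Odd (s ^ 3)) : Odd s := by
  rcases Int.even_or_odd s with h1 | h1
  · exact absurd (h1.pow_of_ne_zero (by norm_num : (3 : ℕ) ≠ 0)) (Int.not_even_iff_odd.mpr h)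
  · exact h1

theorem r2_three {p : ℤ} (h : ¬ (3 : ℤ) ∣ p) : IsCoprime p 3 := by
  have h3 : Prime (3 : ℤ) := Int.prime_three
  exact ((Prime.coprime_iff_not_dvd h3).mpr h).symm

/-- The coprime case: descent to a smaller solution. -/
theorem r2_step (x z y : ℤ) (hxz : IsCoprime x z) (h : x ^ 3 + z ^ 3 = 2 * y ^ 3) (hne : x ≠ z)
    (hy : y ≠ 0) (ih : ∀ x' z' y' : ℤ, y'.natAbs < y.natAbs → x' ^ 3 + z' ^ 3 = 2 * y' ^ 3 →
      x' = z' ∨ y' = 0) : False := by
  -- `x` and `z` are odd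
  obtain ⟨p, q, rfl, rfl⟩ : ∃ p q : ℤ, x = p + q ∧ z = p - q := by
    have h1 : Even (x + z) := by
      have h2 : Even (x ^ 3 + z ^ 3) := by rw [h]; exact even_two_mul _
      rw [Int.even_add, Int.even_pow' (by norm_num), Int.even_pow' (by norm_num)] at h2
      rw [Int.even_add]; exact h2
    obtain ⟨k, hk⟩ := h1
    exact ⟨k, x - k, by ring, by linear_combination hk⟩
  have hpq : IsCoprime p q := by
    obtain ⟨a, b, hab⟩ := hxz
    exact ⟨a + b, a - b, by linear_combination hab⟩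
  have hq : q ≠ 0 := by rintro rfl; exact hne (by ring)
  have hmain : p * (p ^ 2 + 3 * q ^ 2) = y ^ 3 := by linarith
  have hp : p ≠ 0 := by
    rintro rfl
    rw [zero_mul] at hmain
    exact hy (pow_eq_zero_iff (by norm_num) |>.mp hmain.symm)
  have hodd : Odd (p + q) := by
    by_contra hev
    rw [Int.not_odd_iff_even] at hev
    have h1 : Even (p - q) := by
      rw [Int.even_sub]; rwa [Int.even_add] at hev
    exact r2_two hxz hev.two_dvd h1.two_dvd
  have hodd2 : Odd (p ^ 2 + 3 * q ^ 2) := by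
    obtain ⟨k, hk⟩ := hodd
    have e : p ^ 2 + 3 * q ^ 2 = (p + q) ^ 2 - 2 * p * q + 2 * q ^ 2 := by ring
    rw [e, hk]
    exact ⟨2 * k ^ 2 + 2 * k - p * q + q ^ 2, by ring⟩
  by_cases h3 : (3 : ℤ) ∣ p
  · -- `p = 3 r`
    obtain ⟨r, rfl⟩ := h3
    have hr : r ≠ 0 := by rintro rfl; simp at hp
    have hqr : IsCoprime q r := (IsCoprime.of_mul_left_right hpq).symm
    have hq3 : IsCoprime q 3 := (IsCoprime.of_mul_left_left hpq).symm
    have hc : IsCoprime (9 * r) (q ^ 2 + 3 * r ^ 2) := by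
      have c1 : IsCoprime (3 : ℤ) (q ^ 2 + 3 * r ^ 2) := by
        have := (hq3.pow_left (m := 2)).symm
        exact this.add_mul_left_right (r ^ 2)
      have c2 : IsCoprime r (q ^ 2 + 3 * r ^ 2) := by
        have := (hqr.pow_left (m := 2)).symm
        have h4 := this.add_mul_left_right (3 * r)
        have e : q ^ 2 + r * (3 * r) = q ^ 2 + 3 * r ^ 2 := by ring
        rwa [e] at h4
      have e : (9 * r : ℤ) = 3 * 3 * r := by ring
      rw [e]
      exact (c1.mul_left c1).mul_left c2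
    have hmain' : 9 * r * (q ^ 2 + 3 * r ^ 2) = y ^ 3 := by rw [← hmain]; ring
    obtain ⟨a, s, ha, hs⟩ := two_cubes hc hmain'
    have hso : Odd s := by
      apply r2_odd
      rw [← hs]
      have e : (3 * r) ^ 2 + 3 * q ^ 2 = 3 * (q ^ 2 + 3 * r ^ 2) := by ring
      rw [e] at hodd2
      exact (Int.odd_mul.mp hodd2).2
    obtain ⟨u, v, hu, hv⟩ := rep_cube q r s hqr hso hs
    obtain ⟨huv, huvo⟩ := r2_par hqr hu hv
    obtain ⟨k1, -, -, k4, k5⟩ := r2_cop huv huvo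
    have h3a : (3 : ℤ) ∣ a := by
      have : (3 : ℤ) ∣ a ^ 3 := ⟨3 * r, by rw [← ha]; ring⟩
      exact Int.prime_three.dvd_of_dvd_pow this
    obtain ⟨a1, rfl⟩ := h3a
    have hprod : v * (u - v) * (u + v) = a1 ^ 3 := by
      have : 27 * (v * (u - v) * (u + v)) = 27 * a1 ^ 3 := by
        have e : (3 * a1) ^ 3 = 27 * a1 ^ 3 := by ring
        rw [← e, ← ha, hv]; ring
      linarith
    obtain ⟨α, β, γ, e1, e2, e3⟩ := three_cubes k4 k5 k1 hprod
    have hlt : α.natAbs < y.natAbs := by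
      refine r2_lt e1 ?_ hp hq hmain
      exact ⟨9 * (u ^ 2 - v ^ 2), by rw [hv]; ring⟩
    rcases ih γ (-β) α hlt (by
      have : (-β) ^ 3 = -β ^ 3 := by ring
      rw [this, ← e1, ← e2, ← e3]; ring) with h5 | h5
    · have : u = 0 := by
        have h6 : γ ^ 3 = -β ^ 3 := by rw [h5]; ring
        rw [← e3, ← e2] at h6
        linarith
      exact hq (by rw [hu, this]; ring)
    · have : v = 0 := by rw [e1, h5]; ring
      exact hr (by rw [hv, this]; ring)
  · have hp3 : IsCoprime p 3 := r2_three h3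
    have hc : IsCoprime p (p ^ 2 + 3 * q ^ 2) := by
      have h4 : IsCoprime p (3 * q ^ 2) := hp3.mul_right hpq.pow_right
      have h5 := h4.add_mul_left_right p
      have e : 3 * q ^ 2 + p * p = p ^ 2 + 3 * q ^ 2 := by ring
      rwa [e] at h5
    obtain ⟨a, s, ha, hs⟩ := two_cubes hc hmain
    have hso : Odd s := by
      apply r2_odd
      rw [← hs]; exact hodd2
    obtain ⟨u, v, hu, hv⟩ := rep_cube p q s hpq hso hs
    obtain ⟨huv, huvo⟩ := r2_par hpq hu hv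
    have hu3 : IsCoprime u 3 := by
      apply r2_three
      rintro ⟨m, rfl⟩
      exact h3 ⟨9 * m ^ 3 - 9 * m * v ^ 2, by rw [hu]; ring⟩
    have hu3v : IsCoprime u (3 * v) := hu3.mul_right huv
    have ho3 : Odd (u + 3 * v) := by
      obtain ⟨k, hk⟩ := huvo
      exact ⟨k + v, by linear_combination hk⟩
    obtain ⟨k1, k2, k3, -, -⟩ := r2_cop hu3v ho3
    have hprod : u * (u - 3 * v) * (u + 3 * v) = a ^ 3 := by
      rw [← ha, hu]; ring
    obtain ⟨α, β, γ, e1, e2, e3⟩ := three_cubes k2 k3 k1 hprod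
    have hlt : α.natAbs < y.natAbs := by
      refine r2_lt e1 ?_ hp hq hmain
      exact ⟨u ^ 2 - 9 * v ^ 2, by rw [hu]; ring⟩
    rcases ih β γ α hlt (by rw [← e1, ← e2, ← e3]; ring) with h5 | h5
    · have : v = 0 := by
        have h6 : β ^ 3 = γ ^ 3 := by rw [h5]
        rw [← e3, ← e2] at h6
        linarith
      exact hq (by rw [hv, this]; ring)
    · have : u = 0 := by rw [e1, h5]; ring
      exact hp (by rw [hu, this]; ring)

theorem desc (x z y : ℤ) (h : x ^ 3 + z ^ 3 = 2 * y ^ 3) : x = z ∨ y = 0 := by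
  induction hn : y.natAbs using Nat.strong_induction_on generalizing x z y with
  | _ n ih =>
    by_contra hcon
    rw [not_or] at hcon
    obtain ⟨hne, hy⟩ := hcon
    have ih' : ∀ x' z' y' : ℤ, y'.natAbs < y.natAbs → x' ^ 3 + z' ^ 3 = 2 * y' ^ 3 →
        x' = z' ∨ y' = 0 := fun x' z' y' hlt h' => ih _ (hn ▸ hlt) x' z' y' h' rfl
    by_cases hc : IsCoprime x z
    · exact r2_step x z y hc h hne hy ih'
    · rw [Int.isCoprime_iff_gcd_eq_one] at hc
      obtain ⟨p, hp, hpd⟩ := Nat.exists_prime_and_dvd hc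
      have hpx : (p : ℤ) ∣ x := (Int.natCast_dvd_natCast.mpr hpd).trans (Int.gcd_dvd_left ..)
      have hpz : (p : ℤ) ∣ z := (Int.natCast_dvd_natCast.mpr hpd).trans (Int.gcd_dvd_right ..)
      obtain ⟨x1, rfl⟩ := hpx
      obtain ⟨z1, rfl⟩ := hpz
      have hpp : Prime (p : ℤ) := Nat.prime_iff_prime_int.mp hp
      have hp0 : (p : ℤ) ≠ 0 := hpp.ne_zero
      have hpy : (p : ℤ) ∣ y := by
        have h1 : (p : ℤ) ^ 3 * (x1 ^ 3 + z1 ^ 3) = 2 * y ^ 3 := by rw [← h]; ring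
        by_cases h2 : p = 2
        · subst h2
          push_cast at h1 ⊢
          have h3 : (2 : ℤ) ∣ y ^ 3 := ⟨2 * (x1 ^ 3 + z1 ^ 3), by linarith⟩
          exact Int.prime_two.dvd_of_dvd_pow h3
        · have h3 : (p : ℤ) ∣ 2 * y ^ 3 := ⟨(p : ℤ) ^ 2 * (x1 ^ 3 + z1 ^ 3), by rw [← h1]; ring⟩
          rcases hpp.dvd_or_dvd h3 with h4 | h4
          · exfalso
            have h5 : p ∣ 2 := by exact_mod_cast h4
            exact h2 ((Nat.prime_dvd_prime_iff_eq hp Nat.prime_two).mp h5)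
          · exact hpp.dvd_of_dvd_pow h4
      obtain ⟨y1, rfl⟩ := hpy
      have hy1 : y1 ≠ 0 := by rintro rfl; simp at hy
      have h1 : x1 ^ 3 + z1 ^ 3 = 2 * y1 ^ 3 := by
        have h2 : (p : ℤ) ^ 3 * (x1 ^ 3 + z1 ^ 3) = (p : ℤ) ^ 3 * (2 * y1 ^ 3) := by
          linear_combination h
        exact mul_left_cancel₀ (pow_ne_zero 3 hp0) h2
      have hlt : y1.natAbs < ((p : ℤ) * y1).natAbs := by
        rw [Int.natAbs_mul, Int.natAbs_natCast]
        have := Int.natAbs_pos.mpr hy1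
        have := hp.two_le
        nlinarith
      rcases ih' x1 z1 y1 hlt h1 with h2 | h2
      · exact hne (by rw [h2])
      · exact hy1 h2

theorem euler_cubes (x y z : ℕ) (hx : 0 < x) (h : x ^ 3 + z ^ 3 = 2 * y ^ 3) : x = z := by
  rcases desc x z y (by exact_mod_cast h) with h1 | h1
  · exact_mod_cast h1
  · have h2 : y = 0 := by exact_mod_cast h1
    rw [h2] at h
    have : 0 < x ^ 3 := by positivity
    omega

end ECU
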