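import Pool.Agent.ECU.N1
import Pool.Agent.ECU.R2

/-!
[ECU-R3] a class is free of three-term progressions.
-/

set_option autoImplicit false

namespace ECU

open Finset

theorem S_roth {n d k : ℕ} (h : Sol n d k) {c : ℕ} (hc : 0 < c) :
    S n d k c ≤ rothNumberNat (k / c + 1) := by
  set F := (range k).filter (fun i => cub k (n + i * d) = c) with hF
  have hS : S n d k c = F.card := rfl
  by_cases h0 : F.Nonempty
  · set i0 := F.min' h0 with hi0
    have hi0F : i0 ∈ F := F.min'_mem h0
    have hi0' := mem_filter.1 hi0F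
    have hcube : ∀ i ∈ F, ∃ x : ℕ, 0 < x ∧ n + i * d = c * x ^ 3 := by
      intro i hi
      have hi' := mem_filter.1 hi
      obtain ⟨x, hx, he⟩ := cub_mul_cube h (mem_range.1 hi'.1)
      rw [hi'.2] at he
      exact ⟨x, hx, he⟩
    have hdiv : ∀ i ∈ F, c ∣ n + i * d := by
      intro i hi
      obtain ⟨x, -, he⟩ := hcube i hi
      exact ⟨x ^ 3, he⟩
    have hkey : ∀ i ∈ F, i0 ≤ i ∧ i = i0 + c * ((i - i0) / c) := by
      intro i hiF
      have hi' := mem_filter.1 hiF
      have hle : i0 ≤ i := F.min'_le i hiF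
      have hm := cub_modEq h (mem_range.1 hi0'.1) (mem_range.1 hi'.1) (hdiv i0 hi0F) (hdiv i hiF)
      have hcd : c ∣ i - i0 := (Nat.modEq_iff_dvd' hle).1 hm
      refine ⟨hle, ?_⟩
      rw [Nat.mul_div_cancel' hcd]
      omega
    have hE : (F.image fun i => (i - i0) / c).card = F.card := by
      apply Finset.card_image_of_injOn
      intro i hi i' hi' he
      simp only at he
      have h1 := (hkey i hi).2
      have h2 := (hkey i' hi').2
      rw [he] at h1
      rw [h1]
      exact h2.symm
    rw [hS, ← hE]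
    refine ThreeAPFree.le_rothNumberNat _ ?_ ?_ rfl
    · intro t1 ht1 t2 ht2 t3 ht3 he
      rw [Finset.mem_coe, mem_image] at ht1 ht2 ht3
      obtain ⟨i1, hi1, rfl⟩ := ht1
      obtain ⟨i2, hi2, rfl⟩ := ht2
      obtain ⟨i3, hi3, rfl⟩ := ht3
      obtain ⟨x1, hx1, e1⟩ := hcube i1 hi1
      obtain ⟨x2, hx2, e2⟩ := hcube i2 hi2
      obtain ⟨x3, hx3, e3⟩ := hcube i3 hi3
      have k1 := (hkey i1 hi1).2
      have k2 := (hkey i2 hi2).2
      have k3 := (hkey i3 hi3).2
      generalize (i1 - i0) / c = t1 at *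
      generalize (i2 - i0) / c = t2 at *
      generalize (i3 - i0) / c = t3 at *
      have hsum : x1 ^ 3 + x3 ^ 3 = 2 * x2 ^ 3 := by
        have h1 : c * (x1 ^ 3 + x3 ^ 3) = c * (2 * x2 ^ 3) := by
          have h2 : c * (x1 ^ 3 + x3 ^ 3) = (n + i1 * d) + (n + i3 * d) := by
            rw [e1, e3]; ring
          have h3 : c * (2 * x2 ^ 3) = 2 * (n + i2 * d) := by
            rw [e2]; ring
          rw [h2, h3, k1, k2, k3]
          have h4 : c * t1 * d + c * t3 * d = 2 * (c * t2 * d) := by
            calc c * t1 * d + c * t3 * d = c * (t1 + t3) * d := by ring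
              _ = c * (t2 + t2) * d := by rw [he]
              _ = 2 * (c * t2 * d) := by ring
          linarith
        exact Nat.eq_of_mul_eq_mul_left hc h1
      have hx : x1 = x3 := euler_cubes x1 x2 x3 hx1 hsum
      have ht : t1 = t3 := by
        have h1 : n + i1 * d = n + i3 * d := by rw [e1, e3, hx]
        have h2 : i1 * d = i3 * d := by omega
        have h3 : i1 = i3 := Nat.eq_of_mul_eq_mul_right h.d0 h2
        rw [h3, k3] at k1
        have h4 : c * t3 = c * t1 := by omega
        exact (Nat.eq_of_mul_eq_mul_left hc h4).symm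
      omega
    · intro t ht
      rw [mem_image] at ht
      obtain ⟨i, hiF, rfl⟩ := ht
      have hi' := mem_range.1 (mem_filter.1 hiF).1
      have : (i - i0) / c ≤ k / c := Nat.div_le_div_right (by omega)
      omega
  · rw [Finset.not_nonempty_iff_eq_empty] at h0
    rw [hS, h0]
    simp

end ECU
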